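import Pool.Agent.GHCUni.Lagr

/-!
# Chains of Lagrangian idempotents
-/

set_option autoImplicit false

namespace Pool.Agent.GHCUni

open Module

/-- Lagrangian idempotents. -/
theorem chain_sp {V : Type*} [AddCommGroup V] [Module ℂ V] [FiniteDimensional ℂ V]
    {ω : V →ₗ[ℂ] V →ₗ[ℂ] ℂ} (halt : ∀ x, ω x x = 0) (hnd : ∀ x, (∀ y, ω x y = 0) → x = 0)
    {a b : Module.End ℂ V} (ha : a * a = a) (hb : b * b = b)
    (haω : ∀ x y, ω (a x) y + ω x (a y) = ω x y) (hbω : ∀ x y, ω (b x) y + ω x (b y) = ω x y) :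
    ∃ p q : Module.End ℂ V, p * p = p ∧ q * q = q ∧
      (∀ x y, ω (p x) y + ω x (p y) = ω x y) ∧ (∀ x y, ω (q x) y + ω x (q y) = ω x y) ∧
      (a * p = p ∧ p * a = a) ∧ (p * q = p ∧ q * p = q) ∧ (q * b = b ∧ b * q = q) := by
  sorry

end Pool.Agent.GHCUni
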