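import Mathlib

/-!
# Common Lagrangian complements
-/

set_option autoImplicit false

namespace Pool.Agent.GHCUni

open Module

/-- The orthogonal of an isotropic subspace which is too small is not contained in `U ⊔ C`. -/
private theorem not_orth_le {V : Type*} [AddCommGroup V] [Module ℂ V] [FiniteDimensional ℂ V]
    (ω : LinearMap.BilinForm ℂ V) (halt : ∀ x, ω x x = 0) (hnd : ω.Nondegenerate)
    (U C : Submodule ℂ V) (hU : ∀ x ∈ U, ∀ y ∈ U, ω x y = 0)
    (h : 2 * finrank ℂ U = finrank ℂ V) (hC : Disjoint U C)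
    (hlt : 2 * finrank ℂ C < finrank ℂ V) : ¬ ω.orthogonal C ≤ U ⊔ C := by
  intro hle
  have hsk : ∀ x y, ω x y = - ω y x := fun x y => (LinearMap.IsAlt.neg halt y x).symm
  have hrefl : ω.IsRefl := fun x y hxy => by rw [hsk, hxy, neg_zero]
  have hinf : U ⊓ ω.orthogonal C ≤ C := by
    intro x hx
    have hxx : x ∈ ω.orthogonal (ω.orthogonal C) := by
      rw [LinearMap.BilinForm.mem_orthogonal_iff]
      intro y hy
      obtain ⟨u, hu, c, hc, rfl⟩ := Submodule.mem_sup.1 (hle hy)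
      have h1 : ω u x = 0 := hU u hu x hx.1
      have h2 : ω c x = 0 := (LinearMap.BilinForm.mem_orthogonal_iff.1 hx.2) c hc
      show ω (u + c) x = 0
      rw [map_add, LinearMap.add_apply, h1, h2, add_zero]
    rwa [LinearMap.BilinForm.orthogonal_orthogonal hnd hrefl] at hxx
  have hbot : U ⊓ ω.orthogonal C = ⊥ := by
    rw [eq_bot_iff]
    exact le_trans (le_inf inf_le_left hinf) hC.le_bot
  have h1 := Submodule.finrank_sup_add_finrank_inf_eq U (ω.orthogonal C)
  rw [hbot, finrank_bot, LinearMap.BilinForm.finrank_orthogonal hnd] at h1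
  have h2 : finrank ℂ ↥(U ⊔ ω.orthogonal C) ≤ finrank ℂ V := Submodule.finrank_le _
  have h3 : finrank ℂ C ≤ finrank ℂ V := Submodule.finrank_le _
  omega

/-- Two Lagrangian subspaces have a common Lagrangian complement. -/
theorem exists_lagr {V : Type*} [AddCommGroup V] [Module ℂ V] [FiniteDimensional ℂ V]
    {ω : V →ₗ[ℂ] V →ₗ[ℂ] ℂ} (halt : ∀ x, ω x x = 0) (hnd : ∀ x, (∀ y, ω x y = 0) → x = 0)
    (U U' : Submodule ℂ V) (hU : ∀ x ∈ U, ∀ y ∈ U, ω x y = 0)
    (hU' : ∀ x ∈ U', ∀ y ∈ U', ω x y = 0) (h : 2 * finrank ℂ U = finrank ℂ V)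
    (h' : 2 * finrank ℂ U' = finrank ℂ V) :
    ∃ C : Submodule ℂ V, (∀ x ∈ C, ∀ y ∈ C, ω x y = 0) ∧ IsCompl U C ∧ IsCompl U' C := by
  classical
  have hsk : ∀ x y, ω x y = - ω y x := fun x y => (LinearMap.IsAlt.neg halt y x).symm
  have hND : LinearMap.BilinForm.Nondegenerate (ω : LinearMap.BilinForm ℂ V) :=
    ⟨hnd, fun y hy => hnd y fun x => by rw [hsk, hy, neg_zero]⟩
  set P : Set (Submodule ℂ V) :=
    {C | (∀ x ∈ C, ∀ y ∈ C, ω x y = 0) ∧ Disjoint U C ∧ Disjoint U' C} with hP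
  have hPne : P.Nonempty := ⟨⊥, by simp [hP]⟩
  obtain ⟨C, hC, hmax⟩ := (wellFounded_gt (α := Submodule ℂ V)).has_min P hPne
  obtain ⟨hCi, hCU, hCU'⟩ := hC
  have hdim : ∀ W : Submodule ℂ V, Disjoint W C → finrank ℂ W + finrank ℂ C ≤ finrank ℂ V := by
    intro W hW
    have h1 := Submodule.finrank_sup_add_finrank_inf_eq W C
    rw [hW.eq_bot, finrank_bot] at h1
    have h2 : finrank ℂ ↥(W ⊔ C) ≤ finrank ℂ V := Submodule.finrank_le _
    omega
  have hge : finrank ℂ V ≤ 2 * finrank ℂ C := by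
    by_contra hlt
    push Not at hlt
    have n1 := not_orth_le ω halt hND U C hU h hCU hlt
    have n2 := not_orth_le ω halt hND U' C hU' h' hCU' hlt
    obtain ⟨v, hv, hvU, hvU'⟩ : ∃ v ∈ LinearMap.BilinForm.orthogonal ω C,
        v ∉ U ⊔ C ∧ v ∉ U' ⊔ C := by
      obtain ⟨a, ha, haU⟩ := SetLike.not_le_iff_exists.1 n1
      obtain ⟨b, hb, hbU⟩ := SetLike.not_le_iff_exists.1 n2
      by_cases h1 : a ∈ U' ⊔ C
      · by_cases h2 : b ∈ U ⊔ C
        · refine ⟨a + b, Submodule.add_mem _ ha hb, fun hh => haU ?_, fun hh => hbU ?_⟩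
          · simpa using Submodule.sub_mem _ hh h2
          · simpa using Submodule.sub_mem _ hh h1
        · exact ⟨b, hb, h2, hbU⟩
      · exact ⟨a, ha, haU, h1⟩
    have hv0 : ∀ c ∈ C, ω c v = 0 := fun c hc => (LinearMap.BilinForm.mem_orthogonal_iff.1 hv) c hc
    have hv0' : ∀ c ∈ C, ω v c = 0 := fun c hc => by rw [hsk, hv0 c hc, neg_zero]
    have hdis : ∀ W : Submodule ℂ V, Disjoint W C → v ∉ W ⊔ C →
        Disjoint W (C ⊔ Submodule.span ℂ {v}) := by
      intro W hW hvW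
      rw [Submodule.disjoint_def]
      intro x hxW hx
      obtain ⟨c, hc, s, hs, hcs⟩ := Submodule.mem_sup.1 hx
      obtain ⟨a, rfl⟩ := Submodule.mem_span_singleton.1 hs
      by_cases ha : a = 0
      · rw [ha, zero_smul, add_zero] at hcs
        rw [hcs] at hc
        exact (Submodule.disjoint_def.1 hW) x hxW hc
      · exfalso
        apply hvW
        have : v = a⁻¹ • x - a⁻¹ • c := by
          rw [← hcs, smul_add, smul_smul, inv_mul_cancel₀ ha, one_smul]
          abel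
        rw [this]
        exact Submodule.sub_mem _ (Submodule.mem_sup_left (W.smul_mem _ hxW))
          (Submodule.mem_sup_right (C.smul_mem _ hc))
    have hmem : C ⊔ Submodule.span ℂ {v} ∈ P := by
      refine ⟨?_, hdis U hCU hvU, hdis U' hCU' hvU'⟩
      intro x hx y hy
      obtain ⟨c, hc, s, hs, rfl⟩ := Submodule.mem_sup.1 hx
      obtain ⟨a, rfl⟩ := Submodule.mem_span_singleton.1 hs
      obtain ⟨c', hc', s', hs', rfl⟩ := Submodule.mem_sup.1 hy
      obtain ⟨b, rfl⟩ := Submodule.mem_span_singleton.1 hs'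
      simp only [map_add, map_smul, LinearMap.add_apply, LinearMap.smul_apply, hCi c hc c' hc',
        hv0 c hc, hv0' c' hc', halt v, smul_zero, add_zero]
    apply hmax _ hmem
    refine lt_of_le_of_ne le_sup_left fun heq => hvU ?_
    apply Submodule.mem_sup_right
    rw [heq]
    exact Submodule.mem_sup_right (Submodule.mem_span_singleton_self v)
  have d1 := hdim U hCU
  have d2 := hdim U' hCU'
  refine ⟨C, hCi, ⟨hCU, ?_⟩, ⟨hCU', ?_⟩⟩
  · rw [codisjoint_iff]
    exact Submodule.eq_top_of_disjoint U C (by omega) hCU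
  · rw [codisjoint_iff]
    exact Submodule.eq_top_of_disjoint U' C (by omega) hCU'

end Pool.Agent.GHCUni
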