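import Pool.Agent.GHCUni.Defs

/-!
# Elements of the derived algebra
-/

set_option autoImplicit false

universe u

namespace Pool.Agent.GHCUni

open Module Pool.Agent.GHCFull Pool.Agent.OddRank Pool.Agent.GHCMix Pool.Agent.TypeIV

variable {H : Type u} [AddCommGroup H] [Module ℂ H] [FiniteDimensional ℂ H]

/-- An operator in the double commutant which is skew and a commutator of two operators in the
double commutant belongs to the derived algebra. -/
theorem mem_derived {ψ : H →ₗ[ℂ] H →ₗ[ℂ] ℂ} (hnd : ∀ x, (∀ y, ψ x y = 0) → x = 0)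
    {G : Set (Module.End ℂ H)} (hGe : ∀ e ∈ G, e * e = e)
    (hψ : ∀ e ∈ G, ∀ x y, ψ (e x) y + ψ x (e y) = ψ x y) (hss : Semisimple G)
    (hkind : ∀ W, Irreducible G W → finrank ℂ W = 1 ∨ MX.KSp G W ∨ MX.KSl G W)
    {D : Module.End ℂ H} (hskew : ∀ x y, ψ (D x) y + ψ x (D y) = 0) {ι : Type*} (s : Finset ι)
    (a b : ι → Module.End ℂ H)
    (ha : ∀ i ∈ s, ∀ z : Module.End ℂ H, (∀ g ∈ G, g * z = z * g) → a i * z = z * a i)
    (hb : ∀ i ∈ s, ∀ z : Module.End ℂ H, (∀ g ∈ G, g * z = z * g) → b i * z = z * b i)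
    (hD : D = ∑ i ∈ s, (a i * b i - b i * a i)) : D ∈ derivedSpan G := by
  sorry

end Pool.Agent.GHCUni
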