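import Pool.Agent.GHCUni.Defs

/-!
# Bounds for the eigenvalues are invariant under conjugation
-/

set_option autoImplicit false

universe u

namespace Pool.Agent.GHCUni

open Module Pool.Agent.GHCFull Pool.Agent.OddRank Pool.Agent.GHCMix Pool.Agent.TypeIV

private theorem mul_pow_eq {V : Type*} [AddCommGroup V] [Module ℂ V] {D ν : Module.End ℂ V}
    {a : ℂ} (hD : D * ν - ν * D = a • ν) (k : ℕ) :
    D * ν ^ k = ν ^ k * D + ((k : ℂ) * a) • ν ^ k := by
  have hD' : D * ν = ν * D + a • ν := by rw [← hD]; abel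
  induction k with
  | zero => simp
  | succ k ih =>
    rw [pow_succ, ← mul_assoc, ih, add_mul, mul_assoc, hD', mul_add, smul_mul_assoc,
      mul_smul_comm, ← mul_assoc]
    push_cast
    module

/-- `D` and `D + ν` have the same eigenvalues on `M` if `D ν - ν D = λ ν`, `λ ≠ 0` and `ν` is
nilpotent (conjugate by `exp (ν / λ)`, `IsNilpotent.exp`). -/
theorem UB_add {V : Type*} [AddCommGroup V] [Module ℂ V] {M : Submodule ℂ V}
    {D ν : Module.End ℂ V} (hν : IsNilpotent ν) (hM : ∀ w ∈ M, ν w ∈ M) {a : ℂ} (ha : a ≠ 0)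
    (hD : D * ν - ν * D = a • ν) {ℓ : ℤ} (h : UB M D ℓ) : UB M (D + ν) ℓ := by
  intro w hw hw0 c hc
  obtain ⟨N, hN⟩ := hν
  set q : ℕ → ℂ := fun k => (a ^ k)⁻¹ * (k.factorial : ℂ)⁻¹ with hq
  set g : Module.End ℂ V := ∑ k ∈ Finset.range (N + 1), q k • ν ^ k with hg
  have hqs : ∀ k, q (k + 1) * ((k + 1 : ℕ) * a) = q k := by
    intro k
    simp only [hq, pow_succ, Nat.factorial_succ]
    have h1 : ((k + 1 : ℕ) : ℂ) ≠ 0 := by exact_mod_cast Nat.succ_ne_zero k
    have h2 : (k.factorial : ℂ) ≠ 0 := by exact_mod_cast Nat.factorial_ne_zero k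
    have h3 : a ^ k ≠ 0 := pow_ne_zero _ ha
    push_cast at h1 ⊢
    field_simp
  have hcomm : D * g = g * (D + ν) := by
    rw [hg, Finset.mul_sum, Finset.sum_mul]
    have e1 : ∀ k, D * q k • ν ^ k = (q k • ν ^ k) * D + (q k * (k * a)) • ν ^ k := by
      intro k
      rw [mul_smul_comm, mul_pow_eq hD k, smul_add, smul_smul, smul_mul_assoc]
    have e2 : ∀ k, (q k • ν ^ k) * (D + ν) = (q k • ν ^ k) * D + q k • ν ^ (k + 1) := by
      intro k
      rw [mul_add, smul_mul_assoc (q k) (ν ^ k) ν, ← pow_succ]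
    simp only [e1, e2, Finset.sum_add_distrib]
    congr 1
    rw [Finset.sum_range_succ', Finset.sum_range_succ]
    have e3 : ν ^ (N + 1) = 0 := by rw [pow_succ, hN, zero_mul]
    rw [e3, smul_zero, add_zero]
    simp only [Nat.cast_zero, zero_mul, mul_zero, zero_smul, add_zero]
    exact Finset.sum_congr rfl fun k _ => by rw [hqs]
  have hgM : ∀ k, ∀ v ∈ M, (ν ^ k) v ∈ M := by
    intro k
    induction k with
    | zero => intro v hv; simpa using hv
    | succ k ih => intro v hv; rw [pow_succ]; exact ih _ (hM v hv)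
  have hgw : g w ∈ M := by
    rw [hg, LinearMap.sum_apply]
    exact M.sum_mem fun k _ => M.smul_mem _ (hgM k w hw)
  have hunit : IsUnit g := by
    have h1 : g = 1 + ν * ∑ k ∈ Finset.range N, q (k + 1) • ν ^ k := by
      rw [hg, Finset.sum_range_succ', Finset.mul_sum, add_comm]
      congr 1
      · simp [hq]
      · exact Finset.sum_congr rfl fun k _ => by rw [mul_smul_comm, ← pow_succ']
    rw [h1]
    apply IsNilpotent.isUnit_one_add
    apply Commute.isNilpotent_mul_right _ ⟨N, hN⟩
    apply Commute.sum_right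
    intro k _
    exact ((Commute.refl ν).pow_right k).smul_right _
  have hne : g w ≠ 0 := by
    intro h0
    obtain ⟨u, hu⟩ := hunit
    apply hw0
    have : ((↑u⁻¹ : Module.End ℂ V) * g) w = 0 := by
      rw [Module.End.mul_apply, h0, map_zero]
    rwa [← hu, Units.inv_mul, Module.End.one_apply] at this
  have hev : D (g w) = (c : ℂ) • g w := by
    have : (D * g) w = (g * (D + ν)) w := by rw [hcomm]
    rw [Module.End.mul_apply, Module.End.mul_apply, hc, map_smul] at this
    exact this
  exact h _ hgw hne c hev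

end Pool.Agent.GHCUni
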