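import Pool.Agent.GHCUni.Der
import Pool.Agent.GHCUni.UBAdd
import Pool.Agent.GHCUni.Derived

/-!
# Bounds for the eigenvalues are invariant under unipotent moves
-/

set_option autoImplicit false

universe u

namespace Pool.Agent.GHCUni

open Module Pool.Agent.GHCFull Pool.Agent.OddRank Pool.Agent.GHCMix Pool.Agent.TypeIV

variable {H : Type u} [AddCommGroup H] [Module ℂ H] [FiniteDimensional ℂ H]

theorem move {ψ : H →ₗ[ℂ] H →ₗ[ℂ] ℂ} (hnd : ∀ x, (∀ y, ψ x y = 0) → x = 0)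
    {G : Set (Module.End ℂ H)} (hGe : ∀ e ∈ G, e * e = e)
    (hψ : ∀ e ∈ G, ∀ x y, ψ (e x) y + ψ x (e y) = ψ x y) (hss : Semisimple G)
    (hkind : ∀ W, Irreducible G W → finrank ℂ W = 1 ∨ MX.KSp G W ∨ MX.KSl G W)
    {p p' : Module.End ℂ H} (hp : IsP ψ G p) (hp' : IsP ψ G p')
    (h : (p * p' = p' ∧ p' * p = p) ∨ (p * p' = p ∧ p' * p = p')) {k : ℕ}
    {M : Submodule ℂ (AForm H k)} (hM : ∀ D ∈ derivedSpan G, ∀ w ∈ M, der D k w ∈ M) {ℓ : ℤ}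
    (hU : UB M (der ((2 : ℂ) • p - 1) k) ℓ) : UB M (der ((2 : ℂ) • p' - 1) k) ℓ := by
  sorry

end Pool.Agent.GHCUni
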