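import Pool.Agent.GHCUni.Inv
import Pool.Agent.GHCUni.ChainMat
import Pool.Agent.GHCUni.Moves

/-!
# The idempotents of `G` are connected with the standard ones
-/

set_option autoImplicit false
set_option linter.unusedSectionVars false

universe u

namespace Pool.Agent.GHCUni

open Module Pool.Agent.GHCFull Pool.Agent.OddRank Pool.Agent.GHCMix Pool.Agent.TypeIV

section ChainAux

/-- The transpose of an operator. -/
private noncomputable def chTr {N : ℕ} (A : Module.End ℂ (Fin N → ℂ)) :
    Module.End ℂ (Fin N → ℂ) := Matrix.toLin' (LinearMap.toMatrix' A).transpose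

private theorem chTr_mul {N : ℕ} (A D : Module.End ℂ (Fin N → ℂ)) :
    chTr (A * D) = chTr D * chTr A := by
  unfold chTr
  rw [LinearMap.toMatrix'_mul, Matrix.transpose_mul, Matrix.toLin'_mul]
  rfl

private theorem chTr_dot {N : ℕ} (A : Module.End ℂ (Fin N → ℂ)) (x y : Fin N → ℂ) :
    dotProduct (A x) y = dotProduct x (chTr A y) := by
  have h : A x = Matrix.mulVec (LinearMap.toMatrix' A) x := by
    rw [← Matrix.toLin'_apply, Matrix.toLin'_toMatrix']
  rw [h, chTr, Matrix.toLin'_apply, Matrix.mulVec_transpose, dotProduct_comm,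
    Matrix.dotProduct_mulVec, dotProduct_comm]

/-- The standard symplectic form. -/
private noncomputable def chOm (J : Type) [Fintype J] :
    (J × Bool → ℂ) →ₗ[ℂ] (J × Bool → ℂ) →ₗ[ℂ] ℂ :=
  LinearMap.mk₂ ℂ (fun x y => ∑ i : J, (x (i, true) * y (i, false) - x (i, false) * y (i, true)))
    (fun x x' y => by
      rw [← Finset.sum_add_distrib]
      refine Finset.sum_congr rfl fun i _ => ?_
      simp only [Pi.add_apply]; ring)
    (fun c x y => by
      rw [smul_eq_mul, Finset.mul_sum]
      refine Finset.sum_congr rfl fun i _ => ?_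
      simp only [Pi.smul_apply, smul_eq_mul]; ring)
    (fun x y y' => by
      rw [← Finset.sum_add_distrib]
      refine Finset.sum_congr rfl fun i _ => ?_
      simp only [Pi.add_apply]; ring)
    (fun c x y => by
      rw [smul_eq_mul, Finset.mul_sum]
      refine Finset.sum_congr rfl fun i _ => ?_
      simp only [Pi.smul_apply, smul_eq_mul]; ring)

private theorem chOm_apply (J : Type) [Fintype J] (x y : J × Bool → ℂ) :
    chOm J x y = ∑ i : J, (x (i, true) * y (i, false) - x (i, false) * y (i, true)) := rfl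

private theorem chOm_alt (J : Type) [Fintype J] (x : J × Bool → ℂ) : chOm J x x = 0 := by
  rw [chOm_apply]
  exact Finset.sum_eq_zero fun i _ => by ring

private theorem chOm_nd (J : Type) [Fintype J] [DecidableEq J] (x : J × Bool → ℂ)
    (h : ∀ y, chOm J x y = 0) : x = 0 := by
  funext q
  obtain ⟨i, ε⟩ := q
  cases ε
  · have h1 := h (Pi.single (i, true) 1)
    rw [chOm_apply] at h1
    simp only [Pi.single_apply, Prod.mk.injEq] at h1
    simpa using h1
  · have h1 := h (Pi.single (i, false) 1)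
    rw [chOm_apply] at h1
    simp only [Pi.single_apply, Prod.mk.injEq] at h1
    simpa using h1

/-- The standard projection of a symplectic block. -/
private noncomputable def chPs (J : Type) : Module.End ℂ (J × Bool → ℂ) where
  toFun x q := if q.2 then x q else 0
  map_add' x y := by
    funext q
    simp only [Pi.add_apply]
    split_ifs <;> simp
  map_smul' c x := by
    funext q
    simp only [Pi.smul_apply, smul_eq_mul, RingHom.id_apply]
    split_ifs <;> simp

private theorem chPs_apply (J : Type) (x : J × Bool → ℂ) (q : J × Bool) :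
    chPs J x q = if q.2 then x q else 0 := rfl

private theorem chPs_idem (J : Type) : chPs J * chPs J = chPs J := by
  refine LinearMap.ext fun x => funext fun q => ?_
  rw [Module.End.mul_apply, chPs_apply, chPs_apply]
  split_ifs <;> rfl

private theorem chPs_om (J : Type) [Fintype J] (x y : J × Bool → ℂ) :
    chOm J (chPs J x) y + chOm J x (chPs J y) = chOm J x y := by
  rw [chOm_apply, chOm_apply, chOm_apply, ← Finset.sum_add_distrib]
  refine Finset.sum_congr rfl fun i _ => ?_
  simp only [chPs_apply, if_true, Bool.false_eq_true, if_false]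
  ring

/-- The standard projection of the other blocks. -/
private noncomputable def chPl (N r : ℕ) : Module.End ℂ (Fin N → ℂ) :=
  Matrix.toLin' (Matrix.diagonal fun j : Fin N => if (j : ℕ) < r then (1 : ℂ) else 0)

private theorem chPl_apply (N r : ℕ) (x : Fin N → ℂ) (j : Fin N) :
    chPl N r x j = if (j : ℕ) < r then x j else 0 := by
  rw [chPl, Matrix.toLin'_apply, Matrix.mulVec_diagonal]
  split_ifs <;> simp

private theorem chPl_idem (N r : ℕ) : chPl N r * chPl N r = chPl N r := by
  refine LinearMap.ext fun x => funext fun q => ?_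
  rw [Module.End.mul_apply, chPl_apply, chPl_apply]
  split_ifs <;> rfl

private theorem chPl_tr (N r : ℕ) : chTr (chPl N r) = chPl N r := by
  rw [chTr, chPl, LinearMap.toMatrix'_toLin', Matrix.diagonal_transpose]

private theorem chPl_rank (N r : ℕ) (h : r ≤ N) :
    finrank ℂ (LinearMap.range (chPl N r)) = r := by
  have h1 : finrank ℂ (LinearMap.range (chPl N r)) =
      (Matrix.diagonal fun j : Fin N => if (j : ℕ) < r then (1 : ℂ) else 0).rank := rfl
  rw [h1, Matrix.rank_diagonal]
  have h2 : Fintype.card {i : Fin N // (if (i : ℕ) < r then (1 : ℂ) else 0) ≠ 0} =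
      Fintype.card {i : Fin N // (i : ℕ) < r} := by
    refine Fintype.card_congr (Equiv.subtypeEquivRight fun i => ?_)
    by_cases hi : (i : ℕ) < r
    · simp [hi]
    · simp [hi]
  rw [h2, Fintype.card_subtype]
  have h3 : (Finset.univ.filter fun i : Fin N => (i : ℕ) < r) =
      (Finset.univ : Finset (Fin r)).map (Fin.castLEEmb h) := by
    ext i
    simp only [Finset.mem_filter, Finset.mem_univ, true_and, Finset.mem_map]
    constructor
    · intro hi
      exact ⟨⟨i, hi⟩, by ext; rfl⟩
    · rintro ⟨j, rfl⟩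
      exact j.2
  rw [h3, Finset.card_map, Finset.card_univ, Fintype.card_fin]

end ChainAux

variable {H : Type u} [AddCommGroup H] [Module ℂ H] [FiniteDimensional ℂ H]
  {T T' : Type} [Fintype T] [DecidableEq T] [Fintype T'] [DecidableEq T']
  {I S : T → Type} [∀ t, Fintype (I t)] [∀ t, DecidableEq (I t)] [∀ t, Fintype (S t)]
  [∀ t, DecidableEq (S t)] {n : T' → ℕ} {R : T' → Type} [∀ t, Fintype (R t)]
  [∀ t, DecidableEq (R t)] {B : Basis (LK I S n R) ℂ H}
  {ψ : H →ₗ[ℂ] H →ₗ[ℂ] ℂ} {G : Set (Module.End ℂ H)}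

/-- The copy of a symplectic block. -/
private noncomputable def chJS (B : Basis (LK I S n R) ℂ H) (t : T) (s : S t) :
    (I t × Bool → ℂ) →ₗ[ℂ] H :=
  Fintype.linearCombination ℂ fun q : I t × Bool => B (.inl ⟨t, q.1, s, q.2⟩)

/-- The copy of another block. -/
private noncomputable def chJR (B : Basis (LK I S n R) ℂ H) (t : T') (s : R t) (ε : Bool) :
    (Fin (n t) → ℂ) →ₗ[ℂ] H :=
  Fintype.linearCombination ℂ fun j : Fin (n t) => B (.inr ⟨t, j, s, ε⟩)

private theorem chJS_apply (t : T) (s : S t) (x : I t × Bool → ℂ) :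
    chJS B t s x = ∑ q : I t × Bool, x q • B (.inl ⟨t, q.1, s, q.2⟩) :=
  Fintype.linearCombination_apply _ _ _

private theorem chJR_apply (t : T') (s : R t) (ε : Bool) (x : Fin (n t) → ℂ) :
    chJR B t s ε x = ∑ j : Fin (n t), x j • B (.inr ⟨t, j, s, ε⟩) :=
  Fintype.linearCombination_apply _ _ _

private theorem chJS_single (t : T) (s : S t) (q : I t × Bool) :
    chJS B t s (Pi.single q 1) = B (.inl ⟨t, q.1, s, q.2⟩) := by
  rw [chJS_apply, Finset.sum_eq_single q]
  · rw [Pi.single_eq_same, one_smul]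
  · intro q' _ hq
    rw [Pi.single_eq_of_ne hq, zero_smul]
  · intro h
    exact absurd (Finset.mem_univ _) h

private theorem chJR_single (t : T') (s : R t) (ε : Bool) (j : Fin (n t)) :
    chJR B t s ε (Pi.single j 1) = B (.inr ⟨t, j, s, ε⟩) := by
  rw [chJR_apply, Finset.sum_eq_single j]
  · rw [Pi.single_eq_same, one_smul]
  · intro q' _ hq
    rw [Pi.single_eq_of_ne hq, zero_smul]
  · intro h
    exact absurd (Finset.mem_univ _) h

private theorem chJS_inj (t : T) (s : S t) : Function.Injective (chJS B t s) := by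
  have h : LinearIndependent ℂ fun q : I t × Bool => B (.inl ⟨t, q.1, s, q.2⟩) := by
    refine B.linearIndependent.comp (fun q : I t × Bool => (.inl ⟨t, q.1, s, q.2⟩ : LK I S n R)) ?_
    intro q q' hq
    simp only [Sum.inl.injEq, Sigma.mk.injEq, heq_eq_eq, Prod.mk.injEq, true_and] at hq
    exact Prod.ext hq.1 hq.2
  refine (injective_iff_map_eq_zero _).2 fun x hx => funext fun q => ?_
  rw [chJS_apply] at hx
  exact Fintype.linearIndependent_iff.1 h x hx q

private theorem chJR_inj (t : T') (s : R t) (ε : Bool) : Function.Injective (chJR B t s ε) := by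
  have h : LinearIndependent ℂ fun j : Fin (n t) => B (.inr ⟨t, j, s, ε⟩) := by
    refine B.linearIndependent.comp (fun j : Fin (n t) => (.inr ⟨t, j, s, ε⟩ : LK I S n R)) ?_
    intro q q' hq
    simpa using hq
  refine (injective_iff_map_eq_zero _).2 fun x hx => funext fun q => ?_
  rw [chJR_apply] at hx
  exact Fintype.linearIndependent_iff.1 h x hx q

/-- The operator `X` acts by `P` and `A`. -/
private structure ChActs (B : Basis (LK I S n R) ℂ H) (X : Module.End ℂ H)
    (P : ∀ t : T, Module.End ℂ (I t × Bool → ℂ)) (A : ∀ t : T', Module.End ℂ (Fin (n t) → ℂ)) :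
    Prop where
  sp : ∀ t s x, X (chJS B t s x) = chJS B t s (P t x)
  tr : ∀ t s x, X (chJR B t s true x) = chJR B t s true (A t x)
  fa : ∀ t s x, X (chJR B t s false x) = chJR B t s false (x - chTr (A t) x)

/-- Two operators agree if they agree on the copies. -/
private theorem ch_ext {X Y : Module.End ℂ H} (h1 : ∀ t s x, X (chJS B t s x) = Y (chJS B t s x))
    (h2 : ∀ t s ε x, X (chJR B t s ε x) = Y (chJR B t s ε x)) : X = Y := by
  refine B.ext fun α => ?_
  rcases α with ⟨t, i, s, ε⟩ | ⟨t, j, s, ε⟩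
  · rw [← chJS_single t s (i, ε), h1]
  · rw [← chJR_single t s ε j, h2]

private theorem ch_mulA {X Y : Module.End ℂ H} {P Q : ∀ t : T, Module.End ℂ (I t × Bool → ℂ)}
    {A D : ∀ t : T', Module.End ℂ (Fin (n t) → ℂ)} (hX : ChActs B X P A) (hY : ChActs B Y Q D)
    (h1 : ∀ t, P t * Q t = Q t) (h2 : ∀ t, A t * D t = D t) (h3 : ∀ t, D t * A t = A t) :
    X * Y = Y := by
  refine ch_ext (B := B) (fun t s x => ?_) (fun t s ε x => ?_)
  · rw [Module.End.mul_apply, hY.sp, hX.sp, ← Module.End.mul_apply, h1]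
  · cases ε
    · rw [Module.End.mul_apply, hY.fa, hX.fa]
      have h4 : chTr (A t) (chTr (D t) x) = chTr (A t) x := by
        rw [← Module.End.mul_apply, ← chTr_mul, h3]
      have h5 : x - chTr (D t) x - chTr (A t) (x - chTr (D t) x) = x - chTr (D t) x := by
        rw [map_sub (chTr (A t)), h4, sub_self, sub_zero]
      rw [h5]
    · rw [Module.End.mul_apply, hY.tr, hX.tr, ← Module.End.mul_apply, h2]

private theorem ch_mulB {X Y : Module.End ℂ H} {P Q : ∀ t : T, Module.End ℂ (I t × Bool → ℂ)}
    {A D : ∀ t : T', Module.End ℂ (Fin (n t) → ℂ)} (hX : ChActs B X P A) (hY : ChActs B Y Q D)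
    (h1 : ∀ t, P t * Q t = P t) (h2 : ∀ t, A t * D t = A t) (h3 : ∀ t, D t * A t = D t) :
    X * Y = X := by
  refine ch_ext (B := B) (fun t s x => ?_) (fun t s ε x => ?_)
  · rw [Module.End.mul_apply, hY.sp, hX.sp, ← Module.End.mul_apply, h1, hX.sp]
  · cases ε
    · rw [Module.End.mul_apply, hY.fa, hX.fa, hX.fa]
      have h4 : chTr (A t) (chTr (D t) x) = chTr (D t) x := by
        rw [← Module.End.mul_apply, ← chTr_mul, h3]
      have h5 : x - chTr (D t) x - chTr (A t) (x - chTr (D t) x) = x - chTr (A t) x := by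
        rw [map_sub (chTr (A t)), h4]
        abel
      rw [h5]
    · rw [Module.End.mul_apply, hY.tr, hX.tr, ← Module.End.mul_apply, h2, hX.tr]

/-- The operator which acts by `P` and `A`. -/
private theorem ch_exists (B : Basis (LK I S n R) ℂ H)
    (P : ∀ t : T, Module.End ℂ (I t × Bool → ℂ)) (A : ∀ t : T', Module.End ℂ (Fin (n t) → ℂ)) :
    ∃ X : Module.End ℂ H, ChActs B X P A := by
  refine ⟨B.constr ℂ (fun α => match α with
    | .inl ⟨t, i, s, ε⟩ => chJS B t s (P t (Pi.single (i, ε) 1))
    | .inr ⟨t, j, s, true⟩ => chJR B t s true (A t (Pi.single j 1))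
    | .inr ⟨t, j, s, false⟩ => chJR B t s false (Pi.single j 1 - chTr (A t) (Pi.single j 1))),
    ⟨fun t s x => ?_, fun t s x => ?_, fun t s x => ?_⟩⟩
  · have h : (B.constr ℂ (fun α => match α with
        | .inl ⟨t, i, s, ε⟩ => chJS B t s (P t (Pi.single (i, ε) 1))
        | .inr ⟨t, j, s, true⟩ => chJR B t s true (A t (Pi.single j 1))
        | .inr ⟨t, j, s, false⟩ =>
          chJR B t s false (Pi.single j 1 - chTr (A t) (Pi.single j 1)))) ∘ₗ chJS B t s =
        chJS B t s ∘ₗ P t := by
      refine LinearMap.pi_ext' fun q => LinearMap.ext_ring ?_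
      simp only [LinearMap.comp_apply, LinearMap.coe_single]
      rw [chJS_single, Basis.constr_basis]
    exact LinearMap.congr_fun h x
  · have h : (B.constr ℂ (fun α => match α with
        | .inl ⟨t, i, s, ε⟩ => chJS B t s (P t (Pi.single (i, ε) 1))
        | .inr ⟨t, j, s, true⟩ => chJR B t s true (A t (Pi.single j 1))
        | .inr ⟨t, j, s, false⟩ =>
          chJR B t s false (Pi.single j 1 - chTr (A t) (Pi.single j 1)))) ∘ₗ chJR B t s true =
        chJR B t s true ∘ₗ A t := by
      refine LinearMap.pi_ext' fun q => LinearMap.ext_ring ?_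
      simp only [LinearMap.comp_apply, LinearMap.coe_single]
      rw [chJR_single, Basis.constr_basis]
    exact LinearMap.congr_fun h x
  · have h : (B.constr ℂ (fun α => match α with
        | .inl ⟨t, i, s, ε⟩ => chJS B t s (P t (Pi.single (i, ε) 1))
        | .inr ⟨t, j, s, true⟩ => chJR B t s true (A t (Pi.single j 1))
        | .inr ⟨t, j, s, false⟩ =>
          chJR B t s false (Pi.single j 1 - chTr (A t) (Pi.single j 1)))) ∘ₗ chJR B t s false =
        chJR B t s false ∘ₗ (LinearMap.id - chTr (A t)) := by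
      refine LinearMap.pi_ext' fun q => LinearMap.ext_ring ?_
      simp only [LinearMap.comp_apply, LinearMap.coe_single]
      rw [chJR_single, Basis.constr_basis]
      rfl
    exact LinearMap.congr_fun h x

/-- The operator commutes with the commutant. -/
private theorem ch_comm (hB : Blocks B ψ G) {X : Module.End ℂ H}
    {P : ∀ t : T, Module.End ℂ (I t × Bool → ℂ)} {A : ∀ t : T', Module.End ℂ (Fin (n t) → ℂ)}
    (hX : ChActs B X P A) (z : Module.End ℂ H) (hz : ∀ g ∈ G, g * z = z * g) : X * z = z * X := by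
  refine ch_ext (B := B) (fun t s x => ?_) (fun t s ε x => ?_)
  · obtain ⟨ζ, hζ⟩ := hB.comm_sp z hz t
    have h : z ∘ₗ chJS B t s = ∑ s' : S t, ζ s' s • chJS B t s' := by
      refine LinearMap.pi_ext' fun q => LinearMap.ext_ring ?_
      simp only [LinearMap.comp_apply, LinearMap.coe_single, LinearMap.sum_apply,
        LinearMap.smul_apply]
      rw [chJS_single, hζ]
      exact Finset.sum_congr rfl fun s' _ => by rw [chJS_single]
    have h' : ∀ y, z (chJS B t s y) = ∑ s' : S t, ζ s' s • chJS B t s' y := by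
      intro y
      have := LinearMap.congr_fun h y
      simpa only [LinearMap.comp_apply, LinearMap.sum_apply, LinearMap.smul_apply] using this
    rw [Module.End.mul_apply, Module.End.mul_apply, hX.sp, h', h', map_sum]
    exact Finset.sum_congr rfl fun s' _ => by rw [map_smul, hX.sp]
  · obtain ⟨ζ, hζ⟩ := hB.comm_gl z hz t ε
    have h : z ∘ₗ chJR B t s ε = ∑ s' : R t, ζ s' s • chJR B t s' ε := by
      refine LinearMap.pi_ext' fun q => LinearMap.ext_ring ?_
      simp only [LinearMap.comp_apply, LinearMap.coe_single, LinearMap.sum_apply,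
        LinearMap.smul_apply]
      rw [chJR_single, hζ]
      exact Finset.sum_congr rfl fun s' _ => by rw [chJR_single]
    have h' : ∀ y, z (chJR B t s ε y) = ∑ s' : R t, ζ s' s • chJR B t s' ε y := by
      intro y
      have := LinearMap.congr_fun h y
      simpa only [LinearMap.comp_apply, LinearMap.sum_apply, LinearMap.smul_apply] using this
    cases ε
    · rw [Module.End.mul_apply, Module.End.mul_apply, hX.fa, h', h', map_sum]
      exact Finset.sum_congr rfl fun s' _ => by rw [map_smul, hX.fa]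
    · rw [Module.End.mul_apply, Module.End.mul_apply, hX.tr, h', h', map_sum]
      exact Finset.sum_congr rfl fun s' _ => by rw [map_smul, hX.tr]

private theorem ch_psS (hB : Blocks B ψ G) (t : T) (s : S t) (x y : I t × Bool → ℂ) :
    ψ (chJS B t s x) (chJS B t s y) = chOm (I t) x y := by
  rw [chJS_apply, chJS_apply, chOm_apply]
  simp only [map_sum, LinearMap.sum_apply, map_smul, LinearMap.smul_apply, smul_eq_mul, hB.ψ_eq]
  rw [Fintype.sum_prod_type]
  refine Finset.sum_congr rfl fun i _ => ?_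
  rw [Fintype.sum_bool, Fintype.sum_prod_type, Fintype.sum_prod_type]
  simp only [Fintype.sum_bool, bar, sg, Sum.inl.injEq, Sigma.mk.injEq, heq_eq_eq, Prod.mk.injEq,
    true_and, Bool.not_true, Bool.not_false, Bool.true_eq_false, Bool.false_eq_true, and_false,
    and_true, if_false, mul_zero, add_zero, zero_add]
  simp [eq_comm]
  ring

private theorem ch_psS0 (hB : Blocks B ψ G) {t t' : T} {s : S t} {s' : S t'}
    (h : (⟨t', s'⟩ : Σ t, S t) ≠ ⟨t, s⟩) (x : I t × Bool → ℂ) (y : I t' × Bool → ℂ) :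
    ψ (chJS B t s x) (chJS B t' s' y) = 0 := by
  rw [chJS_apply, chJS_apply]
  simp only [map_sum, LinearMap.sum_apply, map_smul, LinearMap.smul_apply, smul_eq_mul, hB.ψ_eq]
  refine Finset.sum_eq_zero fun q _ => ?_
  rw [Finset.sum_eq_zero, mul_zero]
  intro q' _
  rw [if_neg, mul_zero]
  intro h1
  apply h
  obtain ⟨i, ε⟩ := q
  obtain ⟨i', ε'⟩ := q'
  cases ε' <;> simp only [bar, Sum.inl.injEq] at h1 <;> cases h1 <;> rfl

private theorem ch_psSR (hB : Blocks B ψ G) (t : T) (s : S t) (t' : T') (s' : R t') (ε : Bool)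
    (x : I t × Bool → ℂ) (y : Fin (n t') → ℂ) : ψ (chJS B t s x) (chJR B t' s' ε y) = 0 := by
  rw [chJS_apply, chJR_apply]
  simp only [map_sum, LinearMap.sum_apply, map_smul, LinearMap.smul_apply, smul_eq_mul, hB.ψ_eq]
  refine Finset.sum_eq_zero fun q _ => ?_
  rw [Finset.sum_eq_zero, mul_zero]
  intro q' _
  rw [if_neg, mul_zero]
  intro h1
  simp [bar] at h1

private theorem ch_psRS (hB : Blocks B ψ G) (t : T) (s : S t) (t' : T') (s' : R t') (ε : Bool)
    (x : I t × Bool → ℂ) (y : Fin (n t') → ℂ) : ψ (chJR B t' s' ε y) (chJS B t s x) = 0 := by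
  rw [chJS_apply, chJR_apply]
  simp only [map_sum, LinearMap.sum_apply, map_smul, LinearMap.smul_apply, smul_eq_mul, hB.ψ_eq]
  refine Finset.sum_eq_zero fun q _ => ?_
  rw [Finset.sum_eq_zero, mul_zero]
  intro q' _
  rw [if_neg, mul_zero]
  intro h1
  cases ε <;> simp [bar] at h1

private theorem ch_psR (hB : Blocks B ψ G) (t : T') (s : R t) (ε : Bool)
    (x y : Fin (n t) → ℂ) : ψ (chJR B t s ε x) (chJR B t s (!ε) y) =
      (if ε then 1 else -1) * dotProduct x y := by
  rw [chJR_apply, chJR_apply, dotProduct, Finset.mul_sum]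
  simp only [map_sum, LinearMap.sum_apply, map_smul, LinearMap.smul_apply, smul_eq_mul, hB.ψ_eq]
  refine Finset.sum_congr rfl fun j _ => ?_
  rw [Finset.sum_eq_single j]
  · cases ε <;> simp [bar, sg] <;> ring
  · intro k _ hk
    rw [if_neg, mul_zero]
    intro h1
    apply hk
    cases ε <;> simp [bar] at h1 <;> exact h1.symm
  · intro h
    exact absurd (Finset.mem_univ _) h

private theorem ch_psR0 (hB : Blocks B ψ G) {t t' : T'} {s : R t} {s' : R t'} {ε ε' : Bool}
    (h : ¬ ((⟨t', s'⟩ : Σ t, R t) = ⟨t, s⟩ ∧ ε' = !ε)) (x : Fin (n t) → ℂ)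
    (y : Fin (n t') → ℂ) : ψ (chJR B t s ε x) (chJR B t' s' ε' y) = 0 := by
  rw [chJR_apply, chJR_apply]
  simp only [map_sum, LinearMap.sum_apply, map_smul, LinearMap.smul_apply, smul_eq_mul, hB.ψ_eq]
  refine Finset.sum_eq_zero fun q _ => ?_
  rw [Finset.sum_eq_zero, mul_zero]
  intro q' _
  rw [if_neg, mul_zero]
  intro h1
  apply h
  cases ε
  · simp only [bar, Sum.inr.injEq] at h1
    cases h1
    exact ⟨rfl, rfl⟩
  · simp only [bar, Sum.inr.injEq] at h1
    cases h1
    exact ⟨rfl, rfl⟩

/-- The identity for the form. -/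
private theorem ch_psi (hB : Blocks B ψ G) {X : Module.End ℂ H}
    {P : ∀ t : T, Module.End ℂ (I t × Bool → ℂ)} {A : ∀ t : T', Module.End ℂ (Fin (n t) → ℂ)}
    (hX : ChActs B X P A)
    (hP : ∀ t x y, chOm (I t) (P t x) y + chOm (I t) x (P t y) = chOm (I t) x y) (x y : H) :
    ψ (X x) y + ψ x (X y) = ψ x y := by
  have key : ψ ∘ₗ X + (LinearMap.lcomp ℂ ℂ X) ∘ₗ ψ = ψ := by
    refine B.ext fun α => B.ext fun β => ?_
    simp only [LinearMap.add_apply, LinearMap.comp_apply, LinearMap.lcomp_apply]
    rcases α with ⟨t, i, s, ε⟩ | ⟨t, j, s, ε⟩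
    · rcases β with ⟨t', i', s', ε'⟩ | ⟨t', j', s', ε'⟩
      · rw [← chJS_single t s (i, ε), ← chJS_single t' s' (i', ε'), hX.sp, hX.sp]
        by_cases h : (⟨t', s'⟩ : Σ t, S t) = ⟨t, s⟩
        · cases h
          rw [ch_psS hB, ch_psS hB, ch_psS hB, hP]
        · rw [ch_psS0 hB h, ch_psS0 hB h, ch_psS0 hB h, add_zero]
      · rw [← chJS_single t s (i, ε), ← chJR_single t' s' ε' j', hX.sp, ch_psSR hB, ch_psSR hB]
        cases ε'
        · rw [hX.fa, ch_psSR hB, add_zero]
        · rw [hX.tr, ch_psSR hB, add_zero]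
    · rcases β with ⟨t', i', s', ε'⟩ | ⟨t', j', s', ε'⟩
      · rw [← chJS_single t' s' (i', ε'), ← chJR_single t s ε j, hX.sp, ch_psRS hB, ch_psRS hB]
        cases ε
        · rw [hX.fa, ch_psRS hB, add_zero]
        · rw [hX.tr, ch_psRS hB, add_zero]
      · rw [← chJR_single t s ε j, ← chJR_single t' s' ε' j']
        by_cases h : (⟨t', s'⟩ : Σ t, R t) = ⟨t, s⟩ ∧ ε' = !ε
        · obtain ⟨h1, h2⟩ := h
          cases h1
          subst h2
          cases ε
          · have e1 : (!false) = true := rfl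
            rw [e1, hX.fa, hX.tr]
            have h3 := ch_psR hB t s false (Pi.single j 1) (Pi.single j' 1)
            have h4 := ch_psR hB t s false (Pi.single j 1 - chTr (A t) (Pi.single j 1))
              (Pi.single j' 1)
            have h5 := ch_psR hB t s false (Pi.single j 1) (A t (Pi.single j' 1))
            rw [e1] at h3 h4 h5
            rw [h3, h4, h5, sub_dotProduct]
            have h6 := chTr_dot (A t) (Pi.single j' 1) (Pi.single j 1)
            rw [dotProduct_comm (Pi.single j 1) (A t (Pi.single j' 1)), h6,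
              dotProduct_comm (chTr (A t) (Pi.single j 1))]
            ring
          · have e1 : (!true) = false := rfl
            rw [e1, hX.fa, hX.tr]
            have h3 := ch_psR hB t s true (Pi.single j 1) (Pi.single j' 1)
            have h4 := ch_psR hB t s true (Pi.single j 1)
              (Pi.single j' 1 - chTr (A t) (Pi.single j' 1))
            have h5 := ch_psR hB t s true (A t (Pi.single j 1)) (Pi.single j' 1)
            rw [e1] at h3 h4 h5
            rw [h3, h4, h5, dotProduct_sub, chTr_dot]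
            ring
        · cases ε
          · cases ε'
            · rw [hX.fa, hX.fa, ch_psR0 hB h, ch_psR0 hB h, ch_psR0 hB h, add_zero]
            · rw [hX.fa, hX.tr, ch_psR0 hB h, ch_psR0 hB h, ch_psR0 hB h, add_zero]
          · cases ε'
            · rw [hX.fa, hX.tr, ch_psR0 hB h, ch_psR0 hB h, ch_psR0 hB h, add_zero]
            · rw [hX.tr, hX.tr, ch_psR0 hB h, ch_psR0 hB h, ch_psR0 hB h, add_zero]
  have h1 := LinearMap.congr_fun (LinearMap.congr_fun key x) y
  simpa only [LinearMap.add_apply, LinearMap.comp_apply, LinearMap.lcomp_apply] using h1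

/-- The operator is idempotent with multiplier one and in the double commutant. -/
private theorem ch_isP (hB : Blocks B ψ G) {X : Module.End ℂ H}
    {P : ∀ t : T, Module.End ℂ (I t × Bool → ℂ)} {A : ∀ t : T', Module.End ℂ (Fin (n t) → ℂ)}
    (hX : ChActs B X P A) (hP1 : ∀ t, P t * P t = P t) (hA : ∀ t, A t * A t = A t)
    (hP : ∀ t x y, chOm (I t) (P t x) y + chOm (I t) x (P t y) = chOm (I t) x y) :
    IsP ψ G X :=
  ⟨ch_mulA hX hX hP1 hA hA, fun z hz => ch_comm hB hX z hz, ch_psi hB hX hP⟩

/-- The standard idempotent. -/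
private theorem ch_pstd (B : Basis (LK I S n R) ℂ H) (r : T' → ℕ) :
    ChActs B (pstd B r) (fun t => chPs (I t)) (fun t => chPl (n t) (r t)) := by
  have hel : ∀ α β γ : LK I S n R, el B α β (B γ) = if γ = α then B β else 0 := by
    intro α β γ
    rw [el, LinearMap.smulRight_apply, Basis.coord_apply, Basis.repr_self,
      Finsupp.single_apply]
    by_cases h : γ = α
    · rw [if_pos h, if_pos h, one_smul]
    · rw [if_neg h, if_neg h, zero_smul]
  have hS : ∀ t i s ε, pstd B r (B (.inl ⟨t, i, s, ε⟩)) =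
      if ε then B (.inl ⟨t, i, s, ε⟩) else 0 := by
    intro t i s ε
    rw [pstd, LinearMap.add_apply]
    simp only [LinearMap.sum_apply, hel]
    have h0 : (∑ t' : T', ∑ j' : Fin (n t'), ∑ s' : R t', (if (j' : ℕ) < r t' then
        el B (.inr ⟨t', j', s', true⟩) (.inr ⟨t', j', s', true⟩) else
        el B (.inr ⟨t', j', s', false⟩) (.inr ⟨t', j', s', false⟩) : Module.End ℂ H)
        (B (.inl ⟨t, i, s, ε⟩))) = 0 := by
      refine Finset.sum_eq_zero fun t' _ => Finset.sum_eq_zero fun j' _ =>
        Finset.sum_eq_zero fun s' _ => ?_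
      split_ifs
      · rw [hel, if_neg (by simp)]
      · rw [hel, if_neg (by simp)]
    rw [h0, add_zero, Finset.sum_eq_single t, Finset.sum_eq_single i, Finset.sum_eq_single s]
    · cases ε <;> simp
    · intro s' _ hs
      rw [if_neg]
      intro h
      simp only [Sum.inl.injEq, Sigma.mk.injEq, heq_eq_eq, Prod.mk.injEq, true_and] at h
      exact hs h.1.symm
    · intro h
      exact absurd (Finset.mem_univ _) h
    · intro i' _ hi
      refine Finset.sum_eq_zero fun s' _ => ?_
      rw [if_neg]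
      intro h
      simp only [Sum.inl.injEq, Sigma.mk.injEq, heq_eq_eq, Prod.mk.injEq, true_and] at h
      exact hi h.1.symm
    · intro h
      exact absurd (Finset.mem_univ _) h
    · intro t' _ ht
      refine Finset.sum_eq_zero fun i' _ => Finset.sum_eq_zero fun s' _ => ?_
      rw [if_neg]
      intro h
      simp only [Sum.inl.injEq, Sigma.mk.injEq] at h
      exact ht h.1.symm
    · intro h
      exact absurd (Finset.mem_univ _) h
  have hR : ∀ t j s ε, pstd B r (B (.inr ⟨t, j, s, ε⟩)) =
      if ((j : ℕ) < r t ↔ ε = true) then B (.inr ⟨t, j, s, ε⟩) else 0 := by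
    intro t j s ε
    rw [pstd, LinearMap.add_apply]
    simp only [LinearMap.sum_apply, hel]
    have h0 : (∑ t' : T, ∑ i' : I t', ∑ s' : S t',
        if (Sum.inr ⟨t, j, s, ε⟩ : LK I S n R) = Sum.inl ⟨t', i', s', true⟩ then
          B (.inl ⟨t', i', s', true⟩) else 0) = 0 := by
      refine Finset.sum_eq_zero fun t' _ => Finset.sum_eq_zero fun j' _ =>
        Finset.sum_eq_zero fun s' _ => ?_
      rw [if_neg (by simp)]
    have h1 : ∀ (t' : T') (j' : Fin (n t')) (s' : R t'), (if (j' : ℕ) < r t' then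
        el B (.inr ⟨t', j', s', true⟩) (.inr ⟨t', j', s', true⟩) else
        el B (.inr ⟨t', j', s', false⟩) (.inr ⟨t', j', s', false⟩) : Module.End ℂ H)
        (B (.inr ⟨t, j, s, ε⟩)) = if (j' : ℕ) < r t' then
          (if (Sum.inr ⟨t, j, s, ε⟩ : LK I S n R) = Sum.inr ⟨t', j', s', true⟩ then
            B (.inr ⟨t', j', s', true⟩) else 0) else
          (if (Sum.inr ⟨t, j, s, ε⟩ : LK I S n R) = Sum.inr ⟨t', j', s', false⟩ then
            B (.inr ⟨t', j', s', false⟩) else 0) := by
      intro t' j' s'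
      by_cases h : (j' : ℕ) < r t'
      · rw [if_pos h, if_pos h, hel]
      · rw [if_neg h, if_neg h, hel]
    simp only [h1]
    rw [h0, zero_add, Finset.sum_eq_single t, Finset.sum_eq_single j, Finset.sum_eq_single s]
    · cases ε <;> by_cases h : (j : ℕ) < r t <;> simp [h]
    · intro s' _ hs
      have e1 : ∀ ε', (Sum.inr ⟨t, j, s, ε⟩ : LK I S n R) ≠ Sum.inr ⟨t, j, s', ε'⟩ := by
        intro ε' h
        simp only [Sum.inr.injEq, Sigma.mk.injEq, heq_eq_eq, Prod.mk.injEq, true_and] at h
        exact hs h.1.symm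
      rw [if_neg (e1 true), if_neg (e1 false), ite_self]
    · intro h
      exact absurd (Finset.mem_univ _) h
    · intro i' _ hi
      refine Finset.sum_eq_zero fun s' _ => ?_
      have e1 : ∀ ε', (Sum.inr ⟨t, j, s, ε⟩ : LK I S n R) ≠ Sum.inr ⟨t, i', s', ε'⟩ := by
        intro ε' h
        simp only [Sum.inr.injEq, Sigma.mk.injEq, heq_eq_eq, Prod.mk.injEq, true_and] at h
        exact hi h.1.symm
      rw [if_neg (e1 true), if_neg (e1 false), ite_self]
    · intro h
      exact absurd (Finset.mem_univ _) h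
    · intro t' _ ht
      refine Finset.sum_eq_zero fun i' _ => Finset.sum_eq_zero fun s' _ => ?_
      have e1 : ∀ ε', (Sum.inr ⟨t, j, s, ε⟩ : LK I S n R) ≠ Sum.inr ⟨t', i', s', ε'⟩ := by
        intro ε' h
        simp only [Sum.inr.injEq, Sigma.mk.injEq] at h
        exact ht h.1.symm
      rw [if_neg (e1 true), if_neg (e1 false), ite_self]
    · intro h
      exact absurd (Finset.mem_univ _) h
  refine ⟨fun t s x => ?_, fun t s x => ?_, fun t s x => ?_⟩
  · rw [chJS_apply, chJS_apply, map_sum]
    refine Finset.sum_congr rfl fun q _ => ?_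
    rw [map_smul, hS, chPs_apply]
    split_ifs <;> simp
  · rw [chJR_apply, chJR_apply, map_sum]
    refine Finset.sum_congr rfl fun q _ => ?_
    rw [map_smul, hR, chPl_apply]
    by_cases h : (q : ℕ) < r t <;> simp [h]
  · rw [chJR_apply, chJR_apply, map_sum]
    refine Finset.sum_congr rfl fun q _ => ?_
    rw [map_smul, hR, Pi.sub_apply, chPl_tr, chPl_apply]
    by_cases h : (q : ℕ) < r t <;> simp [h]

/-- The operators of `G`. -/
private theorem ch_form (hB : Blocks B ψ G) (hGe : ∀ e ∈ G, e * e = e)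
    (hψ : ∀ e ∈ G, ∀ x y, ψ (e x) y + ψ x (e y) = ψ x y) {e : Module.End ℂ H} (he : e ∈ G)
    (r : T' → ℕ) (hr : ∀ t s, finrank ℂ ((copy B t s).map e) = r t) :
    ∃ (P : ∀ t : T, Module.End ℂ (I t × Bool → ℂ)) (A : ∀ t : T', Module.End ℂ (Fin (n t) → ℂ)),
      ChActs B e P A ∧ (∀ t, P t * P t = P t) ∧
      (∀ t x y, chOm (I t) (P t x) y + chOm (I t) x (P t y) = chOm (I t) x y) ∧
      (∀ t, A t * A t = A t) ∧ ∀ t, finrank ℂ (LinearMap.range (A t)) = r t := by
  have hee : ∀ x, e (e x) = e x := fun x => by rw [← Module.End.mul_apply, hGe e he]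
  have hP : ∀ t, ∃ P : Module.End ℂ (I t × Bool → ℂ),
      (∀ s x, e (chJS B t s x) = chJS B t s (P x)) ∧ P * P = P ∧
      ∀ x y, chOm (I t) (P x) y + chOm (I t) x (P y) = chOm (I t) x y := by
    intro t
    rcases isEmpty_or_nonempty (S t) with h | h
    · exact ⟨chPs (I t), fun s => isEmptyElim s, chPs_idem _, chPs_om _⟩
    · obtain ⟨m, hm⟩ := hB.mul_sp e he t
      obtain ⟨s0⟩ := h
      have h1 : ∀ s x, e (chJS B t s x) =
          chJS B t s (Matrix.toLin' (Matrix.of m) x) := by
        intro s x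
        have h : e ∘ₗ chJS B t s = chJS B t s ∘ₗ Matrix.toLin' (Matrix.of m) := by
          refine LinearMap.pi_ext' fun q => LinearMap.ext_ring ?_
          simp only [LinearMap.comp_apply, LinearMap.coe_single]
          obtain ⟨i, ε⟩ := q
          rw [chJS_single, hm, Matrix.toLin'_apply, Matrix.mulVec_single_one, chJS_apply]
          rfl
        exact LinearMap.congr_fun h x
      refine ⟨Matrix.toLin' (Matrix.of m), h1,
        LinearMap.ext fun x => chJS_inj (B := B) t s0 ?_, fun x y => ?_⟩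
      · rw [Module.End.mul_apply, ← h1, ← h1, hee]
      · rw [← ch_psS hB t s0, ← ch_psS hB t s0, ← ch_psS hB t s0, ← h1, ← h1, hψ e he]
  have hA : ∀ t, ∃ A : Module.End ℂ (Fin (n t) → ℂ),
      (∀ s x, e (chJR B t s true x) = chJR B t s true (A x)) ∧
      (∀ s x, e (chJR B t s false x) = chJR B t s false (x - chTr A x)) ∧ A * A = A ∧
      finrank ℂ (LinearMap.range A) = r t := by
    intro t
    obtain ⟨a, ha1, ha2⟩ := hB.mul_gl e he t
    obtain ⟨s0⟩ := hB.nonempty t
    have h1 : ∀ s x, e (chJR B t s true x) =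
        chJR B t s true (Matrix.toLin' (Matrix.of a) x) := by
      intro s x
      have h : e ∘ₗ chJR B t s true = chJR B t s true ∘ₗ Matrix.toLin' (Matrix.of a) := by
        refine LinearMap.pi_ext' fun q => LinearMap.ext_ring ?_
        simp only [LinearMap.comp_apply, LinearMap.coe_single]
        rw [chJR_single, ha1, Matrix.toLin'_apply, Matrix.mulVec_single_one, chJR_apply]
        rfl
      exact LinearMap.congr_fun h x
    have h2 : ∀ s x, e (chJR B t s false x) =
        chJR B t s false (x - chTr (Matrix.toLin' (Matrix.of a)) x) := by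
      intro s x
      have h : e ∘ₗ chJR B t s false =
          chJR B t s false ∘ₗ (LinearMap.id - chTr (Matrix.toLin' (Matrix.of a))) := by
        refine LinearMap.pi_ext' fun q => LinearMap.ext_ring ?_
        simp only [LinearMap.comp_apply, LinearMap.coe_single, LinearMap.sub_apply,
          LinearMap.id_apply]
        rw [map_sub, chJR_single, ha2, chTr, LinearMap.toMatrix'_toLin', Matrix.toLin'_apply,
          Matrix.mulVec_single_one, chJR_apply]
        rfl
      exact LinearMap.congr_fun h x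
    refine ⟨Matrix.toLin' (Matrix.of a), h1, h2,
      LinearMap.ext fun x => chJR_inj (B := B) t s0 true ?_, ?_⟩
    · rw [Module.End.mul_apply, ← h1, ← h1, hee]
    · have h3 : copy B t s0 = LinearMap.range (chJR B t s0 true) := by
        rw [chJR, Fintype.range_linearCombination]
        rfl
      have h4 : (copy B t s0).map e =
          (LinearMap.range (Matrix.toLin' (Matrix.of a))).map (chJR B t s0 true) := by
        rw [h3, ← LinearMap.range_comp, ← LinearMap.range_comp]
        congr 1
        exact LinearMap.ext fun x => h1 s0 x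
      rw [← hr t s0, h4]
      exact (LinearEquiv.finrank_eq (Submodule.equivMapOfInjective _ (chJR_inj t s0 true) _))
  choose P hP1 hP2 hP3 using hP
  choose A hA1 hA2 hA3 hA4 using hA
  exact ⟨P, A, ⟨hP1, hA1, hA2⟩, hP2, hP3, hA3, hA4⟩

/-- The idempotents of `G` are connected with the standard ones. -/
theorem chain (hB : Blocks B ψ G) (hnd : ∀ x, (∀ y, ψ x y = 0) → x = 0)
    (hGe : ∀ e ∈ G, e * e = e) (hψ : ∀ e ∈ G, ∀ x y, ψ (e x) y + ψ x (e y) = ψ x y)
    (hss : Semisimple G) {e : Module.End ℂ H} (he : e ∈ G) (r : T' → ℕ)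
    (hr : ∀ t s, finrank ℂ ((copy B t s).map e) = r t) :
    ∃ p q : Module.End ℂ H, IsP ψ G e ∧ IsP ψ G p ∧ IsP ψ G q ∧ IsP ψ G (pstd B r) ∧
      (e * p = p ∧ p * e = e) ∧ (p * q = p ∧ q * p = q) ∧
      (q * pstd B r = pstd B r ∧ pstd B r * q = q) := by
  obtain ⟨P, A, hX, hP1, hP2, hA1, hA2⟩ := ch_form hB hGe hψ he r hr
  have hle : ∀ t, r t ≤ n t := by
    intro t
    rw [← hA2 t]
    refine (Submodule.finrank_le _).trans ?_
    rw [Module.finrank_fin_fun]
  have h1 : ∀ t, ∃ p q : Module.End ℂ (I t × Bool → ℂ), p * p = p ∧ q * q = q ∧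
      (∀ x y, chOm (I t) (p x) y + chOm (I t) x (p y) = chOm (I t) x y) ∧
      (∀ x y, chOm (I t) (q x) y + chOm (I t) x (q y) = chOm (I t) x y) ∧
      (P t * p = p ∧ p * P t = P t) ∧ (p * q = p ∧ q * p = q) ∧
      (q * chPs (I t) = chPs (I t) ∧ chPs (I t) * q = q) := fun t =>
    chain_sp (chOm_alt (I t)) (chOm_nd (I t)) (hP1 t) (chPs_idem _) (hP2 t) (chPs_om _)
  have h2 : ∀ t, ∃ p q : Module.End ℂ (Fin (n t) → ℂ), p * p = p ∧ q * q = q ∧
      (A t * p = p ∧ p * A t = A t) ∧ (p * q = p ∧ q * p = q) ∧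
      (q * chPl (n t) (r t) = chPl (n t) (r t) ∧ chPl (n t) (r t) * q = q) := fun t =>
    chain_gl (hA1 t) (chPl_idem _ _) (by rw [hA2, chPl_rank _ _ (hle t)])
  choose p1 q1 a1 a2 a3 a4 a5 a6 a7 using h1
  choose p2 q2 b1 b2 b5 b6 b7 using h2
  obtain ⟨p, hp⟩ := ch_exists B p1 p2
  obtain ⟨q, hq⟩ := ch_exists B q1 q2
  have hs := ch_pstd B r
  refine ⟨p, q, ch_isP hB hX hP1 hA1 hP2, ch_isP hB hp a1 b1 a3, ch_isP hB hq a2 b2 a4,
    ch_isP hB hs (fun t => chPs_idem _) (fun t => chPl_idem _ _) (fun t => chPs_om _),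
    ⟨ch_mulA hX hp (fun t => (a5 t).1) (fun t => (b5 t).1) (fun t => (b5 t).2),
      ch_mulA hp hX (fun t => (a5 t).2) (fun t => (b5 t).2) (fun t => (b5 t).1)⟩,
    ⟨ch_mulB hp hq (fun t => (a6 t).1) (fun t => (b6 t).1) (fun t => (b6 t).2),
      ch_mulB hq hp (fun t => (a6 t).2) (fun t => (b6 t).2) (fun t => (b6 t).1)⟩,
    ⟨ch_mulA hq hs (fun t => (a7 t).1) (fun t => (b7 t).1) (fun t => (b7 t).2),
      ch_mulA hs hq (fun t => (a7 t).2) (fun t => (b7 t).2) (fun t => (b7 t).1)⟩⟩

end Pool.Agent.GHCUni
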