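import Pool.Agent.GHCUni.Der

/-!
# Commutation relations, second part
-/

set_option autoImplicit false

universe u

namespace Pool.Agent.GHCUni

open Module Pool.Agent.GHCFull Pool.Agent.OddRank Pool.Agent.GHCMix Pool.Agent.TypeIV

variable {H : Type u} [AddCommGroup H] [Module ℂ H]
  {T T' : Type} [Fintype T] [DecidableEq T] [Fintype T'] [DecidableEq T']
  {I S : T → Type} [∀ t, Fintype (I t)] [∀ t, DecidableEq (I t)] [∀ t, Fintype (S t)]
  [∀ t, DecidableEq (S t)] {n : T' → ℕ} {R : T' → Type} [∀ t, Fintype (R t)]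
  [∀ t, DecidableEq (R t)] (B : Basis (LK I S n R) ℂ H)

theorem spS_glE (t : T') (i j : Fin (n t)) : spS B * glE B t i j = glE B t i j * spS B := by
  sorry

theorem spS_mdn (t : T) (i i' : I t) :
    spS B * mdn B t i i' - mdn B t i i' * spS B = (-2 : ℂ) • mdn B t i i' := by
  sorry

theorem glE_mdn (t : T') (i j : Fin (n t)) (t' : T) (l l' : I t') :
    glE B t i j * mdn B t' l l' = mdn B t' l l' * glE B t i j := by
  sorry

end Pool.Agent.GHCUni
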