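import Pool.Agent.GHCUni.Inv
import Pool.Agent.GHCUni.Rel
import Pool.Agent.GHCUni.Derived

/-!
# The operators of the symplectic blocks belong to the derived algebra
-/

set_option autoImplicit false

universe u

namespace Pool.Agent.GHCUni

open Module Pool.Agent.GHCFull Pool.Agent.OddRank Pool.Agent.GHCMix Pool.Agent.TypeIV

variable {H : Type u} [AddCommGroup H] [Module ℂ H] [FiniteDimensional ℂ H]
  {T T' : Type} [Fintype T] [DecidableEq T] [Fintype T'] [DecidableEq T']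
  {I S : T → Type} [∀ t, Fintype (I t)] [∀ t, DecidableEq (I t)] [∀ t, Fintype (S t)]
  [∀ t, DecidableEq (S t)] {n : T' → ℕ} {R : T' → Type} [∀ t, Fintype (R t)]
  [∀ t, DecidableEq (R t)] {B : Basis (LK I S n R) ℂ H}
  {ψ : H →ₗ[ℂ] H →ₗ[ℂ] ℂ} {G : Set (Module.End ℂ H)}

theorem mdn_mem (hB : Blocks B ψ G) (hnd : ∀ x, (∀ y, ψ x y = 0) → x = 0)
    (hGe : ∀ e ∈ G, e * e = e) (hψ : ∀ e ∈ G, ∀ x y, ψ (e x) y + ψ x (e y) = ψ x y)
    (hss : Semisimple G)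
    (hkind : ∀ W, Irreducible G W → finrank ℂ W = 1 ∨ MX.KSp G W ∨ MX.KSl G W)
    (t : T) (i i' : I t) : mdn B t i i' ∈ derivedSpan G := by
  sorry

theorem spS_mem (hB : Blocks B ψ G) (hnd : ∀ x, (∀ y, ψ x y = 0) → x = 0)
    (hGe : ∀ e ∈ G, e * e = e) (hψ : ∀ e ∈ G, ∀ x y, ψ (e x) y + ψ x (e y) = ψ x y)
    (hss : Semisimple G)
    (hkind : ∀ W, Irreducible G W → finrank ℂ W = 1 ∨ MX.KSp G W ∨ MX.KSl G W) :
    spS B ∈ derivedSpan G := by
  sorry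

end Pool.Agent.GHCUni
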