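import Mathlib

/-!
# Chains of idempotents
-/

set_option autoImplicit false

namespace Pool.Agent.GHCUni

open Module

/-- Two subspaces of the same dimension have a common complement. -/
theorem exists_compl {V : Type*} [AddCommGroup V] [Module ℂ V] [FiniteDimensional ℂ V]
    (U U' : Submodule ℂ V) (h : finrank ℂ U = finrank ℂ U') :
    ∃ C : Submodule ℂ V, IsCompl U C ∧ IsCompl U' C := by
  sorry

/-- Idempotents of the same rank. -/
theorem chain_gl {V : Type*} [AddCommGroup V] [Module ℂ V] [FiniteDimensional ℂ V]
    {a b : Module.End ℂ V} (ha : a * a = a) (hb : b * b = b)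
    (h : finrank ℂ (LinearMap.range a) = finrank ℂ (LinearMap.range b)) :
    ∃ p q : Module.End ℂ V, p * p = p ∧ q * q = q ∧ (a * p = p ∧ p * a = a) ∧
      (p * q = p ∧ q * p = q) ∧ (q * b = b ∧ b * q = q) := by
  sorry

end Pool.Agent.GHCUni
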