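import Pool.Agent.GHCUni.Defs

/-!
# The number of copies
-/

set_option autoImplicit false

universe u

namespace Pool.Agent.GHCUni

open Module Pool.Agent.GHCFull Pool.Agent.OddRank Pool.Agent.GHCMix Pool.Agent.TypeIV

variable {H : Type u} [AddCommGroup H] [Module ℂ H] [FiniteDimensional ℂ H]
  {T T' : Type} [Fintype T] [DecidableEq T] [Fintype T'] [DecidableEq T']
  {I S : T → Type} [∀ t, Fintype (I t)] [∀ t, DecidableEq (I t)] [∀ t, Fintype (S t)]
  [∀ t, DecidableEq (S t)] {n : T' → ℕ} {R : T' → Type} [∀ t, Fintype (R t)]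
  [∀ t, DecidableEq (R t)] {B : Basis (LK I S n R) ℂ H}
  {ψ : H →ₗ[ℂ] H →ₗ[ℂ] ℂ} {G : Set (Module.End ℂ H)}

theorem card_le_mult (hB : Blocks B ψ G) (t : T') (s : R t) :
    Fintype.card (R t) ≤ mult G (copy B t s) := by
  sorry

end Pool.Agent.GHCUni
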