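import Pool.Agent.GHCUni.Defs

/-!
# Nilpotent derivations
-/

set_option autoImplicit false

universe u

namespace Pool.Agent.GHCUni

open Module Pool.Agent.GHCFull Pool.Agent.OddRank Pool.Agent.GHCMix Pool.Agent.TypeIV

variable {H : Type u} [AddCommGroup H] [Module ℂ H]

/-- The derivation of an endomorphism of square zero is nilpotent. -/
theorem der_nilpotent {N : Module.End ℂ H} (hN : N * N = 0) (k : ℕ) :
    IsNilpotent (der N k : Module.End ℂ (AForm H k)) := by
  sorry

end Pool.Agent.GHCUni
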