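import Pool.Agent.GHCUni.DerA
import Pool.Agent.GHCUni.DerB

/-!
# Derivations of alternating forms
-/

set_option autoImplicit false

universe u

namespace Pool.Agent.GHCUni

open Module Pool.Agent.GHCFull Pool.Agent.OddRank Pool.Agent.GHCMix Pool.Agent.TypeIV

variable {H : Type u} [AddCommGroup H] [Module ℂ H]

theorem der_zero' (k : ℕ) (ω : AForm H k) : der (0 : Module.End ℂ H) k ω = 0 := by
  have h := der_smul (0 : ℂ) (0 : H →ₗ[ℂ] H) k ω
  rw [zero_smul, zero_smul] at h
  exact h

theorem der_sub' (D E : Module.End ℂ H) (k : ℕ) (ω : AForm H k) :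
    der (D - E) k ω = der D k ω - der E k ω := by
  rw [sub_eq_add_neg, ← neg_one_smul ℂ E, der_add, der_smul, neg_one_smul, sub_eq_add_neg]

theorem der_sumU {κ : Type*} (s : Finset κ) (D : κ → Module.End ℂ H) (k : ℕ)
    (ω : AForm H k) : der (∑ i ∈ s, D i) k ω = ∑ i ∈ s, der (D i) k ω := by
  classical
  induction s using Finset.induction_on with
  | empty => rw [Finset.sum_empty, Finset.sum_empty, der_zero']
  | insert a s ha ih => rw [Finset.sum_insert ha, Finset.sum_insert ha, der_add, ih]

end Pool.Agent.GHCUni
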