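import Pool.Agent.GHCUni.Mono
import Pool.Agent.GHCUni.Der

/-!
# The numbers of letters of a monomial
-/

set_option autoImplicit false

universe u

namespace Pool.Agent.GHCUni

open Module Pool.Agent.GHCFull Pool.Agent.OddRank Pool.Agent.GHCMix Pool.Agent.TypeIV

variable {H : Type u} [AddCommGroup H] [Module ℂ H]
  {T T' : Type} [Fintype T] [DecidableEq T] [Fintype T'] [DecidableEq T']
  {I S : T → Type} [∀ t, Fintype (I t)] [∀ t, DecidableEq (I t)] [∀ t, Fintype (S t)]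
  [∀ t, DecidableEq (S t)] {n : T' → ℕ} {R : T' → Type} [∀ t, Fintype (R t)]
  [∀ t, DecidableEq (R t)] (B : Basis (LK I S n R) ℂ H)

theorem exists_counts {k : ℕ} (w : AForm H k) (hw : w ≠ 0)
    (hsp : ∀ t i s, der (el B (.inl ⟨t, i, s, false⟩) (.inl ⟨t, i, s, false⟩)) k w = 0)
    (hgl : ∀ (t : T') (j : Fin (n t)) (s s' : R t),
      der (el B (.inr ⟨t, j, s, true⟩) (.inr ⟨t, j, s, true⟩)) k
        (der (el B (.inr ⟨t, j, s', false⟩) (.inr ⟨t, j, s', false⟩)) k w) = 0)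
    (κ : ∀ t, Fin (n t) → ℂ) (hκ : ∀ t j, der (glE B t j j) k w = κ t j • w) :
    ∃ (q : ℕ) (μ : ∀ t, Fin (n t) → ℤ), (∀ t j, κ t j = (μ t j : ℂ)) ∧
      (∀ t j, |μ t j| ≤ Fintype.card (R t)) ∧ (q : ℤ) + ∑ t, ∑ j, |μ t j| = k ∧
      (∀ c : ℂ, der (spS B) k w = c • w → c = q) ∧ (Nonempty (Idx I S) ∨ q = 0) := by
  sorry

end Pool.Agent.GHCUni
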