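import Pool.Agent.GHCMix.Defs
import Pool.Agent.TypeIV.CommMixed

/-!
# Definitions for the case of blocks of both kinds

The index type is `Idx I S ⊕ Idx (fun t => Fin (n t)) R`: the letters `inl ⟨t, i, s, ε⟩` belong to
the symplectic blocks, the letters `inr ⟨t, j, s, true⟩` to the blocks which are not self-dual, and
`inr ⟨t, j, s, false⟩` to their duals.
-/

set_option autoImplicit false

universe u

namespace Pool.Agent.GHCUni

open Module Pool.Agent.GHCFull Pool.Agent.OddRank Pool.Agent.GHCMix Pool.Agent.TypeIV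

section Reps

variable {H : Type u} [AddCommGroup H] [Module ℂ H]

/-- `W` and `W'` are dual (up to the multiplier). -/
def Dual (G : Set (Module.End ℂ H)) (W W' : Submodule ℂ H) : Prop :=
  ∃ φ : H →ₗ[ℂ] H →ₗ[ℂ] ℂ, (∀ x ∈ W, (∀ y ∈ W', φ x y = 0) → x = 0) ∧
    ∀ e ∈ G, ∀ x ∈ W, ∀ y ∈ W', φ (e x) y + φ x (e y) = φ x y

/-- The equivariant maps from `W` to `H`. -/
def homs (G : Set (Module.End ℂ H)) (W : Submodule ℂ H) : Submodule ℂ (W →ₗ[ℂ] H) where
  carrier := {f | ∀ e ∈ G, ∀ u v : W, (v : H) = e u → f v = e (f u)}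
  add_mem' := fun {f g} hf hg e he u v huv => by
    rw [LinearMap.add_apply, LinearMap.add_apply, hf e he u v huv, hg e he u v huv, map_add]
  zero_mem' := fun e _ u v _ => by simp
  smul_mem' := fun a f hf e he u v huv => by
    rw [LinearMap.smul_apply, LinearMap.smul_apply, hf e he u v huv, map_smul]

/-- The multiplicity of `W` in `H`. -/
noncomputable def mult (G : Set (Module.End ℂ H)) (W : Submodule ℂ H) : ℕ := finrank ℂ (homs G W)

/-- The highest eigenvalue of `2 e - 1` for the weight `κ`, if `e` has rank `r`. -/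
def hval {n : ℕ} (r : ℕ) (κ : Fin n → ℤ) : ℤ := ∑ j : Fin n, if (j : ℕ) < r then κ j else -κ j

/-- The condition on the levels. -/
def LevelCond (G : Set (Module.End ℂ H)) (k j : ℕ) : Prop :=
  ∀ (m : ℕ) (W : Fin m → Submodule ℂ H) (n : Fin m → ℕ) (κ : ∀ t, Fin (n t) → ℤ),
    (∀ t, Irreducible G (W t) ∧ finrank ℂ (W t) = n t) →
    (∀ t t', ¬ Dual G (W t) (W t')) → (∀ t t', t ≠ t' → ¬ Iso G (W t) (W t')) →
    (∀ t, Antitone (κ t)) → (∀ t i, |κ t i| ≤ mult G (W t)) →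
    ∑ t, ∑ i, |κ t i| ≤ (k : ℤ) →
    (Even ((k : ℤ) - ∑ t, ∑ i, |κ t i|) ∨ ∃ U, Irreducible G U ∧ Dual G U U) →
    (∀ e ∈ G, ∑ t, hval (finrank ℂ ((W t).map e)) (κ t) ≤ (k : ℤ) - 2 * j) →
    ∃ e ∈ G, ∑ t, hval (finrank ℂ ((W t).map e)) (κ t) = ∑ t, ∑ i, |κ t i|

end Reps

section Letters

variable {T T' : Type} {I S : T → Type} {n : T' → ℕ} {R : T' → Type}

/-- The letters. -/
abbrev LK (I S : T → Type) (n : T' → ℕ) (R : T' → Type) : Type :=
  Idx I S ⊕ Idx (fun t => Fin (n t)) R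

/-- The dual letter. -/
def bar : LK I S n R → LK I S n R
  | .inl ⟨t, i, s, ε⟩ => .inl ⟨t, i, s, !ε⟩
  | .inr ⟨t, i, s, ε⟩ => .inr ⟨t, i, s, !ε⟩

/-- The sign of a letter. -/
def sg : LK I S n R → ℂ
  | .inl ⟨_, _, _, true⟩ => 1
  | .inl ⟨_, _, _, false⟩ => -1
  | .inr ⟨_, _, _, true⟩ => 1
  | .inr ⟨_, _, _, false⟩ => -1

end Letters

section Forms

variable {H : Type u} [AddCommGroup H] [Module ℂ H]

/-- The endomorphism which maps `B α` to `B β` and the other basis vectors to zero. -/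
noncomputable def el {K : Type*} (B : Basis K ℂ H) (α β : K) : Module.End ℂ H :=
  (B.coord α).smulRight (B β)

variable {T T' : Type} [Fintype T] [DecidableEq T] [Fintype T'] [DecidableEq T']
  {I S : T → Type} [∀ t, Fintype (I t)] [∀ t, DecidableEq (I t)] [∀ t, Fintype (S t)]
  [∀ t, DecidableEq (S t)] {n : T' → ℕ} {R : T' → Type} [∀ t, Fintype (R t)]
  [∀ t, DecidableEq (R t)] (B : Basis (LK I S n R) ℂ H)

/-- The operators `x_i ↦ x_j`, `y_j ↦ -y_i` of a block which is not self-dual. -/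
noncomputable def glE (t : T') (i j : Fin (n t)) : Module.End ℂ H :=
  ∑ s : R t, (el B (.inr ⟨t, i, s, true⟩) (.inr ⟨t, j, s, true⟩) -
    el B (.inr ⟨t, j, s, false⟩) (.inr ⟨t, i, s, false⟩))

/-- The diagonal operators of a symplectic block. -/
noncomputable def spH (t : T) (i : I t) : Module.End ℂ H :=
  ∑ s : S t, (el B (.inl ⟨t, i, s, true⟩) (.inl ⟨t, i, s, true⟩) -
    el B (.inl ⟨t, i, s, false⟩) (.inl ⟨t, i, s, false⟩))

/-- The sum of the diagonal operators of the symplectic blocks. -/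
noncomputable def spS : Module.End ℂ H := ∑ t : T, ∑ i : I t, spH B t i

/-- The scalars of a block which is not self-dual. -/
noncomputable def glC (t : T') : Module.End ℂ H := ∑ j : Fin (n t), glE B t j j

/-- The contractions for the symplectic blocks. -/
noncomputable def spLam (t : T) (s s' : S t) (k : ℕ) : AForm H (k + 2) →ₗ[ℂ] AForm H k :=
  ∑ i : I t, (ct (B (.inl ⟨t, i, s', false⟩)) k ∘ₗ ct (B (.inl ⟨t, i, s, true⟩)) (k + 1) +
    ct (B (.inl ⟨t, i, s, false⟩)) k ∘ₗ ct (B (.inl ⟨t, i, s', true⟩)) (k + 1))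

/-- The contractions for the other blocks. -/
noncomputable def glLam (t : T') (s s' : R t) (k : ℕ) : AForm H (k + 2) →ₗ[ℂ] AForm H k :=
  ∑ j : Fin (n t), ct (B (.inr ⟨t, j, s', false⟩)) k ∘ₗ ct (B (.inr ⟨t, j, s, true⟩)) (k + 1)

/-- The products for the other blocks. -/
noncomputable def glL (t : T') (s s' : R t) (k : ℕ) : AForm H k →ₗ[ℂ] AForm H (k + 2) :=
  ∑ j : Fin (n t), wd (B.coord (.inr ⟨t, j, s, true⟩)) (k + 1) ∘ₗ
    wd (B.coord (.inr ⟨t, j, s', false⟩)) k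

/-- The invariant two forms of the other blocks. -/
noncomputable def glth (t : T') (s s' : R t) : H →ₗ[ℂ] H →ₗ[ℂ] ℂ :=
  ∑ j : Fin (n t), ((B.coord (.inr ⟨t, j, s, true⟩)).smulRight (B.coord (.inr ⟨t, j, s', false⟩)) -
    (B.coord (.inr ⟨t, j, s', false⟩)).smulRight (B.coord (.inr ⟨t, j, s, true⟩)))

/-- The sum of the products of the creation and annihilation operators. -/
noncomputable def TT (k : ℕ) : Module.End ℂ (AForm H (k + 2)) :=
  (∑ t : T, ∑ s : S t, ∑ s' : S t, mLw B t s s' k ∘ₗ spLam B t s s' k) +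
    ∑ t : T', ∑ s : R t, ∑ s' : R t, glL B t s s' k ∘ₗ glLam B t s s' k

/-- The harmonic forms. -/
noncomputable def Harm : (k : ℕ) → Submodule ℂ (AForm H k)
  | 0 => ⊤
  | 1 => ⊤
  | k + 2 => (⨅ t : T, ⨅ s : S t, ⨅ s' : S t, LinearMap.ker (spLam B t s s' k)) ⊓
    ⨅ t : T', ⨅ s : R t, ⨅ s' : R t, LinearMap.ker (glLam B t s s' k)

/-- A copy of an irreducible space which is not self-dual. -/
def copy (t : T') (s : R t) : Submodule ℂ H :=
  Submodule.span ℂ (Set.range fun j : Fin (n t) => B (.inr ⟨t, j, s, true⟩))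

/-- The standard idempotent with the ranks `r t`. -/
noncomputable def pstd (r : T' → ℕ) : Module.End ℂ H :=
  (∑ t : T, ∑ i : I t, ∑ s : S t, el B (.inl ⟨t, i, s, true⟩) (.inl ⟨t, i, s, true⟩)) +
    ∑ t : T', ∑ j : Fin (n t), ∑ s : R t, if (j : ℕ) < r t then
      el B (.inr ⟨t, j, s, true⟩) (.inr ⟨t, j, s, true⟩) else
      el B (.inr ⟨t, j, s, false⟩) (.inr ⟨t, j, s, false⟩)

/-- The properties of the basis. -/
structure Blocks (ψ : H →ₗ[ℂ] H →ₗ[ℂ] ℂ) (G : Set (Module.End ℂ H)) : Prop where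
  ψ_eq : ∀ α β, ψ (B α) (B β) = if β = bar α then sg α else 0
  mul_sp : ∀ g ∈ G, ∀ t, ∃ m : I t × Bool → I t × Bool → ℂ, ∀ i s ε,
    g (B (.inl ⟨t, i, s, ε⟩)) = ∑ q : I t × Bool, m q (i, ε) • B (.inl ⟨t, q.1, s, q.2⟩)
  mul_gl : ∀ g ∈ G, ∀ t, ∃ a : Fin (n t) → Fin (n t) → ℂ, (∀ j s,
    g (B (.inr ⟨t, j, s, true⟩)) = ∑ i, a i j • B (.inr ⟨t, i, s, true⟩)) ∧ ∀ j s,
    g (B (.inr ⟨t, j, s, false⟩)) = B (.inr ⟨t, j, s, false⟩) -
      ∑ i, a j i • B (.inr ⟨t, i, s, false⟩)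
  comm_sp : ∀ z : Module.End ℂ H, (∀ g ∈ G, g * z = z * g) → ∀ t, ∃ ζ : S t → S t → ℂ, ∀ i s ε,
    z (B (.inl ⟨t, i, s, ε⟩)) = ∑ s' : S t, ζ s' s • B (.inl ⟨t, i, s', ε⟩)
  comm_gl : ∀ z : Module.End ℂ H, (∀ g ∈ G, g * z = z * g) → ∀ t ε, ∃ ζ : R t → R t → ℂ, ∀ j s,
    z (B (.inr ⟨t, j, s, ε⟩)) = ∑ s' : R t, ζ s' s • B (.inr ⟨t, j, s', ε⟩)
  irr : ∀ t s, Irreducible G (copy B t s)
  ndual : ∀ t s t' s', ¬ Dual G (copy B t s) (copy B t' s')
  niso : ∀ t s t' s', t ≠ t' → ¬ Iso G (copy B t s) (copy B t' s')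
  nonempty : ∀ t, Nonempty (R t)
  selfdual : Nonempty (Idx I S) → ∃ U, Irreducible G U ∧ Dual G U U

end Forms

section Moves

variable {H : Type u} [AddCommGroup H] [Module ℂ H]

/-- All eigenvalues of `D` on `M` are at most `ℓ`. -/
def UB {V : Type*} [AddCommGroup V] [Module ℂ V] (M : Submodule ℂ V) (D : Module.End ℂ V)
    (ℓ : ℤ) : Prop :=
  ∀ w ∈ M, w ≠ 0 → ∀ c : ℤ, D w = (c : ℂ) • w → c ≤ ℓ

/-- The idempotents with multiplier one in the double commutant. -/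
def IsP (ψ : H →ₗ[ℂ] H →ₗ[ℂ] ℂ) (G : Set (Module.End ℂ H)) (p : Module.End ℂ H) : Prop :=
  p * p = p ∧ (∀ z : Module.End ℂ H, (∀ g ∈ G, g * z = z * g) → p * z = z * p) ∧
    ∀ x y, ψ (p x) y + ψ x (p y) = ψ x y

end Moves

end Pool.Agent.GHCUni
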