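import Pool.Agent.GHCUni.Defs

/-!
# Rules for derivations, products and contractions
-/

set_option autoImplicit false

universe u

namespace Pool.Agent.GHCUni

open Module Pool.Agent.GHCFull Pool.Agent.OddRank Pool.Agent.GHCMix Pool.Agent.TypeIV

variable {H : Type u} [AddCommGroup H] [Module ℂ H]

theorem der_el {K : Type*} [Fintype K] [DecidableEq K] (B : Basis K ℂ H) (α β : K) (k : ℕ)
    (ω : AForm H (k + 1)) : der (el B α β) (k + 1) ω = wd (B.coord α) k (ct (B β) k ω) := by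
  sorry

theorem der_wd (D : Module.End ℂ H) (ξ : H →ₗ[ℂ] ℂ) (k : ℕ) (ω : AForm H k) :
    der D (k + 1) (wd ξ k ω) = wd (ξ ∘ₗ D) k ω + wd ξ k (der D k ω) := by
  sorry

theorem der_ct (D : Module.End ℂ H) (u : H) (k : ℕ) (ω : AForm H (k + 1)) :
    der D k (ct u k ω) = ct u k (der D (k + 1) ω) - ct (D u) k ω := by
  sorry

theorem wd_add' (ξ ζ : H →ₗ[ℂ] ℂ) (k : ℕ) (ω : AForm H k) :
    wd (ξ + ζ) k ω = wd ξ k ω + wd ζ k ω := by
  sorry

theorem wd_smul' (a : ℂ) (ξ : H →ₗ[ℂ] ℂ) (k : ℕ) (ω : AForm H k) :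
    wd (a • ξ) k ω = a • wd ξ k ω := by
  sorry

theorem wd_wd (ξ ζ : H →ₗ[ℂ] ℂ) (k : ℕ) (ω : AForm H k) :
    wd ξ (k + 1) (wd ζ k ω) = -wd ζ (k + 1) (wd ξ k ω) := by
  sorry

end Pool.Agent.GHCUni
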