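import Pool.Agent.GHCUni.Defs

/-!
# Dual irreducible subspaces
-/

set_option autoImplicit false

universe u

namespace Pool.Agent.GHCUni

open Module Pool.Agent.GHCFull Pool.Agent.OddRank Pool.Agent.GHCMix Pool.Agent.TypeIV

variable {H : Type u} [AddCommGroup H] [Module ℂ H] [FiniteDimensional ℂ H]
  {G : Set (Module.End ℂ H)} {W W' U : Submodule ℂ H}

theorem dual_symm (hW : Irreducible G W) (hW' : Irreducible G W') (h : Dual G W W') :
    Dual G W' W := by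
  sorry

theorem dual_of_ne {ψ : H →ₗ[ℂ] H →ₗ[ℂ] ℂ}
    (hψ : ∀ e ∈ G, ∀ x y, ψ (e x) y + ψ x (e y) = ψ x y) (hW : Irreducible G W)
    (hW' : Irreducible G W') {x y : H} (hx : x ∈ W) (hy : y ∈ W') (h : ψ x y ≠ 0) :
    Dual G W W' := by
  sorry

theorem exists_dual {ψ : H →ₗ[ℂ] H →ₗ[ℂ] ℂ} (hnd : ∀ x, (∀ y, ψ x y = 0) → x = 0)
    (hss : Semisimple G) (hW : Irreducible G W) :
    ∃ U, Irreducible G U ∧ ∃ x ∈ W, ∃ y ∈ U, ψ x y ≠ 0 := by
  sorry

end Pool.Agent.GHCUni
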