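import Pool.Agent.GHCUni.DualA

/-!
# Dual and isomorphic irreducible subspaces
-/

set_option autoImplicit false

universe u

namespace Pool.Agent.GHCUni

open Module Pool.Agent.GHCFull Pool.Agent.OddRank Pool.Agent.GHCMix Pool.Agent.TypeIV

variable {H : Type u} [AddCommGroup H] [Module ℂ H] [FiniteDimensional ℂ H]
  {G : Set (Module.End ℂ H)} {W W' U : Submodule ℂ H}

/-- The image of an irreducible subspace under an equivariant map. -/
theorem irr_map' (hW : Irreducible G W) {z : Module.End ℂ H} (hz : ∀ g ∈ G, g * z = z * g)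
    {w : H} (hw : w ∈ W) (h : z w ≠ 0) : Irreducible G (W.map z) ∧ Iso G W (W.map z) := by
  sorry

theorem iso_of_map (hW : Irreducible G W) (hU : Irreducible G U) {z : Module.End ℂ H}
    (hz : ∀ g ∈ G, g * z = z * g) (hzU : ∀ w ∈ W, z w ∈ U) {w : H} (hw : w ∈ W)
    (h : z w ≠ 0) : Iso G W U := by
  sorry

theorem dual_iso (hss : Semisimple G) (hW' : Irreducible G W')
    (hU : Irreducible G U) (h : Dual G W W') (hi : Iso G W' U) : Dual G W U := by
  sorry

theorem iso_of_dual (hW : Irreducible G W) (hW' : Irreducible G W') (hU : Irreducible G U)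
    (h : Dual G W U) (h' : Dual G W' U) : Iso G W W' := by
  sorry

end Pool.Agent.GHCUni
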