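import Pool.Agent.GHCUni.Defs

/-!
# The lemma of Schur
-/

set_option autoImplicit false

universe u

namespace Pool.Agent.GHCUni

open Module Pool.Agent.GHCFull Pool.Agent.OddRank Pool.Agent.GHCMix Pool.Agent.TypeIV

variable {H : Type u} [AddCommGroup H] [Module ℂ H] [FiniteDimensional ℂ H]
  {G : Set (Module.End ℂ H)} {W W' U : Submodule ℂ H}

/-- Equivariant maps of irreducible spaces are multiples of an equivariant bijection. -/
theorem schur_scalar {U U' : Submodule ℂ H} (hU : Irreducible G U) (hU' : Irreducible G U')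
    {φ τ : U →ₗ[ℂ] U'} (hφ : Equiv G φ) (hτ : Equiv G τ) (hb : Function.Bijective τ) :
    ∃ c : ℂ, ∀ u, φ u = c • τ u := by
  sorry

end Pool.Agent.GHCUni
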