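import Pool.Agent.GHCFull.NormId

/-!
# The positivity argument for the blocks which are not self-dual
-/

set_option autoImplicit false

namespace Pool.Agent.GHCUni

open Pool.Agent.GHCFull
open scoped InnerProductSpace

variable {F : ℕ → Type*} [∀ k, NormedAddCommGroup (F k)] [∀ k, InnerProductSpace ℂ (F k)]
  {K : Type*} [DecidableEq K] (Φ : Fock F K)

/-- With `P i p = ∑ c (x i s) d (x p s)`, `Q i p = ∑ c (y p s) d (y i s)` and
`C s t = ∑_{p ∉ Y} d (y p t) d (x p s)` one has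
`‖P i p w‖² = ⟪P i p w, Q i p w⟫`, and the sum over `i ∈ Y`, `p ∉ Y` is `-∑ ‖C s t w‖²`, if
`P i p w = Q i p w` and `w` is harmonic. -/
theorem key_cut {J S : Type*} [Fintype J] [Fintype S] [DecidableEq J] [DecidableEq S]
    {x y : J → S → K} (hx : ∀ i s j t, x i s = x j t → i = j ∧ s = t)
    (hy : ∀ i s j t, y i s = y j t → i = j ∧ s = t) (hxy : ∀ i s j t, x i s ≠ y j t)
    (Y : Finset J) (k : ℕ) (w : F (k + 2))
    (hX : ∀ i ∈ Y, ∀ p ∉ Y, ∑ s, (Φ.c (x i s) (k + 1) (Φ.d (x p s) (k + 1) w) -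
      Φ.c (y p s) (k + 1) (Φ.d (y i s) (k + 1) w)) = 0)
    (hH : ∀ s t, ∑ j, Φ.d (y j t) k (Φ.d (x j s) (k + 1) w) = 0) (s t : S) :
    ∑ p ∈ Yᶜ, Φ.d (y p t) k (Φ.d (x p s) (k + 1) w) = 0 := by
  sorry

/-- The same for all cuts of `Fin n`. -/
theorem key_all {n : ℕ} {S : Type*} [Fintype S] [DecidableEq S] {x y : Fin n → S → K}
    (hx : ∀ i s j t, x i s = x j t → i = j ∧ s = t)
    (hy : ∀ i s j t, y i s = y j t → i = j ∧ s = t) (hxy : ∀ i s j t, x i s ≠ y j t)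
    (k : ℕ) (w : F (k + 2))
    (hX : ∀ i p, i < p → ∑ s, (Φ.c (x i s) (k + 1) (Φ.d (x p s) (k + 1) w) -
      Φ.c (y p s) (k + 1) (Φ.d (y i s) (k + 1) w)) = 0)
    (hH : ∀ s t, ∑ j, Φ.d (y j t) k (Φ.d (x j s) (k + 1) w) = 0) (j : Fin n) (s t : S) :
    Φ.d (y j t) k (Φ.d (x j s) (k + 1) w) = 0 := by
  sorry

end Pool.Agent.GHCUni
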