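import Pool.Agent.GHCUni.Der
import Pool.Agent.GHCUni.NormU

/-!
# Harmonic forms killed by the raising operators of the other blocks
-/

set_option autoImplicit false

universe u

namespace Pool.Agent.GHCUni

open Module Pool.Agent.GHCFull Pool.Agent.OddRank Pool.Agent.GHCMix Pool.Agent.TypeIV

variable {H : Type u} [AddCommGroup H] [Module ℂ H]
  {T T' : Type} [Fintype T] [DecidableEq T] [Fintype T'] [DecidableEq T']
  {I S : T → Type} [∀ t, Fintype (I t)] [∀ t, DecidableEq (I t)] [∀ t, Fintype (S t)]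
  [∀ t, DecidableEq (S t)] {n : T' → ℕ} {R : T' → Type} [∀ t, Fintype (R t)]
  [∀ t, DecidableEq (R t)] (B : Basis (LK I S n R) ℂ H)

theorem harm_gl {k : ℕ} {w : AForm H k} (hw : w ∈ Harm B k) (t : T')
    (hX : ∀ i j, i < j → der (glE B t i j) k w = 0) (j : Fin (n t)) (s s' : R t) :
    der (el B (.inr ⟨t, j, s, true⟩) (.inr ⟨t, j, s, true⟩)) k
      (der (el B (.inr ⟨t, j, s', false⟩) (.inr ⟨t, j, s', false⟩)) k w) = 0 := by
  sorry

end Pool.Agent.GHCUni
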