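import Mathlib

/-!
# Joint eigenvectors killed by raising operators
-/

set_option autoImplicit false

namespace Pool.Agent.GHCUni

open Module

private theorem joint_aux {V : Type*} [AddCommGroup V] [Module ℂ V] [FiniteDimensional ℂ V]
    {ι : Type*} (h : ι → Module.End ℂ V) (hhh : ∀ i j, h i * h j = h j * h i) (s : Finset ι) :
    ∀ (M : Submodule ℂ V), M ≠ ⊥ → (∀ i ∈ s, ∀ w ∈ M, h i w ∈ M) →
      ∃ w ∈ M, w ≠ 0 ∧ ∀ i ∈ s, ∃ c : ℂ, h i w = c • w := by
  classical
  induction s using Finset.induction_on with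
  | empty =>
    intro M hM _
    obtain ⟨w, hw, hw0⟩ := (Submodule.ne_bot_iff M).1 hM
    exact ⟨w, hw, hw0, fun i hi => absurd hi (Finset.notMem_empty i)⟩
  | insert a s ha ih =>
    intro M hM hst
    have hst_a : ∀ w ∈ M, h a w ∈ M := hst a (Finset.mem_insert_self a s)
    have : Nontrivial M := Submodule.nontrivial_iff_ne_bot.2 hM
    obtain ⟨c, hc⟩ := Module.End.exists_eigenvalue ((h a).restrict hst_a)
    obtain ⟨v, hv⟩ := hc.exists_hasEigenvector
    have hv1 : h a (v : V) = c • (v : V) := by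
      have := hv.apply_eq_smul
      have h2 := congrArg (fun x : M => (x : V)) this
      simpa using h2
    have hv0 : (v : V) ≠ 0 := fun h0 => hv.2 (Subtype.ext h0)
    -- the eigenspace inside `M`
    let M' : Submodule ℂ V := M ⊓ (Module.End.eigenspace (h a) c)
    have hvM' : (v : V) ∈ M' := ⟨v.2, Module.End.mem_eigenspace_iff.2 hv1⟩
    have hM' : M' ≠ ⊥ := (Submodule.ne_bot_iff _).2 ⟨v, hvM', hv0⟩
    have hst' : ∀ i ∈ s, ∀ w ∈ M', h i w ∈ M' := by
      intro i hi w hw
      refine ⟨hst i (Finset.mem_insert_of_mem hi) w hw.1, ?_⟩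
      have hw2 : h a w = c • w := Module.End.mem_eigenspace_iff.1 hw.2
      refine Module.End.mem_eigenspace_iff.2 ?_
      have : h a (h i w) = (h a * h i) w := rfl
      rw [this, hhh a i]
      change h i (h a w) = _
      rw [hw2, map_smul]
    obtain ⟨w, hw, hw0, hws⟩ := ih M' hM' hst'
    refine ⟨w, hw.1, hw0, fun i hi => ?_⟩
    rcases Finset.mem_insert.1 hi with rfl | hi
    · exact ⟨c, Module.End.mem_eigenspace_iff.1 hw.2⟩
    · exact hws i hi

theorem exists_joint {V : Type*} [AddCommGroup V] [Module ℂ V] [FiniteDimensional ℂ V]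
    (M : Submodule ℂ V) (hM : M ≠ ⊥) (D : Module.End ℂ V) (hD : ∀ w ∈ M, D w ∈ M)
    {ι κ : Type*} [Finite ι] (h : ι → Module.End ℂ V) (hh : ∀ i, ∀ w ∈ M, h i w ∈ M)
    (hDh : ∀ i, D * h i = h i * D) (hhh : ∀ i j, h i * h j = h j * h i)
    (X : κ → Module.End ℂ V) (hX : ∀ i, ∀ w ∈ M, X i w ∈ M) (a : κ → ℝ) (ha : ∀ i, 0 < a i)
    (hDX : ∀ i, D * X i - X i * D = ((a i : ℝ) : ℂ) • X i) :
    ∃ w ∈ M, w ≠ 0 ∧ (∀ i, X i w = 0) ∧ ∀ i, ∃ c : ℂ, h i w = c • w := by
  classical
  have : Nontrivial M := Submodule.nontrivial_iff_ne_bot.2 hM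
  have := Fintype.ofFinite ι
  set DM : Module.End ℂ M := D.restrict hD with hDM
  -- the eigenvalue with maximal real part
  have hfin : (Set.Finite {c : ℂ | DM.HasEigenvalue c}) := Module.End.finite_hasEigenvalue DM
  obtain ⟨c0, hc0⟩ := Module.End.exists_eigenvalue DM
  obtain ⟨c, hc, hmax⟩ := Set.exists_max_image {c : ℂ | DM.HasEigenvalue c} (fun c => c.re) hfin
    ⟨c0, hc0⟩
  obtain ⟨v, hv⟩ := Module.End.HasEigenvalue.exists_hasEigenvector hc
  have hv1 : D (v : V) = c • (v : V) := by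
    have := hv.apply_eq_smul
    have h2 := congrArg (fun x : M => (x : V)) this
    simpa [hDM] using h2
  have hv0 : (v : V) ≠ 0 := fun h0 => hv.2 (Subtype.ext h0)
  let E : Submodule ℂ V := M ⊓ (Module.End.eigenspace D c)
  have hvE : (v : V) ∈ E := ⟨v.2, Module.End.mem_eigenspace_iff.2 hv1⟩
  have hE : E ≠ ⊥ := (Submodule.ne_bot_iff _).2 ⟨v, hvE, hv0⟩
  have hEh : ∀ i ∈ (Finset.univ : Finset ι), ∀ w ∈ E, h i w ∈ E := by
    intro i _ w hw
    refine ⟨hh i w hw.1, ?_⟩
    have hw2 : D w = c • w := Module.End.mem_eigenspace_iff.1 hw.2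
    refine Module.End.mem_eigenspace_iff.2 ?_
    have : D (h i w) = (D * h i) w := rfl
    rw [this, hDh i]
    change h i (D w) = _
    rw [hw2, map_smul]
  obtain ⟨w, hw, hw0, hws⟩ := joint_aux h hhh Finset.univ E hE hEh
  refine ⟨w, hw.1, hw0, fun i => ?_, fun i => hws i (Finset.mem_univ i)⟩
  by_contra hne
  have hw2 : D w = c • w := Module.End.mem_eigenspace_iff.1 hw.2
  have h1 : D (X i w) = (c + (a i : ℝ)) • X i w := by
    have h2 := congrArg (fun f : Module.End ℂ V => f w) (hDX i)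
    simp only [LinearMap.sub_apply, Module.End.mul_apply, LinearMap.smul_apply] at h2
    rw [hw2, map_smul] at h2
    rw [add_smul, ← h2]
    abel
  have hXM : X i w ∈ M := hX i w hw.1
  have hev : DM.HasEigenvalue (c + (a i : ℝ)) := by
    refine Module.End.hasEigenvalue_of_hasEigenvector (x := ⟨X i w, hXM⟩) ⟨?_, ?_⟩
    · refine Module.End.mem_eigenspace_iff.2 (Subtype.ext ?_)
      simpa [hDM] using h1
    · intro h0
      exact hne (congrArg (fun x : M => (x : V)) h0)
  have h3 := hmax _ hev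
  simp only [Complex.add_re, Complex.ofReal_re] at h3
  have := ha i
  linarith

end Pool.Agent.GHCUni
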