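import Pool.Agent.GHCUni.Count
import Pool.Agent.GHCUni.Joint
import Pool.Agent.GHCUni.Rel
import Pool.Agent.GHCUni.HarmW
import Pool.Agent.GHCFull.Inner

/-!
# Extremal vectors in spaces of harmonic forms
-/

set_option autoImplicit false

universe u

namespace Pool.Agent.GHCUni

open Module Pool.Agent.GHCFull Pool.Agent.OddRank Pool.Agent.GHCMix Pool.Agent.TypeIV

section Aux

variable {H : Type u} [AddCommGroup H] [Module ℂ H]

private theorem Extremal_comm {D E : Module.End ℂ H} (h : D * E = E * D) (k : ℕ) :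
    (der D k : Module.End ℂ (AForm H k)) * der E k = der E k * der D k := by
  refine LinearMap.ext fun ω => ?_
  rw [Module.End.mul_apply, Module.End.mul_apply]
  have h1 := der_der D E k ω
  rw [h, sub_self, der_zero'] at h1
  exact (sub_eq_zero.1 h1.symm).symm

private theorem Extremal_raise {E X : Module.End ℂ H} {a : ℂ} (h : X * E - E * X = a • X)
    (k : ℕ) : (der E k : Module.End ℂ (AForm H k)) * der X k - der X k * der E k =
      a • (der X k : Module.End ℂ (AForm H k)) := by
  refine LinearMap.ext fun ω => ?_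
  rw [LinearMap.sub_apply, Module.End.mul_apply, Module.End.mul_apply, LinearMap.smul_apply,
    ← der_der, h, der_smul]

end Aux

section Weights

variable {H : Type u} [AddCommGroup H] [Module ℂ H]
  {T T' : Type} [Fintype T] [DecidableEq T] [Fintype T'] [DecidableEq T']
  {I S : T → Type} [∀ t, Fintype (I t)] [∀ t, DecidableEq (I t)] [∀ t, Fintype (S t)]
  [∀ t, DecidableEq (S t)] {n : T' → ℕ} {R : T' → Type} [∀ t, Fintype (R t)]
  [∀ t, DecidableEq (R t)] (B : Basis (LK I S n R) ℂ H)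

/-- The grading element. -/
private noncomputable def Extremal_E : Module.End ℂ H :=
  spS B + ∑ t : T', ∑ j : Fin (n t), (-((j : ℕ) : ℂ)) • glE B t j j

private theorem Extremal_diag (t : T') (j j' : Fin (n t)) :
    glE B t j j * glE B t j' j' = glE B t j' j' * glE B t j j := by
  have h := glE_glE B t j j j' j'
  rw [← sub_eq_zero, h]
  by_cases hj : j = j'
  · subst hj
    simp
  · rw [if_neg hj, if_neg (fun h => hj h.symm), sub_zero]

private theorem Extremal_diag' (t t' : T') (j : Fin (n t)) (j' : Fin (n t')) :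
    glE B t j j * glE B t' j' j' = glE B t' j' j' * glE B t j j := by
  by_cases h : t = t'
  · subst h
    exact Extremal_diag B t j j'
  · exact glE_ne B t t' h j j j' j'

private theorem Extremal_E_spS : Extremal_E B * spS B = spS B * Extremal_E B := by
  rw [Extremal_E, add_mul, mul_add, Finset.sum_mul, Finset.mul_sum]
  congr 1
  refine Finset.sum_congr rfl fun t _ => ?_
  rw [Finset.sum_mul, Finset.mul_sum]
  refine Finset.sum_congr rfl fun j _ => ?_
  rw [smul_mul_assoc, mul_smul_comm, spS_glE]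

private theorem Extremal_E_glE (t' : T') (j' : Fin (n t')) :
    Extremal_E B * glE B t' j' j' = glE B t' j' j' * Extremal_E B := by
  rw [Extremal_E, add_mul, mul_add, Finset.sum_mul, Finset.mul_sum, spS_glE]
  congr 1
  refine Finset.sum_congr rfl fun t _ => ?_
  rw [Finset.sum_mul, Finset.mul_sum]
  refine Finset.sum_congr rfl fun j _ => ?_
  rw [smul_mul_assoc, mul_smul_comm, Extremal_diag']

private theorem Extremal_mdn (t' : T) (i i' : I t') :
    mdn B t' i i' * Extremal_E B - Extremal_E B * mdn B t' i i' = (2 : ℂ) • mdn B t' i i' := by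
  have h1 : mdn B t' i i' * ∑ t : T', ∑ j : Fin (n t), (-((j : ℕ) : ℂ)) • glE B t j j =
      (∑ t : T', ∑ j : Fin (n t), (-((j : ℕ) : ℂ)) • glE B t j j) * mdn B t' i i' := by
    rw [Finset.sum_mul, Finset.mul_sum]
    refine Finset.sum_congr rfl fun t _ => ?_
    rw [Finset.sum_mul, Finset.mul_sum]
    refine Finset.sum_congr rfl fun j _ => ?_
    rw [smul_mul_assoc, mul_smul_comm, glE_mdn]
  rw [Extremal_E, add_mul, mul_add, h1, add_sub_add_right_eq_sub, ← neg_sub, spS_mdn, neg_smul,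
    neg_neg]

private theorem Extremal_gl (t' : T') (i j : Fin (n t')) :
    glE B t' i j * Extremal_E B - Extremal_E B * glE B t' i j =
      (((j : ℕ) : ℂ) - ((i : ℕ) : ℂ)) • glE B t' i j := by
  have h0 : (∑ t : T', ∑ l : Fin (n t), (-((l : ℕ) : ℂ)) • glE B t l l) * glE B t' i j -
      glE B t' i j * (∑ t : T', ∑ l : Fin (n t), (-((l : ℕ) : ℂ)) • glE B t l l) =
      (((i : ℕ) : ℂ) - ((j : ℕ) : ℂ)) • glE B t' i j := by
    rw [Finset.sum_mul, Finset.mul_sum, ← Finset.sum_sub_distrib, Finset.sum_eq_single t']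
    · rw [Finset.sum_mul, Finset.mul_sum, ← Finset.sum_sub_distrib]
      have h1 : ∀ l : Fin (n t'), (-((l : ℕ) : ℂ)) • glE B t' l l * glE B t' i j -
          glE B t' i j * ((-((l : ℕ) : ℂ)) • glE B t' l l) =
          (if l = i then (((l : ℕ) : ℂ)) • glE B t' i j else 0) -
            (if l = j then (((l : ℕ) : ℂ)) • glE B t' i j else 0) := by
        intro l
        rw [smul_mul_assoc, mul_smul_comm, ← smul_sub, glE_glE]
        by_cases h1 : l = i
        · by_cases h2 : l = j
          · subst h1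
            subst h2
            simp
          · subst h1
            rw [if_neg (fun h => h2 h.symm), if_pos rfl, if_pos rfl, if_neg h2, zero_sub,
              sub_zero, smul_neg, neg_smul, neg_neg]
        · by_cases h2 : l = j
          · subst h2
            rw [if_pos rfl, if_neg h1, if_neg h1, if_pos rfl, sub_zero, zero_sub, neg_smul]
          · rw [if_neg (fun h => h2 h.symm), if_neg h1, if_neg h1, if_neg h2, sub_zero,
              smul_zero]
      rw [Finset.sum_congr rfl fun l _ => h1 l, Finset.sum_sub_distrib, Finset.sum_ite_eq',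
        Finset.sum_ite_eq', if_pos (Finset.mem_univ _), if_pos (Finset.mem_univ _), sub_smul]
    · intro t _ ht
      rw [Finset.sum_mul, Finset.mul_sum, sub_eq_zero]
      refine Finset.sum_congr rfl fun l _ => ?_
      rw [smul_mul_assoc, mul_smul_comm, glE_ne B t t' ht]
    · intro h
      exact (h (Finset.mem_univ _)).elim
  rw [Extremal_E, add_mul, mul_add, spS_glE, add_sub_add_left_eq_sub, ← neg_sub, h0, ← neg_smul,
    neg_sub]

end Weights

variable {H : Type u} [AddCommGroup H] [Module ℂ H] [FiniteDimensional ℂ H]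
  {T T' : Type} [Fintype T] [DecidableEq T] [Fintype T'] [DecidableEq T']
  {I S : T → Type} [∀ t, Fintype (I t)] [∀ t, DecidableEq (I t)] [∀ t, Fintype (S t)]
  [∀ t, DecidableEq (S t)] {n : T' → ℕ} {R : T' → Type} [∀ t, Fintype (R t)]
  [∀ t, DecidableEq (R t)] (B : Basis (LK I S n R) ℂ H)

theorem exists_extremal {k : ℕ} (M : Submodule ℂ (AForm H k)) (hM : M ≠ ⊥)
    (hup : ∀ t i i', ∀ w ∈ M, der (mdn B t i i') k w ∈ M)
    (hsp : ∀ w ∈ M, der (spS B) k w ∈ M)
    (hgl : ∀ t i j, ∀ w ∈ M, der (glE B t i j) k w ∈ M) (hH : M ≤ Harm B k) :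
    ∃ w ∈ M, w ≠ 0 ∧ ∃ (q : ℕ) (κ : ∀ t, Fin (n t) → ℤ), der (spS B) k w = (q : ℂ) • w ∧
      (∀ t j, der (glE B t j j) k w = (κ t j : ℂ) • w) ∧ (∀ t, Antitone (κ t)) ∧
      (∀ t j, |κ t j| ≤ Fintype.card (R t)) ∧ (q : ℤ) + ∑ t, ∑ j, |κ t j| = k ∧
      (Nonempty (Idx I S) ∨ q = 0) := by
  have : FiniteDimensional ℂ (AForm H k) := finite_aform k
  let h : Option (Σ t : T', Fin (n t)) → Module.End ℂ (AForm H k) := fun o =>
    o.elim (der (spS B) k) fun p => der (glE B p.1 p.2 p.2) k
  let X : (Σ t : T, I t × I t) ⊕ (Σ t : T', {p : Fin (n t) × Fin (n t) // p.1 < p.2}) →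
      Module.End ℂ (AForm H k) := fun o =>
    Sum.elim (fun p => der (mdn B p.1 p.2.1 p.2.2) k)
      (fun p => der (glE B p.1 p.2.1.1 p.2.1.2) k) o
  let a : (Σ t : T, I t × I t) ⊕ (Σ t : T', {p : Fin (n t) × Fin (n t) // p.1 < p.2}) → ℝ :=
    fun o => Sum.elim (fun _ => 2) (fun p => ((p.2.1.2 : ℕ) : ℝ) - ((p.2.1.1 : ℕ) : ℝ)) o
  obtain ⟨w, hw, hw0, hX, hh⟩ := exists_joint M hM (der (Extremal_E B) k)
    (by
      intro w hw
      rw [Extremal_E, der_add, der_sumU]
      refine M.add_mem (hsp w hw) (M.sum_mem fun t _ => ?_)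
      rw [der_sumU]
      refine M.sum_mem fun j _ => ?_
      rw [der_smul]
      exact M.smul_mem _ (hgl t j j w hw))
    h
    (by
      rintro (_ | ⟨t, j⟩) w hw
      · exact hsp w hw
      · exact hgl t j j w hw)
    (by
      rintro (_ | ⟨t, j⟩)
      · exact Extremal_comm (Extremal_E_spS B) k
      · exact Extremal_comm (Extremal_E_glE B t j) k)
    (by
      rintro (_ | ⟨t, j⟩) (_ | ⟨t', j'⟩)
      · rfl
      · exact Extremal_comm (spS_glE B t' j' j') k
      · exact Extremal_comm (spS_glE B t j j).symm k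
      · exact Extremal_comm (Extremal_diag' B t t' j j') k)
    X
    (by
      rintro (⟨t, i, i'⟩ | ⟨t, ⟨⟨i, j⟩, hij⟩⟩) w hw
      · exact hup t i i' w hw
      · exact hgl t i j w hw)
    a
    (by
      rintro (⟨t, i, i'⟩ | ⟨t, ⟨⟨i, j⟩, hij⟩⟩)
      · exact two_pos
      · change 0 < ((j : ℕ) : ℝ) - ((i : ℕ) : ℝ)
        have h1 : (i : ℕ) < (j : ℕ) := hij
        have h2 : ((i : ℕ) : ℝ) < ((j : ℕ) : ℝ) := by exact_mod_cast h1
        linarith)
    (by
      rintro (⟨t, i, i'⟩ | ⟨t, ⟨⟨i, j⟩, hij⟩⟩)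
      · have h1 := Extremal_raise (Extremal_mdn B t i i') k
        change _ = (((2 : ℝ) : ℝ) : ℂ) • _
        rw [Complex.ofReal_ofNat]
        exact h1
      · have h1 := Extremal_raise (Extremal_gl B t i j) k
        change _ = (((((j : ℕ) : ℝ) - ((i : ℕ) : ℝ) : ℝ)) : ℂ) • _
        rw [Complex.ofReal_sub, Complex.ofReal_natCast, Complex.ofReal_natCast]
        exact h1)
  have hup0 : ∀ t i i', der (mdn B t i i') k w = 0 := fun t i i' => hX (.inl ⟨t, i, i'⟩)
  have hgl0 : ∀ (t : T') (i j : Fin (n t)), i < j → der (glE B t i j) k w = 0 :=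
    fun t i j hij => hX (.inr ⟨t, ⟨⟨i, j⟩, hij⟩⟩)
  obtain ⟨c, hc⟩ := hh none
  have hκ0 : ∀ t, ∀ j : Fin (n t), ∃ c : ℂ, der (glE B t j j) k w = c • w :=
    fun t j => hh (some ⟨t, j⟩)
  choose κ0 hκ0 using hκ0
  obtain ⟨q, μ, hμ, hcard, hsum, hq, hpar⟩ := exists_counts B w hw0
    (fun t i s => harm_sp B (hH hw) hup0 t i s)
    (fun t j s s' => harm_gl B (hH hw) t (fun i j hij => hgl0 t i j hij) j s s') κ0 hκ0
  have hμ' : ∀ t j, der (glE B t j j) k w = (μ t j : ℂ) • w := fun t j => by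
    rw [hκ0, hμ]
  refine ⟨w, hw, hw0, q, μ, ?_, hμ', ?_, hcard, hsum, hpar⟩
  · have h1 : der (spS B) k w = c • w := hc
    rw [h1, hq c h1]
  · intro t i j hij
    rcases hij.eq_or_lt with h1 | h1
    · rw [h1]
    · exact dominant B hw0 t i j h1 (hgl0 t i j h1) (μ t) (hμ' t)

end Pool.Agent.GHCUni
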