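import Pool.Agent.GHCUni.FrA

/-!
# The properties of the adapted bases, second part
-/

set_option autoImplicit false

universe u

namespace Pool.Agent.GHCUni

open Module Pool.Agent.GHCFull Pool.Agent.OddRank Pool.Agent.GHCMix Pool.Agent.TypeIV

variable {H : Type u} [AddCommGroup H] [Module ℂ H] [FiniteDimensional ℂ H]
  {T T' : Type} [Fintype T] [DecidableEq T] [Fintype T'] [DecidableEq T']
  {I S : T → Type} [∀ t, Fintype (I t)] [∀ t, DecidableEq (I t)] [∀ t, Fintype (S t)]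
  [∀ t, DecidableEq (S t)] {n : T' → ℕ} {R : T' → Type} [∀ t, Fintype (R t)]
  [∀ t, DecidableEq (R t)]
  {ψ : H →ₗ[ℂ] H →ₗ[ℂ] ℂ} {G : Set (Module.End ℂ H)} {A : Submodule ℂ H}
  {W W' : ∀ t : T', R t → Submodule ℂ H} {B : Basis (LK I S n R) ℂ H}

theorem Frames.comm_x (F : Frames ψ G A W W' B) (hss : Semisimple G)
    (hψ : ∀ e ∈ G, ∀ x y, ψ (e x) y + ψ x (e y) = ψ x y)
    (z : Module.End ℂ H) (hz : ∀ g ∈ G, g * z = z * g) (t : T') :
    ∃ ζ : R t → R t → ℂ, ∀ j s, z (B (.inr ⟨t, j, s, true⟩)) =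
      ∑ s' : R t, ζ s' s • B (.inr ⟨t, j, s', true⟩) := by
  sorry

theorem Frames.comm_y (F : Frames ψ G A W W' B) (hss : Semisimple G)
    (hψ : ∀ e ∈ G, ∀ x y, ψ (e x) y + ψ x (e y) = ψ x y)
    (z : Module.End ℂ H) (hz : ∀ g ∈ G, g * z = z * g) (t : T') :
    ∃ ζ : R t → R t → ℂ, ∀ j s, z (B (.inr ⟨t, j, s, false⟩)) =
      ∑ s' : R t, ζ s' s • B (.inr ⟨t, j, s', false⟩) := by
  sorry

end Pool.Agent.GHCUni
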