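import Pool.Agent.GHCUni.FrA
import Pool.Agent.GHCUni.FrB

/-!
# The properties of the adapted bases
-/

set_option autoImplicit false

universe u

namespace Pool.Agent.GHCUni

open Module Pool.Agent.GHCFull Pool.Agent.OddRank Pool.Agent.GHCMix Pool.Agent.TypeIV

variable {H : Type u} [AddCommGroup H] [Module ℂ H] [FiniteDimensional ℂ H]
  {T T' : Type} [Fintype T] [DecidableEq T] [Fintype T'] [DecidableEq T']
  {I S : T → Type} [∀ t, Fintype (I t)] [∀ t, DecidableEq (I t)] [∀ t, Fintype (S t)]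
  [∀ t, DecidableEq (S t)] {n : T' → ℕ} {R : T' → Type} [∀ t, Fintype (R t)]
  [∀ t, DecidableEq (R t)]
  {ψ : H →ₗ[ℂ] H →ₗ[ℂ] ℂ} {G : Set (Module.End ℂ H)} {A : Submodule ℂ H}
  {W W' : ∀ t : T', R t → Submodule ℂ H} {B : Basis (LK I S n R) ℂ H}

theorem Frames.copy_eq (F : Frames ψ G A W W' B) (t : T') (s : R t) :
    copy B t s = W t s := by
  apply le_antisymm
  · rw [copy, Submodule.span_le]
    rintro _ ⟨j, rfl⟩
    exact F.memx t j s
  · exact F.spanx t s

theorem Frames.blocks (F : Frames ψ G A W W' B) (hss : Semisimple G)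
    (hψ : ∀ e ∈ G, ∀ x y, ψ (e x) y + ψ x (e y) = ψ x y) : Blocks B ψ G where
  ψ_eq := F.ψ_eq
  mul_sp := F.mul_sp
  mul_gl := F.mul_gl hψ
  comm_sp := fun z hz => F.commA z hz (F.stable_A hss hψ z hz)
  comm_gl := by
    intro z hz t ε
    cases ε with
    | true => exact F.comm_x hss hψ z hz t
    | false => exact F.comm_y hss hψ z hz t
  irr := fun t s => by rw [F.copy_eq]; exact F.irr t s
  ndual := fun t s t' s' => by rw [F.copy_eq, F.copy_eq]; exact F.ndual t s t' s'
  niso := fun t s t' s' => by rw [F.copy_eq, F.copy_eq]; exact F.niso t s t' s'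
  nonempty := F.nonempty
  selfdual := by
    rintro ⟨α⟩
    have h1 : A ≠ ⊥ := by
      intro h
      have h2 := F.memA α
      rw [h, Submodule.mem_bot] at h2
      exact B.ne_zero _ h2
    obtain ⟨U, hUA, hU⟩ := exists_irr F.stA h1
    exact ⟨U, hU, F.selfdual U hUA hU⟩

end Pool.Agent.GHCUni
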