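import Pool.Agent.GHCUni.Polar
import Pool.Agent.GHCMix.Restr
import Pool.Agent.GHCFull.S3

/-!
# Bases adapted to the decomposition: definition
-/

set_option autoImplicit false

universe u

namespace Pool.Agent.GHCUni

open Module Pool.Agent.GHCFull Pool.Agent.OddRank Pool.Agent.GHCMix Pool.Agent.TypeIV

variable {H : Type u} [AddCommGroup H] [Module ℂ H] [FiniteDimensional ℂ H]
  {T T' : Type} [Fintype T] [DecidableEq T] [Fintype T'] [DecidableEq T']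
  {I S : T → Type} [∀ t, Fintype (I t)] [∀ t, DecidableEq (I t)] [∀ t, Fintype (S t)]
  [∀ t, DecidableEq (S t)] {n : T' → ℕ} {R : T' → Type} [∀ t, Fintype (R t)]
  [∀ t, DecidableEq (R t)]

/-- The properties of a basis adapted to the decomposition. -/
structure Frames (ψ : H →ₗ[ℂ] H →ₗ[ℂ] ℂ) (G : Set (Module.End ℂ H)) (A : Submodule ℂ H)
    (W W' : ∀ t : T', R t → Submodule ℂ H) (B : Basis (LK I S n R) ℂ H) : Prop where
  irr : ∀ t s, Irreducible G (W t s)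
  irr' : ∀ t s, Irreducible G (W' t s)
  stA : Stable G A
  memA : ∀ α, B (.inl α) ∈ A
  memx : ∀ t j s, B (.inr ⟨t, j, s, true⟩) ∈ W t s
  memy : ∀ t j s, B (.inr ⟨t, j, s, false⟩) ∈ W' t s
  spanA : A ≤ Submodule.span ℂ (Set.range fun α => B (.inl α))
  spanx : ∀ t s, W t s ≤ Submodule.span ℂ
    (Set.range fun j : Fin (n t) => B (.inr ⟨t, j, s, true⟩))
  spany : ∀ t s, W' t s ≤ Submodule.span ℂ
    (Set.range fun j : Fin (n t) => B (.inr ⟨t, j, s, false⟩))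
  ψ_eq : ∀ α β, ψ (B α) (B β) = if β = bar α then sg α else 0
  equiv : ∀ g ∈ G, ∀ t, ∃ a : Fin (n t) → Fin (n t) → ℂ, ∀ j s,
    g (B (.inr ⟨t, j, s, true⟩)) = ∑ i, a i j • B (.inr ⟨t, i, s, true⟩)
  mul_sp : ∀ g ∈ G, ∀ t, ∃ m : I t × Bool → I t × Bool → ℂ, ∀ i s ε,
    g (B (.inl ⟨t, i, s, ε⟩)) = ∑ q : I t × Bool, m q (i, ε) • B (.inl ⟨t, q.1, s, q.2⟩)
  commA : ∀ z : Module.End ℂ H, (∀ g ∈ G, g * z = z * g) → (∀ a ∈ A, z a ∈ A) →
    ∀ t, ∃ ζ : S t → S t → ℂ, ∀ i s ε,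
      z (B (.inl ⟨t, i, s, ε⟩)) = ∑ s' : S t, ζ s' s • B (.inl ⟨t, i, s', ε⟩)
  ndual : ∀ t s t' s', ¬ Dual G (W t s) (W t' s')
  niso : ∀ t s t' s', t ≠ t' → ¬ Iso G (W t s) (W t' s')
  nonempty : ∀ t, Nonempty (R t)
  selfdual : ∀ U ≤ A, Irreducible G U → Dual G U U

end Pool.Agent.GHCUni
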