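import Pool.Agent.GHCUni.FrDefs

/-!
# The basis of the part which is not self-dual
-/

set_option autoImplicit false

universe u

namespace Pool.Agent.GHCUni

open Module Pool.Agent.GHCFull Pool.Agent.OddRank Pool.Agent.GHCMix Pool.Agent.TypeIV

variable {H : Type u} [AddCommGroup H] [Module ℂ H] [FiniteDimensional ℂ H]

/-- The basis of the part which is not self-dual: the classes of the `W i` under isomorphism. -/
theorem exists_xy {ψ : H →ₗ[ℂ] H →ₗ[ℂ] ℂ} {G : Set (Module.End ℂ H)}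
    {r : ℕ} {W W' : Fin r → Submodule ℂ H} {A : Submodule ℂ H} (P : Polar ψ G W W' A) :
    ∃ (T' : Type) (_ : Fintype T') (_ : DecidableEq T') (n : T' → ℕ) (R : T' → Type)
      (_ : ∀ t, Fintype (R t)) (_ : ∀ t, DecidableEq (R t)) (c : ∀ t, R t → Fin r)
      (x y : ∀ t, Fin (n t) → R t → H),
      (∀ i, ∃ t s, c t s = i) ∧ (∀ t s t' s', c t s = c t' s' → t = t') ∧
      (∀ t, Function.Injective (c t)) ∧ (∀ t, Nonempty (R t)) ∧
      (∀ t s t' s', t ≠ t' → ¬ Iso G (W (c t s)) (W (c t' s'))) ∧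
      (∀ t j s, x t j s ∈ W (c t s)) ∧ (∀ t j s, y t j s ∈ W' (c t s)) ∧
      (∀ t s, W (c t s) ≤ Submodule.span ℂ (Set.range fun j => x t j s)) ∧
      (∀ t s, W' (c t s) ≤ Submodule.span ℂ (Set.range fun j => y t j s)) ∧
      (∀ t i j s, ψ (x t i s) (y t j s) = if i = j then 1 else 0) ∧
      ∀ g ∈ G, ∀ t, ∃ a : Fin (n t) → Fin (n t) → ℂ, ∀ j s,
        g (x t j s) = ∑ i, a i j • x t i s := by
  sorry

end Pool.Agent.GHCUni
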