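import Pool.Agent.GHCUni.GramB
import Pool.Agent.GHCUni.XY

/-!
# Existence of adapted bases
-/

set_option autoImplicit false

universe u

namespace Pool.Agent.GHCUni

open Module Pool.Agent.GHCFull Pool.Agent.OddRank Pool.Agent.GHCMix Pool.Agent.TypeIV

variable {H : Type u} [AddCommGroup H] [Module ℂ H] [FiniteDimensional ℂ H]

/-- Existence of adapted bases. -/
theorem exists_frames {ψ : H →ₗ[ℂ] H →ₗ[ℂ] ℂ} (halt : ∀ x, ψ x x = 0)
    (hnd : ∀ x, (∀ y, ψ x y = 0) → x = 0) {G : Set (Module.End ℂ H)} (hG : G.Nonempty)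
    (hGe : ∀ e ∈ G, e * e = e) (hψ : ∀ e ∈ G, ∀ x y, ψ (e x) y + ψ x (e y) = ψ x y)
    (hss : Semisimple G) (hform : ∀ W, Irreducible G W → Dual G W W → ∃ φ, FormOn G W φ)
    {r : ℕ} {W W' : Fin r → Submodule ℂ H} {A : Submodule ℂ H} (P : Polar ψ G W W' A) :
    ∃ (T : Type) (_ : Fintype T) (_ : DecidableEq T) (I S : T → Type)
      (_ : ∀ t, Fintype (I t)) (_ : ∀ t, DecidableEq (I t)) (_ : ∀ t, Fintype (S t))
      (_ : ∀ t, DecidableEq (S t)) (T' : Type) (_ : Fintype T') (_ : DecidableEq T')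
      (n : T' → ℕ) (R : T' → Type) (_ : ∀ t, Fintype (R t)) (_ : ∀ t, DecidableEq (R t))
      (W W' : ∀ t : T', R t → Submodule ℂ H) (B : Basis (LK I S n R) ℂ H),
      Frames ψ G A W W' B := by
  sorry

end Pool.Agent.GHCUni
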