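import Pool.Agent.GHCUni.FrDefs

/-!
# Families with the standard Gram matrix
-/

set_option autoImplicit false

universe u

namespace Pool.Agent.GHCUni

open Module Pool.Agent.GHCFull Pool.Agent.OddRank Pool.Agent.GHCMix Pool.Agent.TypeIV

variable {H : Type u} [AddCommGroup H] [Module ℂ H] [FiniteDimensional ℂ H]
  {T T' : Type} [Fintype T] [DecidableEq T] [Fintype T'] [DecidableEq T']
  {I S : T → Type} [∀ t, Fintype (I t)] [∀ t, DecidableEq (I t)] [∀ t, Fintype (S t)]
  [∀ t, DecidableEq (S t)] {n : T' → ℕ} {R : T' → Type} [∀ t, Fintype (R t)]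
  [∀ t, DecidableEq (R t)]

/-- A spanning family with the Gram matrix of the standard form is a basis. -/
theorem basis_of_gram {ψ : H →ₗ[ℂ] H →ₗ[ℂ] ℂ} (b : LK I S n R → H)
    (h : ∀ α β, ψ (b α) (b β) = if β = bar α then sg α else 0)
    (hs : Submodule.span ℂ (Set.range b) = ⊤) : ∃ B : Basis (LK I S n R) ℂ H, ∀ α, B α = b α := by
  sorry

end Pool.Agent.GHCUni
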