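import Pool.Agent.GHCUni.Copies
import Pool.Agent.GHCUni.Extremal
import Pool.Agent.GHCUni.BlockOps
import Pool.Agent.GHCFull.Main

/-!
# Harmonic spaces of positive coniveau are zero
-/

set_option autoImplicit false
set_option linter.unusedSectionVars false

universe u

namespace Pool.Agent.GHCUni

open Module Pool.Agent.GHCFull Pool.Agent.OddRank Pool.Agent.GHCMix Pool.Agent.TypeIV

variable {H : Type u} [AddCommGroup H] [Module ℂ H] [FiniteDimensional ℂ H]

theorem prod_apply_eig {V : Type*} [AddCommGroup V] [Module ℂ V] (A : Module.End ℂ V)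
    (l : List ℕ) (v : V) (a : ℂ) (h : A v = a • v) :
    ((l.map fun β : ℕ => (A - (β : ℂ) • 1 : Module.End ℂ V)).prod : Module.End ℂ V) v =
      ((l.map fun β : ℕ => a - (β : ℂ)).prod) • v := by
  induction l with
  | nil => simp
  | cons β l ih =>
    rw [List.map_cons, List.prod_cons, Module.End.mul_apply, ih, map_smul, List.map_cons,
      List.prod_cons]
    simp only [LinearMap.sub_apply, LinearMap.smul_apply, Module.End.one_apply]
    rw [h, ← sub_smul, smul_smul, mul_comm]

/-- The bound for the eigenvalues of `2 e - 1`. -/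
theorem UB_of_list {e : Module.End ℂ H} {k j : ℕ} {M : Submodule ℂ (AForm H k)} {l : List ℕ}
    (hl : ∀ γ ∈ l, j ≤ γ)
    (h : ∀ ω ∈ M, ((l.map fun γ : ℕ => (der (1 - e) k - (γ : ℂ) • 1 :
      Module.End ℂ (AForm H k))).prod : Module.End ℂ (AForm H k)) ω = 0) :
    UB M (der ((2 : ℂ) • e - 1) k) ((k : ℤ) - 2 * j) := by
  intro w hw hw0 c hc
  have h1 : der (1 - e) k w = (((k : ℂ) - c) / 2) • w := by
    have h2 : der ((2 : ℂ) • e - 1) k w = (2 : ℂ) • der e k w - (k : ℂ) • w := by
      rw [der_sub', der_smul, der_one]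
    rw [h2] at hc
    rw [der_sub', der_one]
    have h3 : der e k w = (((k : ℂ) + c) / 2) • w := by
      have h4 : (2 : ℂ) • der e k w = ((k : ℂ) + c) • w := by
        rw [add_smul, ← hc]
        abel
      calc der e k w = (1 / 2 : ℂ) • ((2 : ℂ) • der e k w) := by
            rw [smul_smul]; norm_num
        _ = _ := by rw [h4, smul_smul]; congr 1; ring
    rw [h3, ← sub_smul]
    congr 1
    ring
  have h2 := h w hw
  rw [prod_apply_eig _ l w _ h1, smul_eq_zero] at h2
  rcases h2 with h2 | h2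
  · rw [List.prod_eq_zero_iff, List.mem_map] at h2
    obtain ⟨γ, hγ, hγ0⟩ := h2
    have h3 := hl γ hγ
    have h4 : (c : ℂ) = ((k : ℤ) - 2 * γ : ℤ) := by
      push_cast
      linear_combination -2 * hγ0
    have h5 : c = (k : ℤ) - 2 * γ := by exact_mod_cast h4
    rw [h5]
    omega
  · exact absurd h2 hw0

variable {T T' : Type} [Fintype T] [DecidableEq T] [Fintype T'] [DecidableEq T']
  {I S : T → Type} [∀ t, Fintype (I t)] [∀ t, DecidableEq (I t)] [∀ t, Fintype (S t)]
  [∀ t, DecidableEq (S t)] {n : T' → ℕ} {R : T' → Type} [∀ t, Fintype (R t)]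
  [∀ t, DecidableEq (R t)] {B : Basis (LK I S n R) ℂ H}
  {ψ : H →ₗ[ℂ] H →ₗ[ℂ] ℂ} {G : Set (Module.End ℂ H)}

/-- A space of harmonic forms of positive coniveau is zero. -/
theorem harm_bot (hB : Blocks B ψ G) (hnd : ∀ x, (∀ y, ψ x y = 0) → x = 0)
    (hGe : ∀ e ∈ G, e * e = e) (hψ : ∀ e ∈ G, ∀ x y, ψ (e x) y + ψ x (e y) = ψ x y)
    (hss : Semisimple G)
    (hkind : ∀ W, Irreducible G W → finrank ℂ W = 1 ∨ MX.KSp G W ∨ MX.KSl G W) {k j : ℕ}
    (hj : 1 ≤ j) (hlev : LevelCond G k j) {M : Submodule ℂ (AForm H k)}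
    (hG : ∀ e ∈ G, ∀ ω ∈ M, der e k ω ∈ M) (hC : ∀ t, ∀ ω ∈ M, der (glC B t) k ω ∈ M)
    (hl : ∀ e ∈ G, ∃ l : List ℕ, (∀ γ ∈ l, j ≤ γ) ∧
      ∀ ω ∈ M, ((l.map fun γ : ℕ => (der (1 - e) k - (γ : ℂ) • 1 :
        Module.End ℂ (AForm H k))).prod : Module.End ℂ (AForm H k)) ω = 0)
    (hH : M ≤ Harm B k) : M = ⊥ := by
  classical
  by_contra hM
  have hder : ∀ D ∈ derivedSpan G, ∀ w ∈ M, der D k w ∈ M := fun D hD =>
    der_lieSpan hG D (derived_le hD)
  have hgl : ∀ t i j, ∀ w ∈ M, der (glE B t i j) k w ∈ M := by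
    intro t i i' w hw
    by_cases h : i = i'
    · subst h
      have hn : (n t : ℂ) ≠ 0 := by
        have h1 : 0 < n t := Fin.pos i
        exact_mod_cast h1.ne'
      have h1 : glE B t i i = ((n t : ℂ)⁻¹) • (glC B t +
          ∑ i' : Fin (n t), (glE B t i i - glE B t i' i')) := by
        rw [Finset.sum_sub_distrib, Finset.sum_const, Finset.card_univ, Fintype.card_fin, glC,
          add_sub_cancel, ← Nat.cast_smul_eq_nsmul ℂ, smul_smul, inv_mul_cancel₀ hn, one_smul]
      rw [h1, der_smul, der_add, der_sumU]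
      exact M.smul_mem _ (M.add_mem (hC t w hw) (M.sum_mem fun i' _ =>
        hder _ (glE_sub_mem hB hnd hGe hψ hss hkind t i i') w hw))
    · exact hder _ (glE_mem hB hnd hGe hψ hss hkind t i i' h) w hw
  obtain ⟨w, hw, hw0, q, κ, hq, hκ, hanti, hcard, hsum, hpar⟩ := exists_extremal B M hM
    (fun t i i' => hder _ (mdn_mem hB hnd hGe hψ hss hkind t i i'))
    (hder _ (spS_mem hB hnd hGe hψ hss hkind)) hgl hH
  have hne : ∀ t : T', Nonempty (R t) := hB.nonempty
  let s₀ : ∀ t : T', R t := fun t => (hne t).some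
  have key : ∀ e ∈ G, (q : ℤ) + ∑ t : T', hval (finrank ℂ ((copy B t (s₀ t)).map e)) (κ t) ≤
      (k : ℤ) - 2 * j := by
    intro e he
    set r : T' → ℕ := fun t => finrank ℂ ((copy B t (s₀ t)).map e) with hr
    obtain ⟨l, hl1, hl2⟩ := hl e he
    have hU := UB_of_list hl1 hl2
    obtain ⟨p, p', he', hp, hp', hs, h1, h2, h3⟩ := chain hB hnd hGe hψ hss he r
      (fun t s => copy_rank hB he t s (s₀ t))
    have hU1 := move hnd hGe hψ hss hkind he' hp (Or.inl h1) hder hU
    have hU2 := move hnd hGe hψ hss hkind hp hp' (Or.inr h2) hder hU1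
    have hU3 := move hnd hGe hψ hss hkind hp' hs (Or.inl h3) hder hU2
    refine hU3 w hw hw0 _ ?_
    rw [two_pstd, der_add, hq, der_sumU]
    push_cast
    rw [add_smul, Finset.sum_smul]
    congr 1
    refine Finset.sum_congr rfl fun t _ => ?_
    rw [der_sumU, hval]
    push_cast
    rw [Finset.sum_smul]
    refine Finset.sum_congr rfl fun i _ => ?_
    by_cases hi : (i : ℕ) < r t
    · rw [if_pos hi, if_pos hi, hκ]
    · rw [if_neg hi, if_neg hi, ← neg_one_smul ℂ (glE B t i i), der_smul, hκ, smul_smul,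
        neg_one_mul]
  let E := Fintype.equivFin T'
  have hsumE : ∀ f : T' → ℤ, ∑ t : Fin (Fintype.card T'), f (E.symm t) = ∑ t, f t := fun f =>
    E.symm.sum_comp f
  obtain ⟨e, he, heq⟩ := hlev (Fintype.card T') (fun t => copy B (E.symm t) (s₀ _))
    (fun t => n (E.symm t)) (fun t => κ (E.symm t))
    (fun t => ⟨hB.irr _ _, finrank_copy B _ _⟩) (fun t t' => hB.ndual _ _ _ _)
    (fun t t' h => hB.niso _ _ _ _ fun h' => h (E.symm.injective h'))
    (fun t => hanti _) (fun t i => (hcard _ i).trans (by exact_mod_cast card_le_mult hB _ _))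
    (by
      have h1 := hsumE fun t => ∑ i, |κ t i|
      rw [h1]
      have h2 : (0 : ℤ) ≤ q := Int.natCast_nonneg q
      omega)
    (by
      have h1 := hsumE fun t => ∑ i, |κ t i|
      rw [h1]
      rcases hpar with h2 | h2
      · exact Or.inr (hB.selfdual h2)
      · left
        rw [← hsum, h2]
        simp)
    (fun e he => by
      have h1 := hsumE fun t => hval (finrank ℂ ((copy B t (s₀ t)).map e)) (κ t)
      rw [h1]
      have h2 := key e he
      have h3 : (0 : ℤ) ≤ q := Int.natCast_nonneg q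
      omega)
  have h1 := hsumE fun t => ∑ i, |κ t i|
  have h2 := hsumE fun t => hval (finrank ℂ ((copy B t (s₀ t)).map e)) (κ t)
  rw [h1, h2] at heq
  have h3 := key e he
  omega

end Pool.Agent.GHCUni
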