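import Pool.Agent.GHCUni.InvDefs

/-!
# The invariant forms
-/

set_option autoImplicit false

universe u

namespace Pool.Agent.GHCUni

open Module Pool.Agent.GHCFull Pool.Agent.OddRank Pool.Agent.GHCMix Pool.Agent.TypeIV

variable {H : Type u} [AddCommGroup H] [Module ℂ H]
  {T T' : Type} [Fintype T] [DecidableEq T] [Fintype T'] [DecidableEq T']
  {I S : T → Type} [∀ t, Fintype (I t)] [∀ t, DecidableEq (I t)] [∀ t, Fintype (S t)]
  [∀ t, DecidableEq (S t)] {n : T' → ℕ} {R : T' → Type} [∀ t, Fintype (R t)]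
  [∀ t, DecidableEq (R t)] {B : Basis (LK I S n R) ℂ H}
  {ψ : H →ₗ[ℂ] H →ₗ[ℂ] ℂ} {G : Set (Module.End ℂ H)}

/-- The invariant forms are invariant. -/
theorem mth_inv (hB : Blocks B ψ G) (hψ : ∀ e ∈ G, ∀ x y, ψ (e x) y + ψ x (e y) = ψ x y)
    (t : T) (s s' : S t) (g : Module.End ℂ H) (hg : g ∈ G) (x y : H) :
    mth B t s s' (g x) y + mth B t s s' x (g y) = mth B t s s' x y := by
  sorry

theorem glth_inv (hB : Blocks B ψ G) (hψ : ∀ e ∈ G, ∀ x y, ψ (e x) y + ψ x (e y) = ψ x y)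
    (t : T') (s s' : R t) (g : Module.End ℂ H) (hg : g ∈ G) (x y : H) :
    glth B t s s' (g x) y + glth B t s s' x (g y) = glth B t s s' x y := by
  sorry

end Pool.Agent.GHCUni
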