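import Pool.Agent.GHCUni.InvDefs

/-!
# Derivations and invariant products
-/

set_option autoImplicit false

universe u

namespace Pool.Agent.GHCUni

open Module Pool.Agent.GHCFull Pool.Agent.OddRank Pool.Agent.GHCMix Pool.Agent.TypeIV

variable {H : Type u} [AddCommGroup H] [Module ℂ H]
  {T T' : Type} [Fintype T] [DecidableEq T] [Fintype T'] [DecidableEq T']
  {I S : T → Type} [∀ t, Fintype (I t)] [∀ t, DecidableEq (I t)] [∀ t, Fintype (S t)]
  [∀ t, DecidableEq (S t)] {n : T' → ℕ} {R : T' → Type} [∀ t, Fintype (R t)]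
  [∀ t, DecidableEq (R t)] {B : Basis (LK I S n R) ℂ H}
  {ψ : H →ₗ[ℂ] H →ₗ[ℂ] ℂ} {G : Set (Module.End ℂ H)}

/-- The canonical element is invariant. -/
theorem canon (hψ : ∀ α β, ψ (B α) (B β) = if β = bar α then sg α else 0)
    {V : Type*} [AddCommGroup V] [Module ℂ V] (F : H →ₗ[ℂ] H →ₗ[ℂ] V) {D D' : Module.End ℂ H}
    (hD : ∀ x y, ψ (D x) y = ψ x (D' y)) :
    ∑ α, F (D (B α)) (bd B α) = ∑ α, F (B α) (D' (bd B α)) := by
  sorry

theorem der_Lz (hψ : ∀ α β, ψ (B α) (B β) = if β = bar α then sg α else 0)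
    {D z : Module.End ℂ H} {c : ℂ} (hDz : D * z = z * D)
    (hD : ∀ x y, ψ (D x) y + ψ x (D y) = c * ψ x y) (k : ℕ) (ω : AForm H k) :
    der D (k + 2) (Lz ψ B z k ω) = Lz ψ B z k (der D k ω) + c • Lz ψ B z k ω := by
  sorry

theorem der_Lamz (hψ : ∀ α β, ψ (B α) (B β) = if β = bar α then sg α else 0)
    {D z : Module.End ℂ H} {c : ℂ} (hDz : D * z = z * D)
    (hD : ∀ x y, ψ (D x) y + ψ x (D y) = c * ψ x y) (k : ℕ) (ω : AForm H (k + 2)) :
    der D k (Lamz B z k ω) = Lamz B z k (der D (k + 2) ω) - c • Lamz B z k ω := by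
  sorry

end Pool.Agent.GHCUni
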