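import Pool.Agent.GHCUni.Der

/-!
# Products with invariant forms and contractions with invariant bivectors: definitions
-/

set_option autoImplicit false

universe u

namespace Pool.Agent.GHCUni

open Module Pool.Agent.GHCFull Pool.Agent.OddRank Pool.Agent.GHCMix Pool.Agent.TypeIV

variable {H : Type u} [AddCommGroup H] [Module ℂ H]
  {T T' : Type} [Fintype T] [DecidableEq T] [Fintype T'] [DecidableEq T']
  {I S : T → Type} [∀ t, Fintype (I t)] [∀ t, DecidableEq (I t)] [∀ t, Fintype (S t)]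
  [∀ t, DecidableEq (S t)] {n : T' → ℕ} {R : T' → Type} [∀ t, Fintype (R t)]
  [∀ t, DecidableEq (R t)] {B : Basis (LK I S n R) ℂ H}

/-- The dual basis vector. -/
noncomputable def bd (B : Basis (LK I S n R) ℂ H) (α : LK I S n R) : H := sg α • B (bar α)

/-- The product with the form `ψ (z x) y`, in terms of the dual bases. -/
noncomputable def Lz (ψ : H →ₗ[ℂ] H →ₗ[ℂ] ℂ) (B : Basis (LK I S n R) ℂ H)
    (z : Module.End ℂ H) (k : ℕ) : AForm H k →ₗ[ℂ] AForm H (k + 2) :=
  ∑ α, wd (ψ (z (B α))) (k + 1) ∘ₗ wd (ψ (bd B α)) k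

/-- The contraction with the corresponding bivector. -/
noncomputable def Lamz (B : Basis (LK I S n R) ℂ H) (z : Module.End ℂ H) (k : ℕ) :
    AForm H (k + 2) →ₗ[ℂ] AForm H k :=
  ∑ α, ct (bd B α) k ∘ₗ ct (z (B α)) (k + 1)

/-- The operators `s ↦ s'` of the multiplicity spaces of the symplectic blocks. -/
noncomputable def spZ (B : Basis (LK I S n R) ℂ H) (t : T) (s s' : S t) : Module.End ℂ H :=
  ∑ i : I t, ∑ ε : Bool, el B (.inl ⟨t, i, s, ε⟩) (.inl ⟨t, i, s', ε⟩)

/-- The operators `s ↦ s'` of the multiplicity spaces of the other blocks. -/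
noncomputable def glZ (B : Basis (LK I S n R) ℂ H) (t : T') (ε : Bool) (s s' : R t) :
    Module.End ℂ H :=
  ∑ j : Fin (n t), el B (.inr ⟨t, j, s, ε⟩) (.inr ⟨t, j, s', ε⟩)

end Pool.Agent.GHCUni
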