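import Pool.Agent.GHCUni.PartA
import Pool.Agent.GHCUni.Frames
import Pool.Agent.GHCUni.FrBlocks
import Pool.Agent.GHCMix.Main

/-!
# The main argument
-/

set_option autoImplicit false
set_option maxSynthPendingDepth 3
set_option linter.unusedSectionVars false

universe u

namespace Pool.Agent.GHCUni

open Complex Module Pool.Agent.GHC Pool.Agent.OddRank Pool.Agent.GHCFull Pool.Agent.GHCMix
  Pool.Agent.TypeIV

section Form

variable {H : Type u} [AddCommGroup H] [Module ℂ H] [FiniteDimensional ℂ H]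

/-- Self-dual irreducible subspaces have an alternating form. -/
theorem formOn_of_kind {G : Set (Module.End ℂ H)} (hGe : ∀ e ∈ G, e * e = e)
    (hGn : G.Nonempty) (hss : Semisimple G)
    {W : Submodule ℂ H} (hW : Irreducible G W) (hD : Dual G W W)
    (hk : finrank ℂ W = 1 ∨ MX.KSp G W ∨ MX.KSl G W) : ∃ φ, FormOn G W φ := by
  rcases hk with hk | hk | hk
  · exfalso
    obtain ⟨φ, h1, h2⟩ := hD
    obtain ⟨w, hw, hw0⟩ := (Submodule.ne_bot_iff W).1 hW.2.1
    have hsp : ∀ v ∈ W, ∃ c : ℂ, v = c • w := by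
      intro v hv
      have hne : (⟨w, hw⟩ : W) ≠ 0 := fun h => hw0 (congrArg Subtype.val h)
      obtain ⟨c, hc⟩ := (finrank_eq_one_iff_of_nonzero' _ hne).1 hk ⟨v, hv⟩
      exact ⟨c, (congrArg Subtype.val hc).symm⟩
    have hφ : φ w w = 0 := by
      obtain ⟨e, he⟩ := hGn
      obtain ⟨c, hc⟩ := hsp (e w) (hW.1 e he w hw)
      have h3 := h2 e he w hw w hw
      rw [hc, map_smul, LinearMap.smul_apply, map_smul, smul_eq_mul] at h3
      have h4 : c = 0 ∨ c = 1 := by
        have h5 : e (e w) = e w := by rw [← Module.End.mul_apply, hGe e he]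
        rw [hc, map_smul, hc, smul_smul, ← sub_eq_zero, ← sub_smul, smul_eq_zero] at h5
        rcases h5 with h5 | h5
        · have h6 : c * (c - 1) = 0 := by linear_combination h5
          rcases mul_eq_zero.1 h6 with h7 | h7
          · exact Or.inl h7
          · exact Or.inr (sub_eq_zero.1 h7)
        · exact absurd h5 hw0
      rcases h4 with rfl | rfl
      · simpa using h3.symm
      · have h5 : φ w w + φ w w = φ w w := by simpa using h3
        simpa using h5
    refine hw0 (h1 w hw fun y hy => ?_)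
    obtain ⟨c, rfl⟩ := hsp y hy
    rw [map_smul, hφ, smul_zero]
  · obtain ⟨φ, h1, h2, h3, -⟩ := hk
    obtain ⟨p, hp, hpe⟩ := exists_proj hss hW.1
    refine ⟨(φ.comp p).compl₂ p, ?_, ?_, ?_⟩
    · intro x _
      simp [h1]
    · intro x hx h
      have h4 : p x = 0 := h2 (p x) fun y => by
        have h5 := h y y.2
        rw [LinearMap.compl₂_apply, LinearMap.comp_apply, hp y] at h5
        exact h5
      have h5 := hp ⟨x, hx⟩
      rw [h4] at h5
      exact (congrArg Subtype.val h5).symm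
    · intro e he x hx y hy
      simp only [LinearMap.compl₂_apply, LinearMap.comp_apply]
      exact h3 e he (p x) (p (e x)) (p y) (p (e y)) (hpe e he x) (hpe e he y)
  · exact absurd hD hk.2.1

end Form

section Inst

variable {V : Type u} [NormedAddCommGroup V] [NormedSpace ℂ V] {Λ : Submodule ℤ V}
  [DiscreteTopology Λ] [IsZLattice ℝ Λ] {ι : Type} [Fintype ι] [DecidableEq ι]
  [FiniteDimensional ℂ V] (b : Basis ι ℤ Λ)

variable {T T' : Type} [Fintype T] [DecidableEq T] [Fintype T'] [DecidableEq T']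
  {I S : T → Type} [∀ t, Fintype (I t)] [∀ t, DecidableEq (I t)] [∀ t, Fintype (S t)]
  [∀ t, DecidableEq (S t)] {n : T' → ℕ} {R : T' → Type} [∀ t, Fintype (R t)]
  [∀ t, DecidableEq (R t)]

private theorem QInst_glL (B : Basis (LK I S n R) ℂ (ι → ℂ)) (t : T') (s s' : R t) (k : ℕ)
    (ω : AForm (ι → ℂ) k) :
    res b (k + 2) (glL B t s s' k ω) =
      (1 / 2 : ℂ) • wedge2 (resB b (glth B t s s')) (res b k ω) := by
  unfold glL glth
  rw [T8_wedge2_sum, LinearMap.sum_apply, map_sum, Finset.smul_sum]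
  refine Finset.sum_congr rfl fun i _ => ?_
  rw [LinearMap.comp_apply,
    res_wd b (k + 1) _ (T8_rc b (B.coord (.inr ⟨t, i, s, true⟩))) (fun _ => rfl),
    res_wd b k _ (T8_rc b (B.coord (.inr ⟨t, i, s', false⟩))) (fun _ => rfl)]
  rw [T8_resB_sub, add_wedge2, neg_wedge2, T8_wedge2_pair, T8_wedge2_pair,
    wedge1_wedge1 (T8_rc b (B.coord (.inr ⟨t, i, s', false⟩)))]
  module

theorem Qc_glL {E : V →L[ℝ] V →L[ℝ] ℝ} (hE : IsRiemannForm Λ E)
    (B : Basis (LK I S n R) ℂ (ι → ℂ)) (t : T') (s s' : R t) (hth : glth B t s s' ∈ inv2 b)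
    (j k : ℕ) (ω : AForm (ι → ℂ) k) (hω : ω ∈ Qc b j k) :
    glL B t s s' k ω ∈ Qc b (j + 1) (k + 2) := by
  rw [Qc, Submodule.mem_comap, QInst_glL]
  exact Submodule.smul_mem _ _ ((mem_divs.1 (resB_mem_divs b hE hth)) j k _ hω)

end Inst

section Alt

variable {H : Type u} [AddCommGroup H] [Module ℂ H]
  {T T' : Type} [Fintype T] [DecidableEq T] [Fintype T'] [DecidableEq T']
  {I S : T → Type} [∀ t, Fintype (I t)] [∀ t, DecidableEq (I t)] [∀ t, Fintype (S t)]
  [∀ t, DecidableEq (S t)] {n : T' → ℕ} {R : T' → Type} [∀ t, Fintype (R t)]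
  [∀ t, DecidableEq (R t)] (B : Basis (LK I S n R) ℂ H)

theorem mth_alt (t : T) (s s' : S t) (x : H) : mth B t s s' x x = 0 := by
  unfold mth
  simp only [LinearMap.sum_apply]
  refine Finset.sum_eq_zero fun i _ => ?_
  simp only [LinearMap.add_apply, LinearMap.sub_apply, LinearMap.smulRight_apply,
    LinearMap.smul_apply, smul_eq_mul]
  ring

theorem glth_alt (t : T') (s s' : R t) (x : H) : glth B t s s' x x = 0 := by
  unfold glth
  simp only [LinearMap.sum_apply]
  refine Finset.sum_eq_zero fun i _ => ?_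
  simp only [LinearMap.sub_apply, LinearMap.smulRight_apply, LinearMap.smul_apply, smul_eq_mul]
  ring

end Alt

section Main

variable {V : Type u} [NormedAddCommGroup V] [NormedSpace ℂ V] {Λ : Submodule ℤ V}
  [DiscreteTopology Λ] [IsZLattice ℝ Λ] {ι : Type} [Fintype ι] [DecidableEq ι]
  [FiniteDimensional ℂ V] (b : Basis ι ℤ Λ) {E : V →L[ℝ] V →L[ℝ] ℝ}

variable {G : Set (Module.End ℂ (ι → ℂ))}

/-- **Main argument.** The set `G` contains the conjugates of the Hodge projector, and `W` is stable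
under `G` and of coniveau `j` for all elements of `G`. -/
theorem support_uni (hE : IsRiemannForm Λ E) {j k : ℕ} {W : Submodule ℚ (CForm V k)}
    (hGc : hodgeConj b ⊆ G) (hidG : ∀ e ∈ G, e * e = e)
    (hψ : ∀ e ∈ G, ∀ x y, psi b E (e x) y + psi b E x (e y) = psi b E x y) (hss : Semisimple G)
    (hWG : ∀ e ∈ G, ∀ ω ∈ cW b W, der e k ω ∈ cW b W)
    (heig : ∀ e ∈ G, ∃ l : List ℕ, (∀ γ ∈ l, j ≤ γ) ∧
      ∀ ω ∈ cW b W, ((l.map fun γ : ℕ => (der (1 - e) k - (γ : ℂ) • 1 :
        Module.End ℂ (AForm (ι → ℂ) k))).prod : Module.End ℂ (AForm (ι → ℂ) k)) ω = 0)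
    (hkind : ∀ W, Irreducible G W → finrank ℂ W = 1 ∨ MX.KSp G W ∨ MX.KSl G W)
    (hlev : LevelCond G k j) :
    ∃ Z : Set V, CodimGE Λ j Z ∧ ∀ ω ∈ W, RestrictsToZero Λ Z ω := by
  classical
  have hGn : G.Nonempty := ⟨_, hGc (hodgeProj_mem b)⟩
  obtain ⟨r, W₁, W₂, A, P⟩ := exists_polar (psi_alt b hE) (psi_nd b hE) hψ hss
  obtain ⟨T, _, _, I, S, _, _, _, _, T', _, _, n, R, _, _, W₃, W₄, B, F⟩ :=
    exists_frames (psi_alt b hE) (psi_nd b hE) hGn hidG hψ hss
      (fun U hU hD => formOn_of_kind hidG hGn hss hU hD (hkind U hU)) P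
  have hB := F.blocks hss hψ
  have hWQ : cW b W ≤ Qc b j k := le_of_level hB (psi_nd b hE) hidG hψ hss hkind (Qc b)
    (Qc_zero b)
    (fun j k t s s' ω hω => Qc_mLw b hE B t s s'
      ⟨mth_alt B t s s', fun g hg => mth_inv hB hψ t s s' g (hGc hg)⟩ j k ω hω)
    (fun j k t s s' ω hω => Qc_glL b hE B t s s'
      ⟨glth_alt B t s s', fun g hg => glth_inv hB hψ t s s' g (hGc hg)⟩ j k ω hω)
    j k hlev (cW b W) hWG heig
  have hspan' : Submodule.span ℂ (W : Set (CForm V k)) ≤ conv Λ j k := by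
    intro ω hω
    obtain ⟨x, rfl⟩ := res_surjective b k ω
    exact hWQ hω
  have hfd := finite_forms Λ k
  obtain ⟨Z, hZ, hres⟩ := uniform (Λ := Λ) (IsNoetherian.noetherian
    (Submodule.span ℂ (W : Set (CForm V k)))) hspan'
  exact ⟨Z, hZ, fun ω hω => hres ω (Submodule.subset_span hω)⟩

end Main

end Pool.Agent.GHCUni
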