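import Pool.Agent.GHCUni.Defs

/-!
# The letters of a monomial
-/

set_option autoImplicit false

universe u

namespace Pool.Agent.GHCUni

open Module Pool.Agent.GHCFull

variable {H : Type u} [AddCommGroup H] [Module ℂ H]

/-- The letters of a monomial which occurs in `w`. -/
theorem exists_monomial {K : Type*} [Fintype K] [DecidableEq K] (B : Basis K ℂ H) {k : ℕ}
    (w : AForm H k) (hw : w ≠ 0) :
    ∃ Z : Finset K, Z.card = k ∧
      (∀ (f : K → ℂ) (c : ℂ), der (∑ α, f α • el B α α) k w = c • w → c = ∑ α ∈ Z, f α) ∧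
      (∀ α, der (el B α α) k w = 0 → α ∉ Z) ∧
      ∀ α β, α ≠ β → der (el B α α) k (der (el B β β) k w) = 0 → ¬ (α ∈ Z ∧ β ∈ Z) := by
  sorry

end Pool.Agent.GHCUni
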