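import Pool.Agent.GHCUni.Inv

/-!
# The operators of the blocks
-/

set_option autoImplicit false

universe u

namespace Pool.Agent.GHCUni

open Module Pool.Agent.GHCFull Pool.Agent.OddRank Pool.Agent.GHCMix Pool.Agent.TypeIV

variable {H : Type u} [AddCommGroup H] [Module ℂ H] [FiniteDimensional ℂ H]
  {T T' : Type} [Fintype T] [DecidableEq T] [Fintype T'] [DecidableEq T']
  {I S : T → Type} [∀ t, Fintype (I t)] [∀ t, DecidableEq (I t)] [∀ t, Fintype (S t)]
  [∀ t, DecidableEq (S t)] {n : T' → ℕ} {R : T' → Type} [∀ t, Fintype (R t)]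
  [∀ t, DecidableEq (R t)] {B : Basis (LK I S n R) ℂ H}
  {ψ : H →ₗ[ℂ] H →ₗ[ℂ] ℂ} {G : Set (Module.End ℂ H)}

theorem glC_comm (hB : Blocks B ψ G) (t : T') {g : Module.End ℂ H} (hg : g ∈ G) :
    g * glC B t = glC B t * g := by
  sorry

theorem glC_comm' (hB : Blocks B ψ G) (t : T') (z : Module.End ℂ H)
    (hz : ∀ g ∈ G, g * z = z * g) : glC B t * z = z * glC B t := by
  sorry

theorem glE_skew (hB : Blocks B ψ G) (t : T') (i j : Fin (n t)) (x y : H) :
    ψ (glE B t i j x) y + ψ x (glE B t i j y) = 0 := by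
  sorry

end Pool.Agent.GHCUni
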