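import Pool.Agent.GHCUni.HarmBot
import Pool.Agent.GHCMix.Pairs

/-!
# Stable spaces of alternating forms and the ideal of the invariant two forms
-/

set_option autoImplicit false
set_option linter.unusedSectionVars false

universe u

namespace Pool.Agent.GHCUni

open Module Pool.Agent.GHCFull Pool.Agent.OddRank Pool.Agent.GHCMix Pool.Agent.TypeIV

variable {H : Type u} [AddCommGroup H] [Module ℂ H] [FiniteDimensional ℂ H]

theorem levelCond_mono {G : Set (Module.End ℂ H)} {k j : ℕ} (h : LevelCond G (k + 2) (j + 1)) :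
    LevelCond G k j := by
  intro m W n κ h1 h2 h3 h4 h5 h6 h7 h8
  refine h m W n κ h1 h2 h3 h4 h5 (h6.trans (by push_cast; omega)) ?_ fun e he =>
    (h8 e he).trans (by push_cast; omega)
  rcases h7 with h7 | h7
  · left
    obtain ⟨a, ha⟩ := h7
    exact ⟨a + 1, by push_cast; omega⟩
  · exact Or.inr h7

/-- The saturation of a space under the operators which commute with all `der e k`. -/
def sat (G : Set (Module.End ℂ H)) {k : ℕ} (M : Submodule ℂ (AForm H k)) :
    Submodule ℂ (AForm H k) :=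
  Submodule.span ℂ {v | ∃ τ : Module.End ℂ (AForm H k),
    (∀ e ∈ G, τ * der e k = der e k * τ) ∧ ∃ ω ∈ M, v = τ ω}

section Sat

variable {G : Set (Module.End ℂ H)} {k : ℕ} {M : Submodule ℂ (AForm H k)}

theorem le_sat : M ≤ sat G M := fun ω hω =>
  Submodule.subset_span ⟨1, fun e _ => by rw [one_mul, mul_one], ω, hω, rfl⟩

theorem sat_comm {τ : Module.End ℂ (AForm H k)} (hτ : ∀ e ∈ G, τ * der e k = der e k * τ) :
    ∀ ω ∈ sat G M, τ ω ∈ sat G M := by
  intro ω hω
  induction hω using Submodule.span_induction with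
  | mem v hv =>
    obtain ⟨σ, hσ, ω, hω, rfl⟩ := hv
    refine Submodule.subset_span ⟨τ * σ, fun e he => ?_, ω, hω, rfl⟩
    rw [mul_assoc, hσ e he, ← mul_assoc, hτ e he, mul_assoc]
  | zero => rw [map_zero]; exact Submodule.zero_mem _
  | add x y _ _ hx hy => rw [map_add]; exact Submodule.add_mem _ hx hy
  | smul a x _ hx => rw [map_smul]; exact Submodule.smul_mem _ a hx

theorem sat_stable (hG : ∀ e ∈ G, ∀ ω ∈ M, der e k ω ∈ M) :
    ∀ e ∈ G, ∀ ω ∈ sat G M, der e k ω ∈ sat G M := by
  intro e he ω hω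
  induction hω using Submodule.span_induction with
  | mem v hv =>
    obtain ⟨σ, hσ, ω, hω, rfl⟩ := hv
    refine Submodule.subset_span ⟨σ, hσ, der e k ω, hG e he ω hω, ?_⟩
    exact (LinearMap.congr_fun (hσ e he) ω).symm
  | zero => rw [map_zero]; exact Submodule.zero_mem _
  | add x y _ _ hx hy => rw [map_add]; exact Submodule.add_mem _ hx hy
  | smul a x _ hx => rw [map_smul]; exact Submodule.smul_mem _ a hx

theorem der_one_sub_comm {τ : Module.End ℂ (AForm H k)} {e : Module.End ℂ H}
    (hτ : τ * der e k = der e k * τ) : τ * der (1 - e) k = der (1 - e) k * τ := by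
  ext1 ω
  have h := LinearMap.congr_fun hτ ω
  simp only [Module.End.mul_apply] at h ⊢
  rw [der_sub', der_sub', der_one, der_one, map_sub, map_smul, h]

theorem sat_list {e : Module.End ℂ H} (he : e ∈ G) {l : List ℕ}
    (hl : ∀ ω ∈ M, ((l.map fun γ : ℕ => (der (1 - e) k - (γ : ℂ) • 1 :
      Module.End ℂ (AForm H k))).prod : Module.End ℂ (AForm H k)) ω = 0) :
    ∀ ω ∈ sat G M, ((l.map fun γ : ℕ => (der (1 - e) k - (γ : ℂ) • 1 :
      Module.End ℂ (AForm H k))).prod : Module.End ℂ (AForm H k)) ω = 0 := by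
  intro ω hω
  induction hω using Submodule.span_induction with
  | mem v hv =>
    obtain ⟨σ, hσ, ω, hω, rfl⟩ := hv
    have h1 : Commute ((l.map fun γ : ℕ => (der (1 - e) k - (γ : ℂ) • 1 :
      Module.End ℂ (AForm H k))).prod) σ := by
      refine Commute.list_prod_left _ _ fun x hx => ?_
      obtain ⟨γ, _, rfl⟩ := List.mem_map.1 hx
      change (der (1 - e) k - (γ : ℂ) • 1 : Module.End ℂ (AForm H k)) * σ = σ * _
      rw [sub_mul, mul_sub, ← der_one_sub_comm (hσ e he), smul_mul_assoc, mul_smul_comm, one_mul,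
        mul_one]
    have h2 := LinearMap.congr_fun h1.eq ω
    simp only [Module.End.mul_apply] at h2
    rw [h2, hl ω hω, map_zero]
  | zero => rw [map_zero]
  | add x y _ _ hx hy => rw [map_add, hx, hy, add_zero]
  | smul a x _ hx => rw [map_smul, hx, smul_zero]

end Sat

variable {T T' : Type} [Fintype T] [DecidableEq T] [Fintype T'] [DecidableEq T']
  {I S : T → Type} [∀ t, Fintype (I t)] [∀ t, DecidableEq (I t)] [∀ t, Fintype (S t)]
  [∀ t, DecidableEq (S t)] {n : T' → ℕ} {R : T' → Type} [∀ t, Fintype (R t)]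
  [∀ t, DecidableEq (R t)] {B : Basis (LK I S n R) ℂ H}
  {ψ : H →ₗ[ℂ] H →ₗ[ℂ] ℂ} {G : Set (Module.End ℂ H)}

section Comm

variable (hB : Blocks B ψ G)

include hB

theorem der_mLw {D : Module.End ℂ H} {c : ℂ}
    (hDz : ∀ z : Module.End ℂ H, (∀ g ∈ G, g * z = z * g) → D * z = z * D)
    (hD : ∀ x y, ψ (D x) y + ψ x (D y) = c * ψ x y) (t : T) (s s' : S t) (k : ℕ)
    (ω : AForm H k) : der D (k + 2) (mLw B t s s' k ω) =
      mLw B t s s' k (der D k ω) + c • mLw B t s s' k ω := by
  rw [mLw_eq hB]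
  exact der_Lz hB.ψ_eq (hDz _ fun g hg => spZ_comm hB t s s' hg) hD k ω

theorem der_glL {D : Module.End ℂ H} {c : ℂ}
    (hDz : ∀ z : Module.End ℂ H, (∀ g ∈ G, g * z = z * g) → D * z = z * D)
    (hD : ∀ x y, ψ (D x) y + ψ x (D y) = c * ψ x y) (t : T') (s s' : R t) (k : ℕ)
    (ω : AForm H k) : der D (k + 2) (glL B t s s' k ω) =
      glL B t s s' k (der D k ω) + c • glL B t s s' k ω := by
  rw [glL_eq hB]
  exact der_Lz hB.ψ_eq (hDz _ fun g hg => glZ_comm hB t false s' s hg) hD k ω

theorem der_spLam {D : Module.End ℂ H} {c : ℂ}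
    (hDz : ∀ z : Module.End ℂ H, (∀ g ∈ G, g * z = z * g) → D * z = z * D)
    (hD : ∀ x y, ψ (D x) y + ψ x (D y) = c * ψ x y) (t : T) (s s' : S t) (k : ℕ)
    (ω : AForm H (k + 2)) : der D k (spLam B t s s' k ω) =
      spLam B t s s' k (der D (k + 2) ω) - c • spLam B t s s' k ω := by
  rw [spLam_eq hB]
  exact der_Lamz hB.ψ_eq (hDz _ fun g hg => spZ_comm hB t s s' hg) hD k ω

theorem der_glLam {D : Module.End ℂ H} {c : ℂ}
    (hDz : ∀ z : Module.End ℂ H, (∀ g ∈ G, g * z = z * g) → D * z = z * D)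
    (hD : ∀ x y, ψ (D x) y + ψ x (D y) = c * ψ x y) (t : T') (s s' : R t) (k : ℕ)
    (ω : AForm H (k + 2)) : der D k (glLam B t s s' k ω) =
      glLam B t s s' k (der D (k + 2) ω) - c • glLam B t s s' k ω := by
  rw [glLam_eq hB]
  exact der_Lamz hB.ψ_eq (hDz _ fun g hg => glZ_comm hB t true s' s hg) hD k ω

theorem TT_comm {D : Module.End ℂ H} {c : ℂ}
    (hDz : ∀ z : Module.End ℂ H, (∀ g ∈ G, g * z = z * g) → D * z = z * D)
    (hD : ∀ x y, ψ (D x) y + ψ x (D y) = c * ψ x y) (k : ℕ) :
    TT B k * der D (k + 2) = der D (k + 2) * TT B k := by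
  ext1 ω
  simp only [Module.End.mul_apply]
  unfold TT
  simp only [LinearMap.add_apply, LinearMap.sum_apply, LinearMap.comp_apply, map_add, map_sum]
  congr 1
  · refine Finset.sum_congr rfl fun t _ => Finset.sum_congr rfl fun s _ =>
      Finset.sum_congr rfl fun s' _ => ?_
    rw [der_mLw hB hDz hD, der_spLam hB hDz hD, map_sub, map_smul]
    abel
  · refine Finset.sum_congr rfl fun t _ => Finset.sum_congr rfl fun s _ =>
      Finset.sum_congr rfl fun s' _ => ?_
    rw [der_glL hB hDz hD, der_glLam hB hDz hD, map_sub, map_smul]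
    abel

theorem Harm_stable {D : Module.End ℂ H} {c : ℂ}
    (hDz : ∀ z : Module.End ℂ H, (∀ g ∈ G, g * z = z * g) → D * z = z * D)
    (hD : ∀ x y, ψ (D x) y + ψ x (D y) = c * ψ x y) (k : ℕ) :
    ∀ ω ∈ Harm B k, der D k ω ∈ Harm B k := by
  match k with
  | 0 => intro ω _; exact Submodule.mem_top
  | 1 => intro ω _; exact Submodule.mem_top
  | k + 2 =>
    rintro ω ⟨h1, h2⟩
    simp only [SetLike.mem_coe, Submodule.mem_iInf, LinearMap.mem_ker] at h1 h2
    refine ⟨?_, ?_⟩
    · simp only [SetLike.mem_coe, Submodule.mem_iInf, LinearMap.mem_ker]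
      intro t s s'
      have h3 := der_spLam hB hDz hD t s s' k ω
      rw [h1, map_zero, smul_zero, sub_zero] at h3
      exact h3.symm
    · simp only [SetLike.mem_coe, Submodule.mem_iInf, LinearMap.mem_ker]
      intro t s s'
      have h3 := der_glLam hB hDz hD t s s' k ω
      rw [h2, map_zero, smul_zero, sub_zero] at h3
      exact h3.symm

end Comm

/-- The image of a list of eigenvalues under a contraction. -/
theorem list_Lam {D : Module.End ℂ H} {k : ℕ} {Lam : AForm H (k + 2) →ₗ[ℂ] AForm H k}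
    (h : ∀ ω, der D k (Lam ω) = Lam (der D (k + 2) ω) - Lam ω) (l : List ℕ)
    (hl : ∀ β ∈ l, 1 ≤ β) :
    ∀ w : AForm H (k + 2), (((l.map (· - 1)).map fun β : ℕ =>
      (der D k - (β : ℂ) • 1 : Module.End ℂ (AForm H k))).prod : Module.End ℂ (AForm H k))
        (Lam w) =
      Lam (((l.map fun β : ℕ => (der D (k + 2) - (β : ℂ) • 1 :
        Module.End ℂ (AForm H (k + 2)))).prod : Module.End ℂ (AForm H (k + 2))) w) := by
  induction l with
  | nil => intro w; rfl
  | cons β l ih =>
    intro w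
    have h1 : 1 ≤ β := hl β List.mem_cons_self
    have h2 : ((β - 1 : ℕ) : ℂ) = (β : ℂ) - 1 := by push_cast [h1]; ring
    rw [List.map_cons, List.map_cons, List.prod_cons, List.map_cons, List.prod_cons,
      Module.End.mul_apply, Module.End.mul_apply,
      ih (fun γ hγ => hl γ (List.mem_cons_of_mem _ hγ)) w]
    set v := ((l.map fun β : ℕ => (der D (k + 2) - (β : ℂ) • 1 :
        Module.End ℂ (AForm H (k + 2)))).prod : Module.End ℂ (AForm H (k + 2))) w
    rw [LinearMap.sub_apply, LinearMap.sub_apply, LinearMap.smul_apply, LinearMap.smul_apply,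
      Module.End.one_apply, Module.End.one_apply, h, h2, map_sub, map_smul]
    module

/-- **Stable spaces of forms of coniveau `j` are contained in the `j`-th power of the ideal.** -/
theorem le_of_level (hB : Blocks B ψ G) (hnd : ∀ x, (∀ y, ψ x y = 0) → x = 0)
    (hGe : ∀ e ∈ G, e * e = e) (hψ : ∀ e ∈ G, ∀ x y, ψ (e x) y + ψ x (e y) = ψ x y)
    (hss : Semisimple G)
    (hkind : ∀ W, Irreducible G W → finrank ℂ W = 1 ∨ MX.KSp G W ∨ MX.KSl G W)
    (Q : ℕ → (k : ℕ) → Submodule ℂ (AForm H k)) (hQ0 : ∀ k, Q 0 k = ⊤)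
    (hQsp : ∀ j k t s s', ∀ ω ∈ Q j k, mLw B t s s' k ω ∈ Q (j + 1) (k + 2))
    (hQgl : ∀ j k t s s', ∀ ω ∈ Q j k, glL B t s s' k ω ∈ Q (j + 1) (k + 2)) :
    ∀ (j k : ℕ), LevelCond G k j → ∀ M : Submodule ℂ (AForm H k),
      (∀ e ∈ G, ∀ ω ∈ M, der e k ω ∈ M) →
      (∀ e ∈ G, ∃ l : List ℕ, (∀ γ ∈ l, j ≤ γ) ∧
        ∀ ω ∈ M, ((l.map fun γ : ℕ => (der (1 - e) k - (γ : ℂ) • 1 :
          Module.End ℂ (AForm H k))).prod : Module.End ℂ (AForm H k)) ω = 0) →
      M ≤ Q j k := by
  intro j
  induction j with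
  | zero =>
    intro k _ M _ _
    rw [hQ0]
    exact le_top
  | succ j ih =>
    intro k hlev M hG hl
    have hGz : ∀ e ∈ G, ∀ z : Module.End ℂ H, (∀ g ∈ G, g * z = z * g) → e * z = z * e :=
      fun e he z hz => hz e he
    have hψ' : ∀ e ∈ G, ∀ x y, ψ (e x) y + ψ x (e y) = (1 : ℂ) * ψ x y := fun e he x y => by
      rw [hψ e he, one_mul]
    have hCz : ∀ t, ∀ x y, ψ (glC B t x) y + ψ x (glC B t y) = (0 : ℂ) * ψ x y := by
      intro t x y
      rw [zero_mul, glC, LinearMap.sum_apply, LinearMap.sum_apply, map_sum, map_sum,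
        LinearMap.sum_apply, ← Finset.sum_add_distrib]
      exact Finset.sum_eq_zero fun i _ => glE_skew hB t i i x y
    have h0 : sat G M ⊓ Harm B k = ⊥ := by
      refine harm_bot hB hnd hGe hψ hss hkind (j := j + 1) (by omega) hlev ?_ ?_ ?_ inf_le_right
      · exact fun e he ω hω => ⟨sat_stable hG e he ω hω.1,
          Harm_stable hB (hGz e he) (hψ' e he) k ω hω.2⟩
      · intro t ω hω
        refine ⟨sat_comm (τ := der (glC B t) k) (fun e he => ?_) ω hω.1,
          Harm_stable hB (glC_comm' hB t) (hCz t) k ω hω.2⟩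
        exact der_comm (glC_comm hB t he).symm k
      · intro e he
        obtain ⟨l, hl1, hl2⟩ := hl e he
        exact ⟨l, hl1, fun ω hω => sat_list he hl2 ω hω.1⟩
    match k with
    | 0 =>
      have h1 : sat G M = ⊥ := by
        rw [← h0, show Harm B 0 = ⊤ from rfl, inf_top_eq]
      exact (le_sat (G := G)).trans (by rw [h1]; exact bot_le)
    | 1 =>
      have h1 : sat G M = ⊥ := by
        rw [← h0, show Harm B 1 = ⊤ from rfl, inf_top_eq]
      exact (le_sat (G := G)).trans (by rw [h1]; exact bot_le)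
    | k + 2 =>
      have hfd : FiniteDimensional ℂ (AForm H (k + 2)) := finite_aform _
      set M' := sat G M with hM'
      have hT : ∀ ω ∈ M', TT B k ω ∈ M' :=
        sat_comm fun e he => TT_comm hB (hGz e he) (hψ' e he) k
      -- the contractions
      have hlev' := levelCond_mono hlev
      have hLam : ∀ (Lam : AForm H (k + 2) →ₗ[ℂ] AForm H k),
          (∀ e ∈ G, ∀ ω, der e k (Lam ω) = Lam (der e (k + 2) ω) - Lam ω) →
          ∀ ω ∈ M', Lam ω ∈ Q j k := by
        intro Lam hLam ω hω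
        have h1 := ih k hlev' (M'.map Lam) (by
          rintro e he _ ⟨ω, hω, rfl⟩
          rw [hLam e he]
          rw [← map_sub]
          exact ⟨_, M'.sub_mem (sat_stable hG e he ω hω) hω, rfl⟩) (by
          intro e he
          obtain ⟨l, hl1, hl2⟩ := hl e he
          refine ⟨l.map (· - 1), ?_, ?_⟩
          · intro γ hγ
            obtain ⟨β, hβ, rfl⟩ := List.mem_map.1 hγ
            have := hl1 β hβ
            omega
          · rintro _ ⟨ω, hω, rfl⟩
            rw [list_Lam (fun ω => ?_) l (fun β hβ => (by omega : 1 ≤ j + 1).trans (hl1 β hβ)),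
              sat_list he hl2 ω hω, map_zero]
            rw [der_sub', der_sub', der_one, der_one, hLam e he, map_sub, map_smul]
            push_cast
            module)
        exact h1 (Submodule.mem_map_of_mem hω)
      have hTQ : ∀ ω ∈ M', TT B k ω ∈ Q (j + 1) (k + 2) := by
        intro ω hω
        unfold TT
        simp only [LinearMap.add_apply, LinearMap.sum_apply, LinearMap.comp_apply]
        refine Submodule.add_mem _ ?_ ?_
        · refine Submodule.sum_mem _ fun t _ => Submodule.sum_mem _ fun s _ =>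
            Submodule.sum_mem _ fun s' _ => hQsp _ _ _ _ _ _ (hLam _ (fun e he ω => ?_) ω hω)
          rw [der_spLam hB (hGz e he) (hψ' e he), one_smul]
        · refine Submodule.sum_mem _ fun t _ => Submodule.sum_mem _ fun s _ =>
            Submodule.sum_mem _ fun s' _ => hQgl _ _ _ _ _ _ (hLam _ (fun e he ω => ?_) ω hω)
          rw [der_glLam hB (hGz e he) (hψ' e he), one_smul]
      -- `TT` is bijective on `M'`
      let τ : M' →ₗ[ℂ] M' := (TT B k).restrict hT
      have hinj : Function.Injective τ := by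
        rw [injective_iff_map_eq_zero]
        intro ω hω
        have h1 : TT B k ω = 0 := congrArg Subtype.val hω
        have h2 : (ω : AForm H (k + 2)) ∈ sat G M ⊓ Harm B (k + 2) := ⟨ω.2, TT_ker B k _ h1⟩
        rw [h0, Submodule.mem_bot] at h2
        exact Subtype.ext h2
      have hsurj : Function.Surjective τ := LinearMap.injective_iff_surjective.1 hinj
      intro ω hω
      obtain ⟨ω', hω'⟩ := hsurj ⟨ω, le_sat hω⟩
      have h1 : TT B k ω' = ω := congrArg Subtype.val hω'
      rw [← h1]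
      exact hTQ ω' ω'.2

end Pool.Agent.GHCUni
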