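import Pool.Agent.GHCUni.DualIso

/-!
# Decomposition into hyperbolic planes and a part which is self-dual
-/

set_option autoImplicit false

universe u

namespace Pool.Agent.GHCUni

open Module Pool.Agent.GHCFull Pool.Agent.OddRank Pool.Agent.GHCMix Pool.Agent.TypeIV

variable {H : Type u} [AddCommGroup H] [Module ℂ H] [FiniteDimensional ℂ H]
  {G : Set (Module.End ℂ H)}

/-- A family of pairs `(W i, W' i)` of dual irreducible subspaces and a stable subspace `A`. -/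
structure Polar (ψ : H →ₗ[ℂ] H →ₗ[ℂ] ℂ) (G : Set (Module.End ℂ H)) {r : ℕ}
    (W W' : Fin r → Submodule ℂ H) (A : Submodule ℂ H) : Prop where
  irr : ∀ i, Irreducible G (W i)
  irr' : ∀ i, Irreducible G (W' i)
  stA : Stable G A
  nd : ∀ i, ∀ x ∈ W i, (∀ y ∈ W' i, ψ x y = 0) → x = 0
  nd' : ∀ i, ∀ y ∈ W' i, (∀ x ∈ W i, ψ x y = 0) → y = 0
  orth : ∀ i j, ∀ x ∈ W i, ∀ y ∈ W j, ψ x y = 0
  orth' : ∀ i j, ∀ x ∈ W' i, ∀ y ∈ W' j, ψ x y = 0
  ne : ∀ i j, i ≠ j → ∀ x ∈ W i, ∀ y ∈ W' j, ψ x y = 0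
  orthA : ∀ i, ∀ x ∈ W i, ∀ a ∈ A, ψ x a = 0
  orthA' : ∀ i, ∀ x ∈ W' i, ∀ a ∈ A, ψ x a = 0
  sup : ∀ V : Submodule ℂ H, (∀ i, W i ≤ V) → (∀ i, W' i ≤ V) → A ≤ V → V = ⊤
  ndual : ∀ i j, ¬ Dual G (W i) (W j)
  selfdual : ∀ U ≤ A, Irreducible G U → Dual G U U

/-- All conditions of `Polar` except the last one. -/
private structure Polar0 (ψ : H →ₗ[ℂ] H →ₗ[ℂ] ℂ) (G : Set (Module.End ℂ H)) {r : ℕ}
    (W W' : Fin r → Submodule ℂ H) (A : Submodule ℂ H) : Prop where
  irr : ∀ i, Irreducible G (W i)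
  irr' : ∀ i, Irreducible G (W' i)
  stA : Stable G A
  nd : ∀ i, ∀ x ∈ W i, (∀ y ∈ W' i, ψ x y = 0) → x = 0
  nd' : ∀ i, ∀ y ∈ W' i, (∀ x ∈ W i, ψ x y = 0) → y = 0
  orth : ∀ i j, ∀ x ∈ W i, ∀ y ∈ W j, ψ x y = 0
  orth' : ∀ i j, ∀ x ∈ W' i, ∀ y ∈ W' j, ψ x y = 0
  ne : ∀ i j, i ≠ j → ∀ x ∈ W i, ∀ y ∈ W' j, ψ x y = 0
  orthA : ∀ i, ∀ x ∈ W i, ∀ a ∈ A, ψ x a = 0
  orthA' : ∀ i, ∀ x ∈ W' i, ∀ a ∈ A, ψ x a = 0
  sup : ∀ V : Submodule ℂ H, (∀ i, W i ≤ V) → (∀ i, W' i ≤ V) → A ≤ V → V = ⊤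
  ndual : ∀ i j, ¬ Dual G (W i) (W j)

/-- the orthogonal subspace -/
private def perp (ψ : H →ₗ[ℂ] H →ₗ[ℂ] ℂ) (P : Submodule ℂ H) : Submodule ℂ H where
  carrier := {a | ∀ x ∈ P, ψ x a = 0}
  add_mem' := fun {a b} ha hb x hx => by rw [map_add, ha x hx, hb x hx, add_zero]
  zero_mem' := fun x _ => map_zero _
  smul_mem' := fun c a ha x hx => by rw [map_smul, ha x hx, smul_zero]

omit [FiniteDimensional ℂ H] in
private theorem perp_stable {ψ : H →ₗ[ℂ] H →ₗ[ℂ] ℂ}
    (hψ : ∀ e ∈ G, ∀ x y, ψ (e x) y + ψ x (e y) = ψ x y) {P : Submodule ℂ H}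
    (hP : Stable G P) : Stable G (perp ψ P) := by
  intro e he a ha x hx
  have h1 := hψ e he x a
  rw [ha (e x) (hP e he x hx), ha x hx, zero_add] at h1
  exact h1

omit [FiniteDimensional ℂ H] in
private theorem nd_of_ne {ψ : H →ₗ[ℂ] H →ₗ[ℂ] ℂ} (hanti : ∀ x y, ψ x y = - ψ y x)
    (hψ : ∀ e ∈ G, ∀ x y, ψ (e x) y + ψ x (e y) = ψ x y) {P Q : Submodule ℂ H}
    (hP : Irreducible G P) (hQ : Stable G Q) {x₀ y₀ : H} (hx₀ : x₀ ∈ P) (hy₀ : y₀ ∈ Q)
    (h : ψ x₀ y₀ ≠ 0) : ∀ x ∈ P, (∀ y ∈ Q, ψ x y = 0) → x = 0 := by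
  intro x hx hxy
  have h1 : Stable G (P ⊓ perp ψ Q) := hP.1.inf (perp_stable hψ hQ)
  have hmem : ∀ z ∈ P, (∀ y ∈ Q, ψ z y = 0) → z ∈ P ⊓ perp ψ Q := by
    intro z hz h2
    refine ⟨hz, fun y hy => ?_⟩
    rw [hanti, h2 y hy, neg_zero]
  rcases hP.2.2 _ h1 inf_le_left with h2 | h2
  · have h3 := hmem x hx hxy
    rw [h2, Submodule.mem_bot] at h3
    exact h3
  · exfalso
    have h3 : x₀ ∈ P ⊓ perp ψ Q := by rw [h2]; exact hx₀
    apply h
    rw [hanti, h3.2 y₀ hy₀, neg_zero]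

private theorem polar_add {ψ : H →ₗ[ℂ] H →ₗ[ℂ] ℂ} (hanti : ∀ x y, ψ x y = - ψ y x)
    (hψ : ∀ e ∈ G, ∀ x y, ψ (e x) y + ψ x (e y) = ψ x y) {r : ℕ}
    {W W' : Fin r → Submodule ℂ H} {A : Submodule ℂ H} (h : Polar0 ψ G W W' A)
    {P Q : Submodule ℂ H} (hPA : P ≤ A) (hQA : Q ≤ A) (hP : Irreducible G P)
    (hQ : Irreducible G Q) (hPP : ∀ x ∈ P, ∀ y ∈ P, ψ x y = 0)
    (hQQ : ∀ x ∈ Q, ∀ y ∈ Q, ψ x y = 0)
    (hnd : ∀ x ∈ P, (∀ y ∈ Q, ψ x y = 0) → x = 0)
    (hnd' : ∀ y ∈ Q, (∀ x ∈ P, ψ x y = 0) → y = 0)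
    (h1 : ∀ i, ¬ Dual G (W i) P) (h2 : ∀ i, ¬ Dual G P (W i)) (h3 : ¬ Dual G P P) :
    Polar0 ψ G (Fin.cons P W : Fin (r + 1) → Submodule ℂ H)
      (Fin.cons Q W' : Fin (r + 1) → Submodule ℂ H) (A ⊓ (perp ψ P ⊓ perp ψ Q)) := by
  refine ⟨?_, ?_, ?_, ?_, ?_, ?_, ?_, ?_, ?_, ?_, ?_, ?_⟩
  · refine Fin.cases hP fun i => ?_
    rw [Fin.cons_succ]
    exact h.irr i
  · refine Fin.cases hQ fun i => ?_
    rw [Fin.cons_succ]
    exact h.irr' i
  · exact h.stA.inf ((perp_stable hψ hP.1).inf (perp_stable hψ hQ.1))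
  · refine Fin.cases hnd fun i => ?_
    rw [Fin.cons_succ, Fin.cons_succ]
    exact h.nd i
  · refine Fin.cases hnd' fun i => ?_
    rw [Fin.cons_succ, Fin.cons_succ]
    exact h.nd' i
  · refine Fin.cases (Fin.cases hPP fun j => ?_) fun i => Fin.cases ?_ fun j => ?_
    · rw [Fin.cons_succ, Fin.cons_zero]
      intro x hx y hy
      rw [hanti, h.orthA j y hy x (hPA hx), neg_zero]
    · rw [Fin.cons_succ, Fin.cons_zero]
      intro x hx y hy
      exact h.orthA i x hx y (hPA hy)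
    · rw [Fin.cons_succ, Fin.cons_succ]
      exact h.orth i j
  · refine Fin.cases (Fin.cases hQQ fun j => ?_) fun i => Fin.cases ?_ fun j => ?_
    · rw [Fin.cons_succ, Fin.cons_zero]
      intro x hx y hy
      rw [hanti, h.orthA' j y hy x (hQA hx), neg_zero]
    · rw [Fin.cons_succ, Fin.cons_zero]
      intro x hx y hy
      exact h.orthA' i x hx y (hQA hy)
    · rw [Fin.cons_succ, Fin.cons_succ]
      exact h.orth' i j
  · refine Fin.cases (Fin.cases (fun h0 => absurd rfl h0) fun j => ?_)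
      fun i => Fin.cases ?_ fun j => ?_
    · intro _
      rw [Fin.cons_succ, Fin.cons_zero]
      intro x hx y hy
      rw [hanti, h.orthA' j y hy x (hPA hx), neg_zero]
    · intro _
      rw [Fin.cons_succ, Fin.cons_zero]
      intro x hx y hy
      exact h.orthA i x hx y (hQA hy)
    · intro hij
      rw [Fin.cons_succ, Fin.cons_succ]
      exact h.ne i j fun h0 => hij (by rw [h0])
  · refine Fin.cases ?_ fun i => ?_
    · rw [Fin.cons_zero]
      intro x hx a ha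
      exact ha.2.1 x hx
    · rw [Fin.cons_succ]
      intro x hx a ha
      exact h.orthA i x hx a ha.1
  · refine Fin.cases ?_ fun i => ?_
    · rw [Fin.cons_zero]
      intro x hx a ha
      exact ha.2.2 x hx
    · rw [Fin.cons_succ]
      intro x hx a ha
      exact h.orthA' i x hx a ha.1
  · intro V hV hV' hA
    have hPV : P ≤ V := hV 0
    have hQV : Q ≤ V := hV' 0
    refine h.sup V (fun i => ?_) (fun i => ?_) ?_
    · have := hV i.succ
      rwa [Fin.cons_succ] at this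
    · have := hV' i.succ
      rwa [Fin.cons_succ] at this
    intro a ha
    -- the pairing between P and Q is perfect
    let f : P →ₗ[ℂ] Module.Dual ℂ Q :=
      { toFun := fun x => (ψ.flip x).domRestrict Q
        map_add' := fun x y => by ext z; simp
        map_smul' := fun c x => by ext z; simp }
    let g : Q →ₗ[ℂ] Module.Dual ℂ P :=
      { toFun := fun x => (ψ.flip x).domRestrict P
        map_add' := fun x y => by ext z; simp
        map_smul' := fun c x => by ext z; simp }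
    have hf : ∀ (x : P) (y : Q), f x y = ψ y x := fun _ _ => rfl
    have hg : ∀ (x : Q) (y : P), g x y = ψ y x := fun _ _ => rfl
    have hfi : Function.Injective f := by
      rw [injective_iff_map_eq_zero]
      intro x hx
      apply Subtype.ext
      refine hnd x x.2 fun y hy => ?_
      have := hf x ⟨y, hy⟩
      rw [hx] at this
      rw [hanti, ← this, LinearMap.zero_apply, neg_zero]
    have hgi : Function.Injective g := by
      rw [injective_iff_map_eq_zero]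
      intro x hx
      apply Subtype.ext
      refine hnd' x x.2 fun y hy => ?_
      have := hg x ⟨y, hy⟩
      rw [hx] at this
      rw [← this, LinearMap.zero_apply]
    have e1 := LinearMap.finrank_le_finrank_of_injective hfi
    have e2 := LinearMap.finrank_le_finrank_of_injective hgi
    rw [Subspace.dual_finrank_eq] at e1 e2
    have e3 : finrank ℂ P = finrank ℂ Q := le_antisymm e1 e2
    have hfs : Function.Surjective f :=
      (LinearMap.injective_iff_surjective_of_finrank_eq_finrank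
        (by rw [Subspace.dual_finrank_eq, e3])).1 hfi
    have hgs : Function.Surjective g :=
      (LinearMap.injective_iff_surjective_of_finrank_eq_finrank
        (by rw [Subspace.dual_finrank_eq, e3])).1 hgi
    obtain ⟨p, hp⟩ := hfs ((ψ.flip a).domRestrict Q)
    obtain ⟨q, hq⟩ := hgs ((ψ.flip a).domRestrict P)
    have hp' : ∀ y ∈ Q, ψ y p = ψ y a := fun y hy => by
      have := LinearMap.congr_fun hp ⟨y, hy⟩
      rw [hf] at this
      exact this
    have hq' : ∀ y ∈ P, ψ y q = ψ y a := fun y hy => by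
      have := LinearMap.congr_fun hq ⟨y, hy⟩
      rw [hg] at this
      exact this
    have hdec : a = (p : H) + q + (a - p - q) := by abel
    have hmem : a - p - q ∈ A ⊓ (perp ψ P ⊓ perp ψ Q) := by
      refine ⟨?_, ?_, ?_⟩
      · exact A.sub_mem (A.sub_mem ha (hPA p.2)) (hQA q.2)
      · intro x hx
        rw [map_sub, map_sub, hPP x hx p p.2, hq' x hx, sub_zero, sub_self]
      · intro x hx
        rw [map_sub, map_sub, hQQ x hx q q.2, hp' x hx, sub_zero, sub_self]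
    rw [hdec]
    exact V.add_mem (V.add_mem (hPV p.2) (hQV q.2)) (hA hmem)
  · refine Fin.cases (Fin.cases h3 fun j => ?_) fun i => Fin.cases ?_ fun j => ?_
    · rw [Fin.cons_succ, Fin.cons_zero]
      exact h2 j
    · rw [Fin.cons_succ, Fin.cons_zero]
      exact h1 i
    · rw [Fin.cons_succ, Fin.cons_succ]
      exact h.ndual i j

private theorem finrank_lt {ψ : H →ₗ[ℂ] H →ₗ[ℂ] ℂ} {A P Q : Submodule ℂ H} (hQA : Q ≤ A)
    {x y : H} (hx : x ∈ P) (hy : y ∈ Q) (h : ψ x y ≠ 0) :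
    finrank ℂ (A ⊓ (perp ψ P ⊓ perp ψ Q) : Submodule ℂ H) < finrank ℂ A := by
  apply Submodule.finrank_lt_finrank_of_lt
  refine lt_of_le_of_ne inf_le_left fun h0 => ?_
  have h1 : y ∈ A ⊓ (perp ψ P ⊓ perp ψ Q) := by rw [h0]; exact hQA hy
  exact h (h1.2.1 x hx)

private theorem exists_polar_aux {ψ : H →ₗ[ℂ] H →ₗ[ℂ] ℂ} (hanti : ∀ x y, ψ x y = - ψ y x)
    (hnd : ∀ x, (∀ y, ψ x y = 0) → x = 0)
    (hψ : ∀ e ∈ G, ∀ x y, ψ (e x) y + ψ x (e y) = ψ x y) (hss : Semisimple G) (d : ℕ) :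
    ∀ (r : ℕ) (W W' : Fin r → Submodule ℂ H) (A : Submodule ℂ H), Polar0 ψ G W W' A →
      finrank ℂ A ≤ d →
      ∃ (r : ℕ) (W W' : Fin r → Submodule ℂ H) (A : Submodule ℂ H), Polar ψ G W W' A := by
  induction d with
  | zero =>
    intro r W W' A h hd
    refine ⟨r, W, W', A, h.irr, h.irr', h.stA, h.nd, h.nd', h.orth, h.orth', h.ne, h.orthA,
      h.orthA', h.sup, h.ndual, fun U hU hirr => ?_⟩
    exfalso
    have h1 : A = ⊥ := Submodule.finrank_eq_zero.1 (Nat.le_zero.1 hd)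
    exact hirr.2.1 (le_bot_iff.1 (h1 ▸ hU))
  | succ d ih =>
    intro r W W' A h hd
    by_cases hs : ∀ U ≤ A, Irreducible G U → Dual G U U
    · exact ⟨r, W, W', A, h.irr, h.irr', h.stA, h.nd, h.nd', h.orth, h.orth', h.ne, h.orthA,
        h.orthA', h.sup, h.ndual, hs⟩
    push Not at hs
    obtain ⟨X, hXA, hX, hXX⟩ := hs
    -- nondegeneracy on A
    have hndA : ∀ a ∈ A, (∀ b ∈ A, ψ a b = 0) → a = 0 := by
      intro a ha hab
      apply hnd
      have h1 : LinearMap.ker (ψ a) = ⊤ := by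
        apply h.sup
        · intro i x hx
          rw [LinearMap.mem_ker, hanti, h.orthA i x hx a ha, neg_zero]
        · intro i x hx
          rw [LinearMap.mem_ker, hanti, h.orthA' i x hx a ha, neg_zero]
        · intro b hb
          exact hab b hb
      intro y
      have h2 : y ∈ LinearMap.ker (ψ a) := by rw [h1]; exact Submodule.mem_top
      exact h2
    -- an irreducible subspace which is not orthogonal to X
    obtain ⟨Y, hYA, hY, x₀, hx₀, y₀, hy₀, h₀⟩ : ∃ Y ≤ A, Irreducible G Y ∧ ∃ x₀ ∈ X, ∃ y₀ ∈ Y,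
        ψ x₀ y₀ ≠ 0 := by
      obtain ⟨C, hC, hcompl⟩ := hss (A ⊓ perp ψ X) (h.stA.inf (perp_stable hψ hX.1))
      have h1 : A ⊓ C ≠ ⊥ := by
        intro h2
        have h3 : A ≤ perp ψ X := by
          intro a ha
          have h4 : a ∈ (A ⊓ perp ψ X) ⊔ C := by
            rw [hcompl.sup_eq_top]; exact Submodule.mem_top
          obtain ⟨u, hu, c, hc, huc⟩ := Submodule.mem_sup.1 h4
          have h5 : c ∈ A ⊓ C := by
            refine ⟨?_, hc⟩
            have : c = a - u := by rw [← huc]; abel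
            rw [this]
            exact A.sub_mem ha hu.1
          rw [h2, Submodule.mem_bot] at h5
          rw [← huc, h5, add_zero]
          exact hu.2
        apply hX.2.1
        rw [eq_bot_iff]
        intro x hx
        rw [Submodule.mem_bot]
        exact hndA x (hXA hx) fun b hb => h3 hb x hx
      obtain ⟨Y, hYC, hY⟩ := exists_irr (h.stA.inf hC) h1
      refine ⟨Y, fun y hy => (hYC hy).1, hY, ?_⟩
      by_contra hcon
      push Not at hcon
      apply hY.2.1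
      rw [eq_bot_iff]
      intro y hy
      have h2 : y ∈ (A ⊓ perp ψ X) ⊓ C :=
        ⟨⟨(hYC hy).1, fun x hx => hcon x hx y hy⟩, (hYC hy).2⟩
      rw [hcompl.inf_eq_bot] at h2
      exact h2
    have h₀' : ψ y₀ x₀ ≠ 0 := by
      rw [hanti]
      exact neg_ne_zero.2 h₀
    have hXY : Dual G X Y := dual_of_ne hψ hX hY hx₀ hy₀ h₀
    have hYY : ¬ Dual G Y Y := by
      intro h1
      have h2 : Iso G X Y := iso_of_dual hX hY hY hXY h1
      exact hXX (dual_iso hss hY hX hXY (h2.symm hX.1))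
    have hX0 : ∀ x ∈ X, ∀ y ∈ X, ψ x y = 0 := by
      intro x hx y hy
      by_contra h1
      exact hXX (dual_of_ne hψ hX hX hx hy h1)
    have hY0 : ∀ x ∈ Y, ∀ y ∈ Y, ψ x y = 0 := by
      intro x hx y hy
      by_contra h1
      exact hYY (dual_of_ne hψ hY hY hx hy h1)
    have n1 : ∀ x ∈ X, (∀ y ∈ Y, ψ x y = 0) → x = 0 :=
      nd_of_ne hanti hψ hX hY.1 hx₀ hy₀ h₀
    have n2 : ∀ x ∈ Y, (∀ y ∈ X, ψ x y = 0) → x = 0 :=
      nd_of_ne hanti hψ hY hX.1 hy₀ hx₀ h₀'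
    have n1' : ∀ x ∈ X, (∀ y ∈ Y, ψ y x = 0) → x = 0 := fun x hx hxy =>
      n1 x hx fun y hy => by rw [hanti, hxy y hy, neg_zero]
    have n2' : ∀ x ∈ Y, (∀ y ∈ X, ψ y x = 0) → x = 0 := fun x hx hxy =>
      n2 x hx fun y hy => by rw [hanti, hxy y hy, neg_zero]
    by_cases hi : ∃ i, Dual G (W i) X
    · obtain ⟨i, hi⟩ := hi
      have hj : ∀ j, ¬ Dual G (W j) Y := by
        intro j hj
        have h1 : Iso G (W j) X := iso_of_dual (h.irr j) hX hY hj hXY
        exact h.ndual i j (dual_iso hss hX (h.irr j) hi (h1.symm (h.irr j).1))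
      have hj' : ∀ j, ¬ Dual G Y (W j) := fun j h1 => hj j (dual_symm hY (h.irr j) h1)
      have hnew := polar_add hanti hψ h hYA hXA hY hX hY0 hX0 n2 n1' hj hj' hYY
      refine ih _ _ _ _ hnew ?_
      have := finrank_lt (A := A) (P := Y) (Q := X) hXA hy₀ hx₀ h₀'
      omega
    · have hi1 : ∀ i, ¬ Dual G (W i) X := fun i h1 => hi ⟨i, h1⟩
      have hi2 : ∀ i, ¬ Dual G X (W i) := fun i h1 => hi1 i (dual_symm hX (h.irr i) h1)
      have hnew := polar_add hanti hψ h hXA hYA hX hY hX0 hY0 n1 n2' hi1 hi2 hXX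
      refine ih _ _ _ _ hnew ?_
      have := finrank_lt (A := A) (P := X) (Q := Y) hYA hx₀ hy₀ h₀
      omega

/-- Existence (induction on the dimension of `A`, without the last condition): if `A` contains an
irreducible subspace `X` which is not self-dual, choose an irreducible `Y ≤ A` with `ψ X Y ≠ 0`;
one of the pairs `(X, Y)`, `(Y, X)` can be added. -/
theorem exists_polar {ψ : H →ₗ[ℂ] H →ₗ[ℂ] ℂ} (halt : ∀ x, ψ x x = 0)
    (hnd : ∀ x, (∀ y, ψ x y = 0) → x = 0)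
    (hψ : ∀ e ∈ G, ∀ x y, ψ (e x) y + ψ x (e y) = ψ x y) (hss : Semisimple G) :
    ∃ (r : ℕ) (W W' : Fin r → Submodule ℂ H) (A : Submodule ℂ H), Polar ψ G W W' A := by
  have hanti : ∀ x y, ψ x y = - ψ y x := by
    intro x y
    have h1 := halt (x + y)
    have h2 : ψ x y + ψ y x = 0 := by
      have e1 : ψ (x + y) (x + y) = ψ x x + ψ x y + (ψ y x + ψ y y) := by
        rw [map_add ψ x y, LinearMap.add_apply, map_add, map_add]
      rw [e1, halt x, halt y, zero_add, add_zero] at h1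
      exact h1
    exact eq_neg_of_add_eq_zero_left h2
  refine exists_polar_aux hanti hnd hψ hss (finrank ℂ (⊤ : Submodule ℂ H)) 0 Fin.elim0 Fin.elim0 ⊤
    ?_ le_rfl
  exact ⟨fun i => i.elim0, fun i => i.elim0, fun _ _ _ _ => Submodule.mem_top, fun i => i.elim0,
    fun i => i.elim0, fun i => i.elim0, fun i => i.elim0, fun i => i.elim0, fun i => i.elim0,
    fun i => i.elim0, fun V _ _ hV => top_le_iff.1 hV, fun i => i.elim0⟩

end Pool.Agent.GHCUni
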